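import Pool.Agent.Lib.MP_967fd7_co.Rep.Basic

/-! Filtrations of finite dimensional spaces by components; products of components. -/

namespace MP967.Rep

open MvPolynomial

section Abstract

variable {V : Type} [AddCommGroup V] [Module ℚ V]

/-- elements of `W` whose components below `n` vanish -/
def rc19F (c : ℕ → V →ₗ[ℚ] V) (W : Submodule ℚ V) (n : ℕ) : Submodule ℚ V :=
  W ⊓ ⨅ (j : ℕ) (_ : j < n), LinearMap.ker (c j)

theorem rc19F_mem {c : ℕ → V →ₗ[ℚ] V} {W : Submodule ℚ V} {n : ℕ} {p : V} :
    p ∈ rc19F c W n ↔ p ∈ W ∧ ∀ j < n, c j p = 0 := by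
  simp [rc19F]

theorem rc19F_zero (c : ℕ → V →ₗ[ℚ] V) (W : Submodule ℚ V) : rc19F c W 0 = W := by
  ext p
  rw [rc19F_mem]
  exact ⟨fun h => h.1, fun h => ⟨h, fun j hj => absurd hj (Nat.not_lt_zero j)⟩⟩

theorem rc19F_succ (c : ℕ → V →ₗ[ℚ] V) (W : Submodule ℚ V) (n : ℕ) :
    rc19F c W (n + 1) = rc19F c W n ⊓ LinearMap.ker (c n) := by
  ext p
  rw [Submodule.mem_inf, rc19F_mem, rc19F_mem, LinearMap.mem_ker]
  constructor
  · intro h
    exact ⟨⟨h.1, fun j hj => h.2 j (Nat.lt_succ_of_lt hj)⟩, h.2 n (Nat.lt_succ_self n)⟩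
  · intro h
    refine ⟨h.1.1, fun j hj => ?_⟩
    rcases Nat.lt_succ_iff_lt_or_eq.1 hj with h1 | h1
    · exact h.1.2 j h1
    · rw [h1]
      exact h.2

/-- the space of lowest components below `M` -/
def rc19S (c : ℕ → V →ₗ[ℚ] V) (W : Submodule ℚ V) (M : ℕ) : Submodule ℚ V :=
  (Finset.range M).sup fun n => (rc19F c W n).map (c n)

theorem rc19S_succ (c : ℕ → V →ₗ[ℚ] V) (W : Submodule ℚ V) (M : ℕ) :
    rc19S c W (M + 1) = (rc19F c W M).map (c M) ⊔ rc19S c W M := by
  unfold rc19S
  rw [Finset.range_add_one, Finset.sup_insert]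

theorem rc19_step (c : ℕ → V →ₗ[ℚ] V) (W : Submodule ℚ V) [FiniteDimensional ℚ W] (M : ℕ) :
    Module.finrank ℚ ((rc19F c W M).map (c M)) + Module.finrank ℚ (rc19F c W (M + 1)) =
      Module.finrank ℚ (rc19F c W M) := by
  have : FiniteDimensional ℚ (rc19F c W M) :=
    Submodule.finiteDimensional_of_le (inf_le_left : rc19F c W M ≤ W)
  have h := LinearMap.finrank_range_add_finrank_ker ((c M).domRestrict (rc19F c W M))
  rw [LinearMap.range_domRestrict, LinearMap.ker_domRestrict,
    ← Submodule.finrank_map_subtype_eq, Submodule.map_comap_subtype, ← rc19F_succ] at h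
  exact h

theorem rc19_finrank (c : ℕ → V →ₗ[ℚ] V) (h1 : ∀ n p, c n (c n p) = c n p)
    (h2 : ∀ m n p, m ≠ n → c m (c n p) = 0) (W : Submodule ℚ V) [FiniteDimensional ℚ W] (M : ℕ) :
    Module.finrank ℚ (rc19S c W M) + Module.finrank ℚ (rc19F c W M) = Module.finrank ℚ W := by
  have hfd : ∀ M, FiniteDimensional ℚ (rc19F c W M) := fun M =>
    Submodule.finiteDimensional_of_le (inf_le_left : rc19F c W M ≤ W)
  have hz : ∀ M, rc19S c W M ≤ ⨅ (j : ℕ) (_ : M ≤ j), LinearMap.ker (c j) := by
    intro M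
    unfold rc19S
    refine Finset.sup_le fun n hn => ?_
    rintro _ ⟨p, _, rfl⟩
    simp only [Submodule.mem_iInf, LinearMap.mem_ker]
    intro j hj
    exact h2 j n p (by have := Finset.mem_range.1 hn; omega)
  have hSfd : ∀ M, FiniteDimensional ℚ (rc19S c W M) := by
    intro M
    induction M with
    | zero =>
      have : rc19S c W 0 = ⊥ := by
        unfold rc19S
        rw [Finset.range_zero, Finset.sup_empty]
      rw [this]
      infer_instance
    | succ M ih =>
      rw [rc19S_succ]
      have := hfd M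
      have := ih
      infer_instance
  induction M with
  | zero =>
    have : rc19S c W 0 = ⊥ := by
      unfold rc19S
      rw [Finset.range_zero, Finset.sup_empty]
    rw [this, finrank_bot, rc19F_zero, zero_add]
  | succ M ih =>
    have := hfd M
    have := hSfd M
    have hd : (rc19F c W M).map (c M) ⊓ rc19S c W M = ⊥ := by
      rw [eq_bot_iff]
      rintro x ⟨⟨p, _, rfl⟩, hx2⟩
      have h3 := hz M hx2
      simp only [Submodule.mem_iInf, LinearMap.mem_ker] at h3
      have h4 := h3 M le_rfl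
      rw [h1] at h4
      rw [h4]
      exact Submodule.zero_mem _
    have h5 := Submodule.finrank_sup_add_finrank_inf_eq ((rc19F c W M).map (c M)) (rc19S c W M)
    rw [hd, finrank_bot, ← rc19S_succ] at h5
    have h6 := rc19_step c W M
    omega

theorem rc19_bound (c : ℕ → V →ₗ[ℚ] V) (h4 : ∀ p, ∃ N, ∀ n, N ≤ n → c n p = 0)
    {W : Submodule ℚ V} (hW : W.FG) : ∃ N, ∀ p ∈ W, ∀ n, N ≤ n → c n p = 0 := by
  obtain ⟨s, hs⟩ := hW
  choose B hB using h4
  refine ⟨s.sup B, ?_⟩
  have hle : Submodule.span ℚ (s : Set V) ≤ ⨅ (j : ℕ) (_ : s.sup B ≤ j), LinearMap.ker (c j) := by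
    rw [Submodule.span_le]
    intro p hp
    simp only [SetLike.mem_coe, Submodule.mem_iInf, LinearMap.mem_ker]
    intro j hj
    exact hB p j ((Finset.le_sup (f := B) hp).trans hj)
  rw [hs] at hle
  intro p hp n hn
  have h := hle hp
  simp only [Submodule.mem_iInf, LinearMap.mem_ker] at h
  exact h n hn

theorem rc19_low_eq (c : ℕ → V →ₗ[ℚ] V) (h3 : ∀ p, (∀ n, c n p = 0) → p = 0)
    (h4 : ∀ p, ∃ N, ∀ n, N ≤ n → c n p = 0) {W : Submodule ℚ V} (hW : W.FG) :
    ∃ M, Submodule.span ℚ {q | ∃ p ∈ W, ∃ n, (∀ j < n, c j p = 0) ∧ c n p = q} = rc19S c W M ∧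
      rc19F c W M = ⊥ := by
  obtain ⟨M, hM⟩ := rc19_bound c h4 hW
  have hbot : ∀ n, M ≤ n → rc19F c W n = ⊥ := by
    intro n hn
    rw [eq_bot_iff]
    intro p hp
    rw [rc19F_mem] at hp
    rw [Submodule.mem_bot]
    refine h3 p fun j => ?_
    rcases lt_or_ge j n with h | h
    · exact hp.2 j h
    · exact hM p hp.1 j (hn.trans h)
  refine ⟨M, le_antisymm ?_ ?_, hbot M le_rfl⟩
  · rw [Submodule.span_le]
    rintro q ⟨p, hp, n, hn, rfl⟩
    have hpn : p ∈ rc19F c W n := rc19F_mem.2 ⟨hp, hn⟩
    rcases lt_or_ge n M with h | h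
    · exact (Finset.le_sup (f := fun n => (rc19F c W n).map (c n)) (Finset.mem_range.2 h) :
        _ ≤ rc19S c W M) (Submodule.mem_map_of_mem hpn)
    · rw [hbot n h, Submodule.mem_bot] at hpn
      rw [hpn, map_zero]
      exact Submodule.zero_mem _
  · unfold rc19S
    refine Finset.sup_le fun n _ => ?_
    rintro _ ⟨p, hp, rfl⟩
    have hp' := rc19F_mem.1 hp
    exact Submodule.subset_span ⟨p, hp'.1, n, hp'.2, rfl⟩

theorem rc19_S_fg (c : ℕ → V →ₗ[ℚ] V) (W : Submodule ℚ V) (hW : W.FG) (M : ℕ) :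
    (rc19S c W M).FG := by
  have : FiniteDimensional ℚ W := (Submodule.fg_iff_finiteDimensional _).1 hW
  induction M with
  | zero =>
    have : rc19S c W 0 = ⊥ := by
      unfold rc19S
      rw [Finset.range_zero, Finset.sup_empty]
    rw [this]
    exact Submodule.fg_bot
  | succ M ih =>
    rw [rc19S_succ]
    have : FiniteDimensional ℚ (rc19F c W M) :=
      Submodule.finiteDimensional_of_le (inf_le_left : rc19F c W M ≤ W)
    exact (((Submodule.fg_iff_finiteDimensional _).2 inferInstance).map _).sup ih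

end Abstract

section Weighted

variable {σ : Type} (w : σ → ℕ)

theorem rc19_w_same (n : ℕ) (p : MvPolynomial σ ℚ) :
    weightedHomogeneousComponent w n (weightedHomogeneousComponent w n p) =
      weightedHomogeneousComponent w n p :=
  (weightedHomogeneousComponent_isWeightedHomogeneous n p).weightedHomogeneousComponent_same

theorem rc19_w_ne (m n : ℕ) (p : MvPolynomial σ ℚ) (h : m ≠ n) :
    weightedHomogeneousComponent w m (weightedHomogeneousComponent w n p) = 0 :=
  (weightedHomogeneousComponent_isWeightedHomogeneous n p).weightedHomogeneousComponent_ne m h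

theorem rc19_w_zero (p : MvPolynomial σ ℚ) (h : ∀ n, weightedHomogeneousComponent w n p = 0) :
    p = 0 := by
  rw [← sum_weightedHomogeneousComponent w p]
  simp [h]

theorem rc19_w_bound (p : MvPolynomial σ ℚ) :
    ∃ N, ∀ n, N ≤ n → weightedHomogeneousComponent w n p = 0 :=
  ⟨weightedTotalDegree w p + 1, fun n hn =>
    weightedHomogeneousComponent_eq_zero n p (Nat.lt_of_succ_le hn)⟩

theorem rc19_w_sum (p : MvPolynomial σ ℚ) (M : ℕ)
    (hM : ∀ n, M ≤ n → weightedHomogeneousComponent w n p = 0) :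
    ∑ n ∈ Finset.range M, weightedHomogeneousComponent w n p = p := by
  conv_rhs => rw [← sum_weightedHomogeneousComponent w p]
  symm
  refine finsum_eq_sum_of_support_subset _ ?_
  intro n hn
  rw [Finset.coe_range, Set.mem_Iio]
  by_contra hc
  exact hn (hM n (not_lt.1 hc))

theorem rc19_w_mul (p q : MvPolynomial σ ℚ) (A B : ℕ)
    (hA : ∀ n, A ≤ n → weightedHomogeneousComponent w n p = 0)
    (hB : ∀ n, B ≤ n → weightedHomogeneousComponent w n q = 0) (k : ℕ) :
    weightedHomogeneousComponent w k (p * q) =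
      ∑ i ∈ Finset.range A, ∑ j ∈ Finset.range B, if i + j = k then
        weightedHomogeneousComponent w i p * weightedHomogeneousComponent w j q else 0 := by
  conv_lhs => rw [← rc19_w_sum w p A hA, ← rc19_w_sum w q B hB]
  rw [Finset.sum_mul_sum, map_sum]
  refine Finset.sum_congr rfl fun i _ => ?_
  rw [map_sum]
  refine Finset.sum_congr rfl fun j _ => ?_
  have h := (weightedHomogeneousComponent_isWeightedHomogeneous (w := w) i p).mul
    (weightedHomogeneousComponent_isWeightedHomogeneous (w := w) j q)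
  split_ifs with hk
  · rw [← hk]
    exact h.weightedHomogeneousComponent_same
  · exact h.weightedHomogeneousComponent_ne k (fun h' => hk h'.symm)

/-- lowest components multiply -/
theorem rc19_w_low (p q : MvPolynomial σ ℚ) (m n : ℕ)
    (hp : ∀ j < m, weightedHomogeneousComponent w j p = 0)
    (hq : ∀ j < n, weightedHomogeneousComponent w j q = 0) :
    (∀ k < m + n, weightedHomogeneousComponent w k (p * q) = 0) ∧
      weightedHomogeneousComponent w (m + n) (p * q) =
        weightedHomogeneousComponent w m p * weightedHomogeneousComponent w n q := by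
  obtain ⟨A, hA⟩ := rc19_w_bound w p
  obtain ⟨B, hB⟩ := rc19_w_bound w q
  have hA' : ∀ k, A + m + 1 ≤ k → weightedHomogeneousComponent w k p = 0 := fun k hk =>
    hA k (by omega)
  have hB' : ∀ k, B + n + 1 ≤ k → weightedHomogeneousComponent w k q = 0 := fun k hk =>
    hB k (by omega)
  constructor
  · intro k hk
    rw [rc19_w_mul w p q _ _ hA' hB']
    refine Finset.sum_eq_zero fun i _ => Finset.sum_eq_zero fun j _ => ?_
    split_ifs with h
    · rcases lt_or_ge i m with h1 | h1
      · rw [hp i h1, zero_mul]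
      · rw [hq j (by omega), mul_zero]
    · rfl
  · rw [rc19_w_mul w p q _ _ hA' hB', Finset.sum_eq_single m, Finset.sum_eq_single n, if_pos rfl]
    · intro j _ hj
      rw [if_neg (by omega)]
    · intro h
      exact absurd (Finset.mem_range.2 (by omega)) h
    · intro i _ hi
      refine Finset.sum_eq_zero fun j _ => ?_
      split_ifs with h
      · rcases lt_or_ge i m with h1 | h1
        · rw [hp i h1, zero_mul]
        · rw [hq j (by omega), mul_zero]
      · rfl
    · intro h
      exact absurd (Finset.mem_range.2 (by omega)) h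

end Weighted

end MP967.Rep
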