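import Pool.Agent.Lib.MP_967fd7_co.Rep.Basic
import Pool.Agent.Lib.MP_967fd7_co.Rep.LowA

/-! Spaces of lowest forms. The degree is the degree in the variables of the columns in `H`. -/

namespace MP967.Rep

open MvPolynomial

variable {N : ℕ} {C : Type}

open Classical in
/-- The degree in the columns `H`. -/
noncomputable def hdeg (H : Set C) (p : Fin N × C) : ℕ := if p.2 ∈ H then 1 else 0

/-- The component of degree `n` in the columns `H`. -/
noncomputable def hcomp (H : Set C) (n : ℕ) : Pol N C →ₗ[ℚ] Pol N C :=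
  weightedHomogeneousComponent (hdeg H) n

/-- The space of the lowest forms of the elements of `W`. -/
noncomputable def low (H : Set C) (W : Submodule ℚ (Pol N C)) : Submodule ℚ (Pol N C) :=
  Submodule.span ℚ {q | ∃ p ∈ W, ∃ n, (∀ j < n, hcomp H j p = 0) ∧ hcomp H n p = q}

theorem low_mono (H : Set C) {W W' : Submodule ℚ (Pol N C)} (h : W ≤ W') : low H W ≤ low H W' := by
  refine Submodule.span_mono ?_
  rintro q ⟨p, hp, hq⟩
  exact ⟨p, h hp, hq⟩

theorem low_mul_le (H : Set C) (W W' : Submodule ℚ (Pol N C)) :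
    low H W * low H W' ≤ low H (W * W') := by
  unfold low
  rw [Submodule.span_mul_span]
  refine Submodule.span_mono ?_
  rintro _ ⟨q, ⟨p, hp, m, hm, rfl⟩, q', ⟨p', hp', n, hn, rfl⟩, rfl⟩
  have h := rc19_w_low (hdeg H) p p' m n hm hn
  exact ⟨p * p', Submodule.mul_mem_mul hp hp', m + n, h.1, h.2⟩

theorem low_fg (H : Set C) {W : Submodule ℚ (Pol N C)} (hW : W.FG) : (low H W).FG := by
  obtain ⟨M, h1, _⟩ := rc19_low_eq (fun n => hcomp H n) (rc19_w_zero (hdeg H))
    (rc19_w_bound (hdeg H)) hW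
  have h2 : low H W = rc19S (fun n => hcomp H n) W M := h1
  rw [h2]
  exact rc19_S_fg _ W hW M

theorem finrank_low (H : Set C) {W : Submodule ℚ (Pol N C)} (hW : W.FG) :
    Module.finrank ℚ ↥(low H W) = Module.finrank ℚ ↥W := by
  obtain ⟨M, h1, h3⟩ := rc19_low_eq (fun n => hcomp H n) (rc19_w_zero (hdeg H))
    (rc19_w_bound (hdeg H)) hW
  have h2 : low H W = rc19S (fun n => hcomp H n) W M := h1
  have hfd : FiniteDimensional ℚ W := (Submodule.fg_iff_finiteDimensional _).1 hW
  have h4 := rc19_finrank (fun n => hcomp H n) (rc19_w_same (hdeg H))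
    (rc19_w_ne (hdeg H)) W M
  rw [h3, finrank_bot, add_zero, ← h2] at h4
  exact h4

theorem rc20_comm (H : Set C) (n : ℕ) (β : Fin N →₀ ℕ) (p : Pol N C) :
    comp β (hcomp H n p) = hcomp H n (comp β p) := by
  classical
  ext m
  unfold comp hcomp
  rw [coeff_weightedHomogeneousComponent, coeff_weightedHomogeneousComponent,
    coeff_weightedHomogeneousComponent, coeff_weightedHomogeneousComponent]
  split_ifs <;> rfl

/-- The component of a lowest form is a lowest form of the component. -/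
theorem rc20_low (H : Set C) {W : Submodule ℚ (Pol N C)} (hh : ∀ p ∈ W, ∀ β, comp β p ∈ W)
    (β : Fin N →₀ ℕ) {q : Pol N C} (hq : q ∈ low H W) : comp β q ∈ low H (W ⊓ wtSpace C β) := by
  unfold low at hq
  induction hq using Submodule.span_induction with
  | mem x hx =>
    obtain ⟨p, hp, n, h1, rfl⟩ := hx
    refine Submodule.subset_span ⟨comp β p, ⟨hh p hp β, comp_mem β p⟩, n, fun j hj => ?_, ?_⟩
    · rw [← rc20_comm, h1 j hj, map_zero]
    · rw [rc20_comm]
  | zero =>
    rw [map_zero]
    exact Submodule.zero_mem _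
  | add x y _ _ hx hy =>
    rw [map_add]
    exact Submodule.add_mem _ hx hy
  | smul a x _ hx =>
    rw [map_smul]
    exact Submodule.smul_mem _ a hx

theorem low_hom (H : Set C) {W : Submodule ℚ (Pol N C)} (hh : ∀ p ∈ W, ∀ β, comp β p ∈ W) :
    ∀ p ∈ low H W, ∀ β, comp β p ∈ low H W := by
  intro p hp β
  exact low_mono H inf_le_left (rc20_low H hh β hp)

theorem mult_low (H : Set C) {W : Submodule ℚ (Pol N C)} (hW : W.FG)
    (hh : ∀ p ∈ W, ∀ β, comp β p ∈ W) (β : Fin N →₀ ℕ) : mult (low H W) β = mult W β := by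
  have h1 : low H W ⊓ wtSpace C β = low H (W ⊓ wtSpace C β) := by
    apply le_antisymm
    · rintro q ⟨hq, hq'⟩
      rw [← comp_of_mem hq']
      exact rc20_low H hh β hq
    · refine le_inf (low_mono H inf_le_left) ?_
      unfold low
      refine Submodule.span_le.2 ?_
      rintro _ ⟨p, ⟨-, hp⟩, n, -, rfl⟩
      rw [SetLike.mem_coe, ← comp_of_mem hp, ← rc20_comm]
      exact comp_mem β _
  have hf : FiniteDimensional ℚ ↥W := Module.Finite.iff_fg.2 hW
  have hfg : (W ⊓ wtSpace C β).FG :=
    Module.Finite.iff_fg.1 (Submodule.finiteDimensional_of_le (inf_le_left : W ⊓ wtSpace C β ≤ W))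
  unfold mult
  rw [h1, finrank_low H hfg]

/-- If a subspace has the full dimension then it has the same character. -/
theorem ch_eq_of_finrank {P W : Submodule ℚ (Pol N C)} (hW : W.FG) (H : Set C)
    (hh : ∀ p ∈ W, ∀ β, comp β p ∈ W) (h : P ≤ low H W)
    (hd : Module.finrank ℚ ↥W ≤ Module.finrank ℚ ↥P) : ch P = ch W := by
  have hf : FiniteDimensional ℚ ↥(low H W) := Module.Finite.iff_fg.2 (low_fg H hW)
  have h1 : P = low H W := by
    refine Submodule.eq_of_le_of_finrank_le h ?_
    rw [finrank_low H hW]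
    exact hd
  rw [h1]
  unfold ch
  simp only [mult_low H hW hh]

/-- Algebra homomorphisms acting on the columns only: `x_{r,c} ↦ ∑ (entries of the row r)`. -/
theorem mult_map {W : Submodule ℚ (Pol N C)} (t : Pol N C ≃ₐ[ℚ] Pol N C)
    (ht : ∀ β p, p ∈ wtSpace C β → t p ∈ wtSpace C β) (hW : W.FG)
    (hh : ∀ p ∈ W, ∀ β, comp β p ∈ W) (β : Fin N →₀ ℕ) :
    mult (W.map t.toLinearMap) β = mult W β := by
  have hc : ∀ p : Pol N C, comp β (t p) = t (comp β p) := by
    intro p
    induction p using MvPolynomial.induction_on' with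
    | monomial m a =>
      have hm : (monomial m a : Pol N C) ∈ wtSpace C (Finsupp.weight rowWt m) :=
        isWeightedHomogeneous_monomial rowWt m a rfl
      by_cases hβ : Finsupp.weight rowWt m = β
      · rw [hβ] at hm
        rw [comp_of_mem hm, comp_of_mem (ht β _ hm)]
      · rw [comp_of_mem_ne hm hβ, comp_of_mem_ne (ht _ _ hm) hβ, map_zero]
    | add p q hp hq => rw [map_add, map_add, map_add, map_add, hp, hq]
  have h1 : W.map t.toLinearMap ⊓ wtSpace C β = (W ⊓ wtSpace C β).map t.toLinearMap := by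
    apply le_antisymm
    · rintro _ ⟨⟨w, hw, rfl⟩, hw'⟩
      have h2 : comp β (t w) = t w := comp_of_mem hw'
      rw [hc] at h2
      have h3 : comp β w = w := t.injective h2
      refine ⟨w, ⟨hw, ?_⟩, rfl⟩
      rw [← h3]
      exact comp_mem β w
    · rintro _ ⟨w, ⟨hw, hw'⟩, rfl⟩
      exact ⟨⟨w, hw, rfl⟩, ht β w hw'⟩
  unfold mult
  rw [h1]
  exact LinearEquiv.finrank_map_eq t.toLinearEquiv _

end MP967.Rep
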