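import Pool.Agent.Lib.MP_967fd7_co.Rep.Defs

/-! Basic facts: the operators `E a b`, commutators, weights. -/

namespace MP967.Rep

open MvPolynomial

variable {N : ℕ} {C : Type}

theorem E_X (a b r : Fin N) (c : C) :
    E a b (X (r, c) : Pol N C) = if r = b then X (a, c) else 0 := by
  unfold E
  rw [mkDerivation_X]

/-- The commutation relations of matrix units. -/
theorem E_comm (a b c d : Fin N) (p : Pol N C) :
    E a b (E c d p) - E c d (E a b p) =
      (if b = c then E a d p else 0) - (if d = a then E c b p else 0) := by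
  have h : ⁅(E a b : Derivation ℚ (Pol N C) (Pol N C)), (E c d : Derivation ℚ (Pol N C) (Pol N C))⁆
      = (if b = c then E a d else 0) - (if d = a then E c b else 0) := by
    apply MvPolynomial.derivation_ext
    rintro ⟨r, k⟩
    rw [Derivation.commutator_apply]
    have e1 : (if b = c then (E a d : Derivation ℚ (Pol N C) (Pol N C)) else 0) (X (r, k)) =
      if b = c then (if r = d then X (a, k) else 0) else 0 := by split_ifs <;> simp_all [E_X]
    have e2 : (if d = a then (E c b : Derivation ℚ (Pol N C) (Pol N C)) else 0) (X (r, k)) =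
      if d = a then (if r = b then X (c, k) else 0) else 0 := by split_ifs <;> simp_all [E_X]
    have e3 : E a b (if r = d then (X (c, k) : Pol N C) else 0) = if r = d then
      (if c = b then X (a, k) else 0) else 0 := by split_ifs <;> simp_all [E_X]
    have e4 : E c d (if r = b then (X (a, k) : Pol N C) else 0) = if r = b then
      (if a = d then X (c, k) else 0) else 0 := by split_ifs <;> simp_all [E_X]
    rw [Derivation.sub_apply, e1, e2, E_X, E_X, e3, e4]
    by_cases h1 : b = c
    · subst h1
      by_cases h2 : d = a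
      · subst h2; simp
      · have : a ≠ d := fun h => h2 h.symm
        simp [h2, this]
    · have h1' : c ≠ b := fun h => h1 h.symm
      by_cases h2 : d = a
      · subst h2; simp [h1, h1']
      · have : a ≠ d := fun h => h2 h.symm
        simp [h2, this, h1, h1']
  have h2 := congrArg (fun D : Derivation ℚ (Pol N C) (Pol N C) => D p) h
  simp only [Derivation.commutator_apply, Derivation.sub_apply] at h2
  rw [h2]
  split_ifs <;> simp

theorem weight_apply (m : Fin N × C →₀ ℕ) (a : Fin N) :
    (Finsupp.weight rowWt m : Fin N →₀ ℕ) a = m.sum (fun p k => if p.1 = a then k else 0) := by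
  classical
  rw [Finsupp.weight_apply, Finsupp.sum, Finsupp.finsetSum_apply, Finsupp.sum]
  apply Finset.sum_congr rfl
  intro p _
  simp [rowWt, Finsupp.single_apply]
theorem mem_wtSpace {β : Fin N →₀ ℕ} {p : Pol N C} :
    p ∈ wtSpace C β ↔ ∀ m, coeff m p ≠ 0 → Finsupp.weight rowWt m = β := by
  exact ⟨fun h m hm => h hm, fun h m hm => h m hm⟩

/-- `E a b` on a monomial. -/
theorem E_monomial (a b : Fin N) (m : Fin N × C →₀ ℕ) (r : ℚ) :
    E a b (monomial m r) = m.sum (fun p k => if p.1 = b then
      monomial (m - Finsupp.single p 1 + Finsupp.single (a, p.2) 1) (r * k) else 0) := by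
  unfold E
  rw [mkDerivation_monomial, Finsupp.smul_sum]
  apply Finset.sum_congr rfl
  intro p _
  by_cases h : p.1 = b
  · simp only [h, if_true, smul_eq_mul, X, monomial_mul, mul_one, smul_monomial]
  · simp only [h, if_false, smul_zero]

private theorem rc1_span (β : Fin N →₀ ℕ) (P : Pol N C → Prop)
    (h0 : P 0) (hadd : ∀ p q, P p → P q → P (p + q))
    (hm : ∀ m r, r ≠ 0 → Finsupp.weight rowWt m = β → P (monomial m r)) {p : Pol N C}
    (hp : p ∈ wtSpace C β) : P p := by
  classical
  rw [p.as_sum]
  apply Finset.sum_induction _ P hadd h0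
  intro m hm'
  exact hm m _ (MvPolynomial.mem_support_iff.1 hm') (mem_wtSpace.1 hp m (MvPolynomial.mem_support_iff.1 hm'))

/-- `E a b` changes the weight by `e_a - e_b`. -/
theorem E_mem {a b : Fin N} {β γ : Fin N →₀ ℕ}
    (h : β + Finsupp.single a 1 = γ + Finsupp.single b 1) {p : Pol N C} (hp : p ∈ wtSpace C β) :
    E a b p ∈ wtSpace C γ := by
  classical
  revert hp
  intro hp
  refine rc1_span β (fun q => E a b q ∈ wtSpace C γ) ?_ ?_ ?_ hp
  · rw [map_zero]; exact Submodule.zero_mem _
  · intro p q hp hq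
    rw [map_add]
    exact Submodule.add_mem _ hp hq
  · intro m r _ hm
    show E a b (monomial m r) ∈ wtSpace C γ
    rw [E_monomial]
    apply Submodule.sum_mem
    intro p hp
    show (if p.1 = b then _ else _) ∈ wtSpace C γ
    split_ifs with hb
    · unfold wtSpace
      rw [mem_weightedHomogeneousSubmodule]
      apply isWeightedHomogeneous_monomial
      have hle : Finsupp.single p 1 ≤ m := by
        rw [Finsupp.single_le_iff]
        exact Nat.one_le_iff_ne_zero.2 (Finsupp.mem_support_iff.1 hp)
      have h1 : Finsupp.weight rowWt (m - Finsupp.single p 1) + Finsupp.single b 1 = β := by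
        have h2 : Finsupp.weight rowWt (m - Finsupp.single p 1 + Finsupp.single p 1) = β := by
          rw [tsub_add_cancel_of_le hle]; exact hm
        rw [map_add, Finsupp.weight_single] at h2
        rw [← h2, ← hb]
        simp [rowWt]
      rw [map_add, Finsupp.weight_single]
      have h3 : (1 : ℕ) • rowWt (a, p.2) = (Finsupp.single a 1 : Fin N →₀ ℕ) := by simp [rowWt]
      rw [h3]
      apply add_right_cancel (b := Finsupp.single b 1)
      rw [add_right_comm, h1, h]
    · exact Submodule.zero_mem _

theorem E_zero {a b : Fin N} {β : Fin N →₀ ℕ} (h : β b = 0) {p : Pol N C}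
    (hp : p ∈ wtSpace C β) : E a b p = 0 := by
  classical
  refine rc1_span β (fun q => E a b q = 0) ?_ ?_ ?_ hp
  · rw [map_zero]
  · intro p q hp hq
    rw [map_add, hp, hq, add_zero]
  · intro m r _ hm
    show E a b (monomial m r) = 0
    rw [E_monomial]
    apply Finset.sum_eq_zero
    intro p hp
    show (if p.1 = b then _ else _) = _
    rw [if_neg]
    intro hb
    have h1 : (Finsupp.weight rowWt m : Fin N →₀ ℕ) b = 0 := by rw [hm]; exact h
    rw [weight_apply, Finsupp.sum, Finset.sum_eq_zero_iff] at h1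
    have h2 := h1 p hp
    rw [if_pos hb] at h2
    exact Finsupp.mem_support_iff.1 hp h2

theorem E_diag (a : Fin N) {β : Fin N →₀ ℕ} {p : Pol N C} (hp : p ∈ wtSpace C β) :
    E a a p = (β a : ℚ) • p := by
  classical
  refine rc1_span β (fun q => E a a q = (β a : ℚ) • q) ?_ ?_ ?_ hp
  · rw [map_zero, smul_zero]
  · intro p q hp hq
    rw [map_add, hp, hq, smul_add]
  · intro m r _ hm
    show E a a (monomial m r) = (β a : ℚ) • monomial m r
    rw [E_monomial]
    have h1 : ∀ p ∈ m.support, (if p.1 = a then
        monomial (m - Finsupp.single p 1 + Finsupp.single (a, p.2) 1) (r * (m p : ℚ)) else 0) =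
        (((if p.1 = a then m p else 0 : ℕ) : ℚ)) • (monomial m r : Pol N C) := by
      intro p hp
      by_cases hb : p.1 = a
      · have hle : Finsupp.single p 1 ≤ m := by
          rw [Finsupp.single_le_iff]
          exact Nat.one_le_iff_ne_zero.2 (Finsupp.mem_support_iff.1 hp)
        have hpa : (a, p.2) = p := by rw [← hb]
        rw [if_pos hb, if_pos hb, hpa, tsub_add_cancel_of_le hle, smul_monomial, smul_eq_mul,
          mul_comm]
      · rw [if_neg hb, if_neg hb, Nat.cast_zero, zero_smul]
    rw [Finsupp.sum, Finset.sum_congr rfl h1, ← Finset.sum_smul, ← Nat.cast_sum, ← hm,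
      weight_apply, Finsupp.sum]

theorem comp_mem (β : Fin N →₀ ℕ) (p : Pol N C) : comp β p ∈ wtSpace C β :=
  weightedHomogeneousComponent_mem _ _ _

theorem comp_of_mem {β : Fin N →₀ ℕ} {p : Pol N C} (hp : p ∈ wtSpace C β) : comp β p = p := by
  classical
  have h1 := weightedHomogeneousComponent_of_mem (m := β) hp
  rwa [if_pos rfl] at h1

theorem comp_of_mem_ne {β γ : Fin N →₀ ℕ} {p : Pol N C} (hp : p ∈ wtSpace C β) (h : β ≠ γ) :
    comp γ p = 0 := by
  classical
  have h1 := weightedHomogeneousComponent_of_mem (m := γ) hp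
  rwa [if_neg (Ne.symm h)] at h1

private theorem rc2_coeff (β : Fin N →₀ ℕ) (p : Pol N C) (m : Fin N × C →₀ ℕ)
    (h : Finsupp.weight rowWt m = β) : coeff m (comp β p) = coeff m p := by
  classical
  have h1 := coeff_weightedHomogeneousComponent (R := ℚ) (w := (rowWt : Fin N × C → Fin N →₀ ℕ))
    β p m
  rwa [if_pos h] at h1

theorem exists_comp_ne {p : Pol N C} (hp : p ≠ 0) : ∃ β, comp β p ≠ 0 := by
  obtain ⟨m, hm⟩ := MvPolynomial.ne_zero_iff.1 hp
  refine ⟨Finsupp.weight rowWt m, fun h => hm ?_⟩
  rw [← rc2_coeff _ p m rfl, h, coeff_zero]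

/-- Every polynomial is a sum of weight vectors. -/
theorem mem_of_comp {W : Submodule ℚ (Pol N C)} {p : Pol N C} (h : ∀ β, comp β p ∈ W) : p ∈ W := by
  have h1 := weightedHomogeneousComponent_finsupp (w := (rowWt : Fin N × C → Fin N →₀ ℕ)) p
  have h2 := sum_weightedHomogeneousComponent (w := (rowWt : Fin N × C → Fin N →₀ ℕ)) p
  rw [finsum_eq_sum _ h1] at h2
  rw [← h2]
  exact Submodule.sum_mem _ fun β _ => h β

/-- A submodule spanned by weight vectors contains all components of its elements. -/
theorem hom_of_span {s : Set (Pol N C)} (h : ∀ p ∈ s, ∃ β, p ∈ wtSpace C β) {p : Pol N C}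
    (hp : p ∈ Submodule.span ℚ s) (β : Fin N →₀ ℕ) : comp β p ∈ Submodule.span ℚ s := by
  induction hp using Submodule.span_induction with
  | mem x hx =>
    obtain ⟨γ, hγ⟩ := h x hx
    by_cases hγβ : γ = β
    · subst hγβ
      rw [comp_of_mem hγ]
      exact Submodule.subset_span hx
    · rw [comp_of_mem_ne hγ hγβ]
      exact Submodule.zero_mem _
  | zero =>
    rw [map_zero]
    exact Submodule.zero_mem _
  | add x y _ _ hx hy =>
    rw [map_add]
    exact Submodule.add_mem _ hx hy
  | smul a x _ hx =>
    rw [map_smul]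
    exact Submodule.smul_mem _ _ hx

private theorem rc2_fin {W : Submodule ℚ (Pol N C)} (hW : W.FG) (β : Fin N →₀ ℕ) :
    Module.Finite ℚ ↥(W ⊓ wtSpace C β) := by
  have h1 : Module.Finite ℚ W := Module.Finite.iff_fg.2 hW
  exact Submodule.finiteDimensional_of_le inf_le_left

theorem mult_eq_zero_iff {W : Submodule ℚ (Pol N C)} (hW : W.FG) {β : Fin N →₀ ℕ} :
    mult W β = 0 ↔ ∀ p ∈ W, p ∈ wtSpace C β → p = 0 := by
  have h1 := rc2_fin hW β
  unfold mult
  rw [Submodule.finrank_eq_zero, Submodule.eq_bot_iff]
  exact ⟨fun h p hp hp' => h p (Submodule.mem_inf.2 ⟨hp, hp'⟩), fun h p hp =>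
    h p (Submodule.mem_inf.1 hp).1 (Submodule.mem_inf.1 hp).2⟩

/-- A finite dimensional space has finitely many weights. -/
theorem finite_mult {W : Submodule ℚ (Pol N C)} (hW : W.FG) : {β | mult W β ≠ 0}.Finite := by
  classical
  obtain ⟨s, hs⟩ := hW
  have hsupp : ∀ p ∈ W, ∀ m, coeff m p ≠ 0 → m ∈ s.biUnion fun q => q.support := by
    intro p hp
    rw [← hs] at hp
    induction hp using Submodule.span_induction with
    | mem x hx =>
      intro m hm
      exact Finset.mem_biUnion.2 ⟨x, hx, MvPolynomial.mem_support_iff.2 hm⟩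
    | zero =>
      intro m hm
      exact absurd (coeff_zero m) hm
    | add x y _ _ hx hy =>
      intro m hm
      rw [coeff_add] at hm
      by_cases h1 : coeff m x = 0
      · rw [h1, zero_add] at hm
        exact hy m hm
      · exact hx m h1
    | smul a x _ hx =>
      intro m hm
      rw [coeff_smul, smul_eq_mul] at hm
      exact hx m (right_ne_zero_of_mul hm)
  refine (((s.biUnion fun q => q.support).image
    (Finsupp.weight (rowWt : Fin N × C → Fin N →₀ ℕ))).finite_toSet).subset ?_
  intro β hβ
  have h1 : ¬ ∀ p ∈ W, p ∈ wtSpace C β → p = 0 := fun h => hβ ((mult_eq_zero_iff ⟨s, hs⟩).2 h)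
  push Not at h1
  obtain ⟨p, hp, hpβ, hp0⟩ := h1
  obtain ⟨m, hm⟩ := MvPolynomial.ne_zero_iff.1 hp0
  rw [Finset.coe_image]
  exact ⟨m, hsupp p hp m hm, mem_wtSpace.1 hpβ m hm⟩

theorem coeff_ch {W : Submodule ℚ (Pol N C)} (hW : W.FG) (β : Fin N →₀ ℕ) :
    coeff β (ch W) = (mult W β : ℤ) := by
  classical
  have hfin := finite_mult hW
  have h1 : (Function.support fun γ : Fin N →₀ ℕ => monomial γ (mult W γ : ℤ)) ⊆
      (insert β hfin.toFinset : Finset (Fin N →₀ ℕ)) := by
    intro γ hγ
    rw [Finset.coe_insert]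
    right
    rw [Set.Finite.coe_toFinset]
    intro h2
    apply hγ
    show monomial γ (mult W γ : ℤ) = 0
    rw [h2, Nat.cast_zero, monomial_zero]
  unfold ch
  rw [finsum_eq_sum_of_support_subset _ h1, coeff_sum, Finset.sum_eq_single β]
  · rw [coeff_monomial, if_pos rfl]
  · intro γ _ hγ
    rw [coeff_monomial, if_neg hγ]
  · intro h2
    exact absurd (Finset.mem_insert_self _ _) h2

end MP967.Rep
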