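import Pool.Agent.Lib.MP_967fd7_co.Rep.Key
import Pool.Agent.Lib.MP_967fd7_co.Bridge
import Pool.Agent.Lib.MP_967fd7_co.SeriesMul

/-! Characters of stable spaces are sums of Schur polynomials. -/

namespace MP967.Rep

open MvPolynomial

variable {N : ℕ} {C : Type}

private theorem rc15_bot : ch (⊥ : Submodule ℚ (Pol N C)) = 0 := by
  have h : ∀ β : Fin N →₀ ℕ, monomial β ((mult (⊥ : Submodule ℚ (Pol N C)) β : ℕ) : ℤ) = 0 := by
    intro β
    have h1 : mult (⊥ : Submodule ℚ (Pol N C)) β = 0 := by
      unfold mult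
      rw [bot_inf_eq]
      exact finrank_bot ℚ (Pol N C)
    rw [h1]
    simp
  unfold ch
  rw [finsum_congr h, finsum_zero]

private theorem rc15_aux [Finite C] (n : ℕ) : ∀ {W : Submodule ℚ (Pol N C)}, Stable W →
    Module.finrank ℚ W = n →
    ∃ s : Multiset (ℕ → ℕ), (∀ A ∈ s, IsPart N A) ∧ ch W = (s.map (S N)).sum := by
  induction n using Nat.strong_induction_on with
  | _ n ih =>
    intro W hW hn
    by_cases hbot : W = ⊥
    · refine ⟨0, fun A hA => absurd hA (Multiset.notMem_zero A), ?_⟩
      rw [hbot, rc15_bot, Multiset.map_zero, Multiset.sum_zero]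
    · obtain ⟨f, hfW, lam, hf⟩ := exists_hw hW hbot
      have hc : Stable (cyc f) := cyc_stable hf
      have hle : cyc f ≤ W := cyc_le hW hfW
      have hst : Stable (W ⊓ orth (cyc f)) := hc.inf_orth hW
      have hlt : W ⊓ orth (cyc f) < W := by
        refine lt_of_le_of_ne inf_le_left ?_
        intro h
        have h1 : f ∈ W ⊓ orth (cyc f) := by
          rw [h]
          exact hfW
        have h2 := mem_orth.1 h1.2 f (mem_cyc f)
        exact (fis_pos hf.ne).ne' h2
      have hfin : Module.Finite ℚ W := Module.Finite.iff_fg.2 hW.fin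
      have hrk : Module.finrank ℚ ↥(W ⊓ orth (cyc f)) < n := by
        rw [← hn]
        exact Submodule.finrank_lt_finrank_of_lt hlt
      obtain ⟨s, hs, hs'⟩ := ih _ hrk hst rfl
      refine ⟨ext lam ::ₘ s, ?_, ?_⟩
      · intro A hA
        rcases Multiset.mem_cons.1 hA with h | h
        · rw [h]
          exact ext_isPart hf
        · exact hs A h
      · rw [Multiset.map_cons, Multiset.sum_cons, ← hs', ← ch_cyc hf]
        exact ch_add_orth hc hW hle

theorem ch_eq_sum [Finite C] {W : Submodule ℚ (Pol N C)} (hW : Stable W) :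
    ∃ s : Multiset (ℕ → ℕ), (∀ A ∈ s, IsPart N A) ∧ ch W = (s.map (S N)).sum :=
  rc15_aux _ hW rfl

theorem ch_sub [Finite C] {W W' : Submodule ℚ (Pol N C)} (hW : Stable W) (hW' : Stable W')
    (h : W ≤ W') :
    ∃ s : Multiset (ℕ → ℕ), (∀ A ∈ s, IsPart N A) ∧ ch W' = ch W + (s.map (S N)).sum := by
  obtain ⟨s, hs, hs'⟩ := ch_eq_sum (hW.inf_orth hW')
  refine ⟨s, hs, ?_⟩
  rw [← hs']
  exact ch_add_orth hW hW' h

/-- The exponent of the leading monomial. -/
private noncomputable def rc16_exp (N : ℕ) (A : ℕ → ℕ) : Fin N →₀ ℕ :=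
  Finsupp.equivFunOnFinite.symm (fun i : Fin N => A i + δ N i)

private theorem rc16_anti {A : ℕ → ℕ} (hA : IsPart N A) {i j : Fin N} (h : i < j) :
    A j + δ N j < A i + δ N i := by
  have h1 : A j ≤ A i := hA.1 (le_of_lt (show (i : ℕ) < j from h))
  have h2 : (i : ℕ) < j := h
  have h3 := j.2
  unfold δ
  omega

private theorem rc16_coef {A B : ℕ → ℕ} (hA : IsPart N A) (hB : IsPart N B) [Decidable (A = B)] :
    MvPolynomial.coeff (rc16_exp N A) (alt N (fun i => B i + δ N i)) = if A = B then 1 else 0 := by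
  have key : ∀ σ : Equiv.Perm (Fin N),
      (Finsupp.equivFunOnFinite.symm (fun i : Fin N => B (σ.symm i) + δ N (σ.symm i)) :
        Fin N →₀ ℕ) = rc16_exp N A → σ = 1 ∧ A = B := by
    intro σ h
    have h1 : ∀ i : Fin N, B (σ.symm i) + δ N (σ.symm i) = A i + δ N i := fun i =>
      congrFun (Finsupp.equivFunOnFinite.symm.injective h) i
    have h2 : StrictMono σ.symm := by
      intro i j hij
      by_contra hcon
      rcases lt_or_eq_of_le (not_lt.1 hcon) with h3 | h3
      · have h4 := rc16_anti hB h3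
        rw [h1 i, h1 j] at h4
        exact absurd (rc16_anti hA hij) (not_lt.2 h4.le)
      · exact absurd (σ.symm.injective h3) hij.ne'
    have h3 : ∀ i, σ.symm i = i := by
      have h4 : (h2.orderIsoOfSurjective _ σ.symm.surjective : Fin N ≃o Fin N) =
          OrderIso.refl (Fin N) := Subsingleton.elim _ _
      intro i
      have h5 := congrArg (fun e : Fin N ≃o Fin N => e i) h4
      exact h5
    refine ⟨?_, ?_⟩
    · ext i
      have h4 := h3 (σ i)
      rw [Equiv.symm_apply_apply] at h4
      rw [← h4]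
      rfl
    · funext r
      by_cases hr : r < N
      · have h4 := h1 ⟨r, hr⟩
        rw [h3] at h4
        exact (Nat.add_right_cancel h4).symm
      · rw [hA.2 r (not_lt.1 hr), hB.2 r (not_lt.1 hr)]
  classical
  unfold alt
  rw [MvPolynomial.coeff_sum]
  by_cases hAB : A = B
  · rw [if_pos hAB, Finset.sum_eq_single (1 : Equiv.Perm (Fin N))]
    · rw [T3_rename_mon, MvPolynomial.coeff_smul, MvPolynomial.coeff_monomial, if_pos]
      · simp
      · rw [hAB]
        rfl
    · intro σ _ hσ
      rw [T3_rename_mon, MvPolynomial.coeff_smul, MvPolynomial.coeff_monomial, if_neg, smul_zero]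
      intro he
      exact hσ (key σ he).1
    · intro h
      exact absurd (Finset.mem_univ _) h
  · rw [if_neg hAB]
    refine Finset.sum_eq_zero fun σ _ => ?_
    rw [T3_rename_mon, MvPolynomial.coeff_smul, MvPolynomial.coeff_monomial, if_neg, smul_zero]
    intro he
    exact hAB (key σ he).2

private theorem rc16_count {s : Multiset (ℕ → ℕ)} (hs : ∀ A ∈ s, IsPart N A) {A : ℕ → ℕ}
    (hA : IsPart N A) [DecidableEq (ℕ → ℕ)] :
    MvPolynomial.coeff (rc16_exp N A) (alt N (δ N) * (s.map (S N)).sum) = (s.count A : ℤ) := by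
  induction s using Multiset.induction_on with
  | empty =>
    rw [Multiset.map_zero, Multiset.sum_zero, mul_zero, Multiset.count_zero,
      MvPolynomial.coeff_zero]
    rfl
  | cons B s ih =>
    have hB : IsPart N B := hs B (Multiset.mem_cons_self B s)
    rw [Multiset.map_cons, Multiset.sum_cons, mul_add, MvPolynomial.coeff_add,
      ih fun A hA => hs A (Multiset.mem_cons_of_mem hA), alt_delta_mul_S hB.1 hB.2,
      rc16_coef hA hB, Multiset.count_cons]
    split_ifs
    · push_cast
      ring
    · push_cast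
      ring

/-- Schur polynomials are linearly independent. -/
theorem S_indep {s t : Multiset (ℕ → ℕ)} (hs : ∀ A ∈ s, IsPart N A) (ht : ∀ A ∈ t, IsPart N A)
    (h : (s.map (S N)).sum = (t.map (S N)).sum) : s = t := by
  classical
  ext A
  by_cases hA : IsPart N A
  · have h1 := rc16_count hs hA
    have h2 := rc16_count ht hA
    rw [h, h2] at h1
    exact_mod_cast h1.symm
  · rw [Multiset.count_eq_zero_of_notMem fun h1 => hA (hs A h1),
      Multiset.count_eq_zero_of_notMem fun h1 => hA (ht A h1)]

private theorem rc16_pos {s : Multiset (ℕ → ℕ)} (hs : ∀ A ∈ s, IsPart N A) :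
    SchurPositive (s.map schurF).sum := by
  induction s using Multiset.induction_on with
  | empty =>
    refine ⟨0, fun _ => le_rfl, ?_⟩
    rw [Multiset.map_zero, Multiset.sum_zero, Finsupp.sum_zero_index]
  | cons B s ih =>
    obtain ⟨a, ha, ha'⟩ := ih fun A hA => hs A (Multiset.mem_cons_of_mem hA)
    have hB : IsPart N B := hs B (Multiset.mem_cons_self B s)
    obtain ⟨b, hb, hb'⟩ := schurPositive_sum ({()} : Finset Unit) (fun _ => B)
      (fun _ _ => hB.1) (fun _ _ => ⟨N, hB.2⟩)
    rw [Finset.sum_singleton] at hb'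
    refine ⟨b + a, fun μ => ?_, ?_⟩
    · rw [Finsupp.add_apply]
      exact add_nonneg (hb μ) (ha μ)
    · rw [Multiset.map_cons, Multiset.sum_cons, ha', hb']
      exact (Finsupp.sum_add_index' (h := fun (μ : YoungDiagram) (q : ℚ) => q • schur μ)
        (fun _ => zero_smul ℚ _) (fun _ _ _ => add_smul _ _ _)).symm

open Classical in
/-- The multiset of the shapes in the product of two Schur polynomials. -/
private noncomputable def rc16_ms (N : ℕ) (A B : ℕ → ℕ) : Multiset (ℕ → ℕ) :=
  ((gt N A).filter (fun c => Good B c)).val.map (fun c => fun i => B i + wt c i)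

private theorem rc16_ms_part {A B : ℕ → ℕ} (hB : IsPart N B) :
    ∀ D ∈ rc16_ms N A B, IsPart N D := by
  classical
  intro D hD
  unfold rc16_ms at hD
  obtain ⟨c, hc, rfl⟩ := Multiset.mem_map.1 hD
  have hc' : c ∈ (gt N A).filter (fun c => Good B c) := hc
  rw [Finset.mem_filter, mem_gt] at hc'
  exact ⟨add_wt_anti hc'.1 hc'.2, add_wt_zero hc'.1 hB.2⟩

private theorem rc16_ms_S {A B : ℕ → ℕ} (hB : IsPart N B) :
    S N A * S N B = ((rc16_ms N A B).map (S N)).sum := by
  classical
  rw [S_mul hB.1 hB.2]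
  unfold rc16_ms
  rw [Multiset.map_map]
  rfl

private theorem rc16_ms_F {L M : ℕ} {A B : ℕ → ℕ} (hA : IsPart L A) (hB : IsPart M B)
    (hN : L + M ≤ N) : schurF A * schurF B = ((rc16_ms N A B).map schurF).sum := by
  classical
  rw [schurF_mul hA.2 hB.1 hB.2]
  unfold rc16_ms
  rw [Multiset.map_map, T12_good_eq hA.2 hB.2 hN]
  rfl

/-- From `N` variables to symmetric functions: it is enough to compare the Schur polynomials in
`N` variables if the shapes `A, B` and `A', B'` have together at most `N` parts. -/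
theorem schurPositive_of_poly {L M : ℕ} {A B A' B' : ℕ → ℕ} (hA : IsPart L A) (hB : IsPart M B)
    (hA' : IsPart L A') (hB' : IsPart M B') (hN : L + M ≤ N) (s : Multiset (ℕ → ℕ))
    (hs : ∀ D ∈ s, IsPart N D)
    (h : S N A' * S N B' = S N A * S N B + (s.map (S N)).sum) :
    SchurPositive (schurF A' * schurF B' - schurF A * schurF B) := by
  have hB1 : IsPart N B := ⟨hB.1, fun r hr => hB.2 r (by omega)⟩
  have hB1' : IsPart N B' := ⟨hB'.1, fun r hr => hB'.2 r (by omega)⟩
  have h1 : rc16_ms N A' B' = rc16_ms N A B + s := by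
    refine S_indep (rc16_ms_part hB1') ?_ ?_
    · intro D hD
      rcases Multiset.mem_add.1 hD with h2 | h2
      · exact rc16_ms_part hB1 D h2
      · exact hs D h2
    · rw [← rc16_ms_S hB1', h, rc16_ms_S hB1, Multiset.map_add, Multiset.sum_add]
  rw [rc16_ms_F hA' hB' hN, rc16_ms_F hA hB hN, h1, Multiset.map_add, Multiset.sum_add,
    add_sub_cancel_left]
  exact rc16_pos hs

end MP967.Rep
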