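import Pool.Agent.Lib.MP_967fd7_co.Zero

/-!
Representation layer: spaces of polynomials in the entries of a matrix with rows `Fin N` and
columns `C`, with the action of the derivations `E a b` (replace the row `b` by the row `a`).
-/

namespace MP967.Rep

open MvPolynomial

/-- Polynomials in the entries of a matrix with rows `Fin N` and columns `C`. -/
abbrev Pol (N : ℕ) (C : Type) := MvPolynomial (Fin N × C) ℚ

variable {N : ℕ} {C : Type}

/-- The derivation with `x_{b,c} ↦ x_{a,c}` and all other variables `↦ 0`. -/
noncomputable def E (a b : Fin N) : Derivation ℚ (Pol N C) (Pol N C) :=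
  mkDerivation ℚ (fun p : Fin N × C => if p.1 = b then X (a, p.2) else 0)

/-- The weight of a variable: its row. -/
noncomputable def rowWt (p : Fin N × C) : Fin N →₀ ℕ := Finsupp.single p.1 1

/-- The weight space: polynomials all of whose monomials have `β a` factors from the row `a`. -/
noncomputable def wtSpace (C : Type) (β : Fin N →₀ ℕ) : Submodule ℚ (Pol N C) :=
  weightedHomogeneousSubmodule ℚ rowWt β

/-- The component of weight `β`. -/
noncomputable def comp (β : Fin N →₀ ℕ) : Pol N C →ₗ[ℚ] Pol N C :=
  weightedHomogeneousComponent rowWt β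

/-- Finite dimensional spaces of polynomials, spanned by weight vectors and closed under all
`E a b`. -/
structure Stable (W : Submodule ℚ (Pol N C)) : Prop where
  fin : W.FG
  hom : ∀ p ∈ W, ∀ β, comp β p ∈ W
  act : ∀ a b, ∀ p ∈ W, E a b p ∈ W

/-- The dimension of the weight space of weight `β` of `W`. -/
noncomputable def mult (W : Submodule ℚ (Pol N C)) (β : Fin N →₀ ℕ) : ℕ :=
  Module.finrank ℚ ↥(W ⊓ wtSpace C β)

/-- The character of `W`. -/
noncomputable def ch (W : Submodule ℚ (Pol N C)) : MvPolynomial (Fin N) ℤ :=
  ∑ᶠ β : Fin N →₀ ℕ, monomial β (mult W β : ℤ)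

/-- Highest weight vectors of weight `lam`. -/
structure IsHW (f : Pol N C) (lam : Fin N →₀ ℕ) : Prop where
  ne : f ≠ 0
  wt : f ∈ wtSpace C lam
  up : ∀ a b : Fin N, a < b → E a b f = 0

/-- The polynomials obtained from `f` by lowering operators. -/
inductive Word (f : Pol N C) : Pol N C → Prop
  | base : Word f f
  | step (a b : Fin N) (p : Pol N C) : a < b → Word f p → Word f (E b a p)

/-- The span of the words. -/
noncomputable def cyc (f : Pol N C) : Submodule ℚ (Pol N C) := Submodule.span ℚ {p | Word f p}

/-- Partial sums of `β` are at most those of `lam` (and equality for the total). -/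
def Dom (β lam : Fin N →₀ ℕ) : Prop :=
  (∀ k : ℕ, ∑ a with a.val < k, β a ≤ ∑ a with a.val < k, lam a) ∧ ∑ a, β a = ∑ a, lam a

end MP967.Rep
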