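import Pool.Agent.Lib.MP_967fd7_co.Alt

/-! The operators `x_a ∂/∂x_a` and the Vandermonde product. No representations here. -/

namespace MP967.Rep

open MvPolynomial

variable {N : ℕ}

/-- The derivation `x_a ∂/∂x_a`. -/
noncomputable def Dop (a : Fin N) : Derivation ℚ (MvPolynomial (Fin N) ℚ) (MvPolynomial (Fin N) ℚ) :=
  (X a : MvPolynomial (Fin N) ℚ) • pderiv a

theorem rc10_Dop_apply (a : Fin N) (F : MvPolynomial (Fin N) ℚ) :
    Dop a F = X a * pderiv a F := rfl

theorem rc10_Dop_monomial (a : Fin N) (s : Fin N →₀ ℕ) (c : ℚ) :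
    Dop a (monomial s c) = monomial s ((s a : ℚ) * c) := by
  rw [rc10_Dop_apply, pderiv_monomial, X, monomial_mul, one_mul]
  rcases Nat.eq_zero_or_pos (s a) with h | h
  · rw [h, Nat.cast_zero, mul_zero, zero_mul, monomial_zero, monomial_zero]
  · have h1 : Finsupp.single a 1 + (s - Finsupp.single a 1) = s := by
      rw [add_tsub_cancel_of_le]
      intro b
      by_cases hb : a = b
      · subst hb
        rw [Finsupp.single_eq_same]
        exact h
      · rw [Finsupp.single_apply, if_neg hb]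
        exact Nat.zero_le _
    rw [h1, mul_comm]

theorem coeff_Dop (a : Fin N) (β : Fin N →₀ ℕ) (F : MvPolynomial (Fin N) ℚ) :
    coeff β (Dop a F) = (β a : ℚ) * coeff β F := by
  induction F using MvPolynomial.induction_on' with
  | monomial s c =>
    rw [rc10_Dop_monomial, coeff_monomial, coeff_monomial]
    by_cases h : s = β
    · rw [if_pos h, if_pos h, h]
    · rw [if_neg h, if_neg h, mul_zero]
  | add p q hp hq => rw [map_add, coeff_add, coeff_add, hp, hq, mul_add]

/-- The pairs `a < b`. -/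
def prs (N : ℕ) : Finset (Fin N × Fin N) := Finset.univ.filter (fun p => p.1 < p.2)

/-- The Vandermonde product. -/
noncomputable def Van (N : ℕ) : MvPolynomial (Fin N) ℚ := ∏ p ∈ prs N, (X p.1 - X p.2)

/-- The Vandermonde product without one factor. -/
noncomputable def Vanp (p : Fin N × Fin N) : MvPolynomial (Fin N) ℚ :=
  ∏ q ∈ (prs N).erase p, (X q.1 - X q.2)

theorem Vanp_mul {p : Fin N × Fin N} (hp : p ∈ prs N) : (X p.1 - X p.2) * Vanp p = Van N :=
  Finset.mul_prod_erase _ _ hp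

theorem rc10_Van_det (N : ℕ) : Van N =
    (Matrix.projVandermonde (fun _ => (1 : MvPolynomial (Fin N) ℚ)) X).det := by
  rw [Matrix.det_projVandermonde, Van, prs, Finset.prod_filter, Fintype.prod_prod_type]
  refine Finset.prod_congr rfl fun i _ => ?_
  rw [← Finset.prod_filter, Finset.filter_lt_eq_Ioi]
  refine Finset.prod_congr rfl fun j _ => ?_
  rw [one_mul, one_mul]

theorem Van_eq (N : ℕ) : Van N = MvPolynomial.map (Int.castRingHom ℚ) (alt N (δ N)) := by
  rw [rc10_Van_det, Matrix.det_apply', alt, map_sum]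
  refine Finset.sum_congr rfl fun σ _ => ?_
  rw [zsmul_eq_mul, map_mul, map_intCast]
  congr 1
  have h1 : mon N (δ N) = ∏ i : Fin N, (X i : MvPolynomial (Fin N) ℤ) ^ (δ N i) := by
    rw [mon, monomial_eq, map_one, one_mul, Finsupp.prod_fintype]
    · rfl
    · intro i
      rw [pow_zero]
  rw [h1, map_prod, map_prod]
  refine Finset.prod_congr rfl fun i _ => ?_
  rw [map_pow, map_pow, rename_X, map_X, Matrix.projVandermonde_apply, one_pow, one_mul]
  congr 1
  rw [Fin.val_rev, δ]
  omega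

theorem rc10_prod {ι : Type*} [DecidableEq ι]
    (D : Derivation ℚ (MvPolynomial (Fin N) ℚ) (MvPolynomial (Fin N) ℚ)) (s : Finset ι)
    (f : ι → MvPolynomial (Fin N) ℚ) :
    D (∏ i ∈ s, f i) = ∑ i ∈ s, D (f i) * ∏ j ∈ s.erase i, f j := by
  induction s using Finset.induction_on with
  | empty => rw [Finset.prod_empty, Finset.sum_empty, Derivation.map_one_eq_zero]
  | insert i s hi ih =>
    rw [Finset.prod_insert hi, Derivation.leibniz, ih, Finset.sum_insert hi,
      Finset.erase_insert hi, smul_eq_mul, smul_eq_mul, Finset.mul_sum, add_comm,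
      mul_comm (∏ i ∈ s, f i)]
    congr 1
    refine Finset.sum_congr rfl fun j hj => ?_
    have hij : i ≠ j := fun h => hi (h ▸ hj)
    rw [Finset.erase_insert_of_ne hij, Finset.prod_insert (fun h => hi (Finset.mem_of_mem_erase h))]
    ring

theorem rc10_Dop_X (a i : Fin N) : Dop a (X i) = if i = a then X a else 0 := by
  rw [rc10_Dop_apply, pderiv_X, Pi.single_apply]
  by_cases h : i = a
  · rw [if_pos h, if_pos h, mul_one]
  · rw [if_neg h, if_neg h, mul_zero]

theorem Dop_Van (a : Fin N) : Dop a (Van N) =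
    ∑ p ∈ prs N, ((if p.1 = a then X a else 0) - (if p.2 = a then X a else 0)) * Vanp p := by
  rw [Van, rc10_prod]
  refine Finset.sum_congr rfl fun p _ => ?_
  rw [map_sub, rc10_Dop_X, rc10_Dop_X, Vanp]

theorem rc10_coeff_Van (β : Fin N →₀ ℕ) (h : coeff β (Van N) ≠ 0) :
    ∑ a : Fin N, (β a : ℚ) ^ 2 = ∑ a : Fin N, (δ N a : ℚ) ^ 2 := by
  rw [Van_eq, coeff_map, alt, coeff_sum] at h
  have h1 : ∃ σ : Equiv.Perm (Fin N), coeff β (((Equiv.Perm.sign σ : ℤˣ) : ℤ) •
      rename σ (mon N (δ N))) ≠ 0 := by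
    by_contra hcon
    push Not at hcon
    rw [Finset.sum_eq_zero fun σ _ => hcon σ, map_zero] at h
    exact h rfl
  obtain ⟨σ, hσ⟩ := h1
  rw [T3_rename_mon, coeff_smul, coeff_monomial] at hσ
  have h2 : Finsupp.equivFunOnFinite.symm (fun i : Fin N => δ N (σ.symm i)) = β := by
    by_contra hne
    rw [if_neg hne, smul_zero] at hσ
    exact hσ rfl
  rw [← h2]
  exact Equiv.sum_comp σ.symm (fun a : Fin N => (δ N a : ℚ) ^ 2)

theorem Dop_Dop_Van : ∑ a, Dop a (Dop a (Van N)) = (∑ a : Fin N, (δ N a : ℚ) ^ 2) • Van N := by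
  ext β
  rw [coeff_sum, coeff_smul, smul_eq_mul]
  by_cases h : coeff β (Van N) = 0
  · rw [h, mul_zero]
    refine Finset.sum_eq_zero fun a _ => ?_
    rw [coeff_Dop, coeff_Dop, h, mul_zero, mul_zero]
  · rw [← rc10_coeff_Van β h, Finset.sum_mul]
    refine Finset.sum_congr rfl fun a _ => ?_
    rw [coeff_Dop, coeff_Dop]
    ring

theorem rc11_pair (f : Fin N → MvPolynomial (Fin N) ℚ) :
    ∑ p ∈ prs N, (f p.1 + f p.2) = ((N : ℚ) - 1) • ∑ a, f a := by
  have h1 : ∑ p ∈ prs N, (f p.1 + f p.2) =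
      ∑ a : Fin N, ∑ b : Fin N, (if a < b then f a + f b else 0) := by
    rw [prs, Finset.sum_filter, Fintype.sum_prod_type]
  have h2 : ∑ a : Fin N, ∑ b : Fin N, (if a < b then f a + f b else 0) =
      (∑ a : Fin N, ∑ b : Fin N, (if a < b then f a else 0)) +
        ∑ a : Fin N, ∑ b : Fin N, (if a < b then f b else 0) := by
    rw [← Finset.sum_add_distrib]
    refine Finset.sum_congr rfl fun a _ => ?_
    rw [← Finset.sum_add_distrib]
    refine Finset.sum_congr rfl fun b _ => ?_
    split_ifs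
    · rfl
    · rw [add_zero]
  have h3 : ∑ a : Fin N, ∑ b : Fin N, (if a < b then f b else 0) =
      ∑ a : Fin N, ∑ b : Fin N, (if b < a then f a else 0) := Finset.sum_comm
  rw [h1, h2, h3, ← Finset.sum_add_distrib, Finset.smul_sum]
  refine Finset.sum_congr rfl fun a _ => ?_
  rw [← Finset.sum_add_distrib]
  have h4 : ∀ b : Fin N, (if a < b then f a else 0) + (if b < a then f a else 0) =
      f a - (if a = b then f a else 0) := by
    intro b
    rcases lt_trichotomy a b with h | h | h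
    · rw [if_pos h, if_neg (not_lt.2 h.le), if_neg h.ne, add_zero, sub_zero]
    · rw [if_neg (by rw [h]; exact lt_irrefl _), if_neg (by rw [h]; exact lt_irrefl _),
        if_pos h, add_zero, sub_self]
    · rw [if_neg (not_lt.2 h.le), if_pos h, if_neg h.ne', zero_add, sub_zero]
  rw [Finset.sum_congr rfl fun b _ => h4 b, Finset.sum_sub_distrib, Finset.sum_const,
    Finset.sum_ite_eq, if_pos (Finset.mem_univ _), Finset.card_univ, Fintype.card_fin,
    sub_smul, one_smul, Nat.cast_smul_eq_nsmul]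

theorem rc11_leib (a : Fin N) (P F : MvPolynomial (Fin N) ℚ) :
    Dop a (Dop a (P * F)) = Dop a (Dop a P) * F + 2 * (Dop a P * Dop a F) +
      P * Dop a (Dop a F) := by
  rw [Derivation.leibniz, map_add, smul_eq_mul, smul_eq_mul, Derivation.leibniz,
    Derivation.leibniz, smul_eq_mul, smul_eq_mul, smul_eq_mul, smul_eq_mul]
  ring

theorem rc11_cross (F : MvPolynomial (Fin N) ℚ) :
    ∑ a, Dop a (Van N) * Dop a F =
      ∑ p ∈ prs N, (X p.1 * Dop p.1 F - X p.2 * Dop p.2 F) * Vanp p := by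
  have h1 : ∀ a : Fin N, Dop a (Van N) * Dop a F =
      ∑ p ∈ prs N, ((if p.1 = a then X a * Dop a F * Vanp p else 0) -
        (if p.2 = a then X a * Dop a F * Vanp p else 0)) := by
    intro a
    rw [Dop_Van, Finset.sum_mul]
    refine Finset.sum_congr rfl fun p _ => ?_
    split_ifs <;> ring
  rw [Finset.sum_congr rfl fun a _ => h1 a, Finset.sum_comm]
  refine Finset.sum_congr rfl fun p _ => ?_
  rw [Finset.sum_sub_distrib, Finset.sum_ite_eq, Finset.sum_ite_eq,
    if_pos (Finset.mem_univ _), if_pos (Finset.mem_univ _), sub_mul]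

/-- If `F` is an eigenvector of the operator of the Casimir traces then `Van * F` is an
eigenvector of `∑ (x_a ∂_a)^2`. -/
theorem eigen (F : MvPolynomial (Fin N) ℚ) (T : Fin N × Fin N → MvPolynomial (Fin N) ℚ)
    (hT : ∀ p ∈ prs N, (X p.1 - X p.2) * T p = X p.2 * (Dop p.1 F - Dop p.2 F)) (c d : ℚ)
    (hd : ∑ a, Dop a F = d • F)
    (hc : c • F = ∑ a, Dop a (Dop a F) + ∑ p ∈ prs N, (Dop p.1 F - Dop p.2 F) +
      2 * ∑ p ∈ prs N, T p) :
    ∑ a, Dop a (Dop a (Van N * F)) =
      (c + ((N : ℚ) - 1) * d + ∑ a : Fin N, (δ N a : ℚ) ^ 2) • (Van N * F) := by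
  have h1 : ∑ a, Dop a (Dop a (Van N * F)) =
      (∑ a, Dop a (Dop a (Van N))) * F + 2 * ∑ a, Dop a (Van N) * Dop a F +
        Van N * ∑ a, Dop a (Dop a F) := by
    rw [Finset.sum_congr rfl fun a _ => rc11_leib a (Van N) F, Finset.sum_add_distrib,
      Finset.sum_add_distrib, ← Finset.sum_mul, ← Finset.mul_sum, ← Finset.mul_sum]
  have h2 : 2 * ∑ a, Dop a (Van N) * Dop a F =
      Van N * ((∑ p ∈ prs N, (Dop p.1 F - Dop p.2 F) + 2 * ∑ p ∈ prs N, T p) +
        ∑ p ∈ prs N, (Dop p.1 F + Dop p.2 F)) := by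
    rw [rc11_cross, Finset.mul_sum, Finset.mul_sum, ← Finset.sum_add_distrib,
      ← Finset.sum_add_distrib, Finset.mul_sum]
    refine Finset.sum_congr rfl fun p hp => ?_
    rw [← Vanp_mul hp]
    have h3 := hT p hp
    linear_combination (-2 * Vanp p) * h3
  have h4 := rc11_pair (fun a => Dop a F)
  rw [hd] at h4
  have h5 : ∑ a, Dop a (Dop a F) = c • F -
      (∑ p ∈ prs N, (Dop p.1 F - Dop p.2 F) + 2 * ∑ p ∈ prs N, T p) := by
    rw [hc]
    ring
  rw [h1, h2, h4, h5, Dop_Dop_Van]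
  simp only [smul_eq_C_mul, map_add, map_mul, map_sub, map_one]
  ring

end MP967.Rep
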