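import Pool.Agent.Lib.MP_967fd7_co.Rep.Basic

/-! The Fischer form `⟨x^m, x^m'⟩ = m! δ` and orthogonal complements of stable subspaces. -/

namespace MP967.Rep

open MvPolynomial

variable {N : ℕ} {C : Type}

/-- The product of the factorials of the exponents. -/
noncomputable def fact (m : Fin N × C →₀ ℕ) : ℚ := m.prod (fun _ k => (k.factorial : ℚ))

theorem fact_pos (m : Fin N × C →₀ ℕ) : 0 < fact m := by
  unfold fact
  exact Finset.prod_pos fun i _ => Nat.cast_pos.2 (Nat.factorial_pos _)

/-- adding one to an exponent -/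
theorem rc3_fact (m : Fin N × C →₀ ℕ) (i : Fin N × C) :
    fact (m + Finsupp.single i 1) = fact m * (m i + 1 : ℕ) := by
  classical
  unfold fact
  rw [Finsupp.prod_of_support_subset (s := insert i m.support) (m + Finsupp.single i 1)
      (fun a ha => ?_) _ (fun _ _ => by rw [Nat.factorial_zero, Nat.cast_one]),
    Finsupp.prod_of_support_subset (s := insert i m.support) m
      (Finset.subset_insert _ _) _ (fun _ _ => by rw [Nat.factorial_zero, Nat.cast_one]),
    ← Finset.mul_prod_erase _ _ (Finset.mem_insert_self i m.support),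
    ← Finset.mul_prod_erase _ _ (Finset.mem_insert_self i m.support)]
  · have h : ∀ a ∈ (insert i m.support).erase i,
        (((m + Finsupp.single i 1 : Fin N × C →₀ ℕ) a).factorial : ℚ) =
          ((m a).factorial : ℚ) := by
      intro a ha
      rw [Finsupp.add_apply, Finsupp.single_eq_of_ne (Finset.ne_of_mem_erase ha), add_zero]
    rw [Finset.prod_congr rfl h, Finsupp.add_apply, Finsupp.single_eq_same,
      Nat.factorial_succ, Nat.cast_mul]
    ring
  · rw [Finsupp.mem_support_iff, Finsupp.add_apply] at ha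
    rw [Finset.mem_insert, Finsupp.mem_support_iff]
    by_cases h : a = i
    · exact Or.inl h
    · rw [Finsupp.single_eq_of_ne h, add_zero] at ha
      exact Or.inr ha

/-- The Fischer form. -/
noncomputable def fis : LinearMap.BilinForm ℚ (Pol N C) :=
  (basisMonomials (Fin N × C) ℚ).constr ℚ (fun m => fact m • lcoeff ℚ m)

theorem fis_monomial (m : Fin N × C →₀ ℕ) (r : ℚ) (q : Pol N C) :
    fis (monomial m r) q = r * fact m * coeff m q := by
  have h : monomial m r = r • (basisMonomials (Fin N × C) ℚ) m := by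
    rw [coe_basisMonomials, smul_monomial, smul_eq_mul, mul_one]
  rw [h, map_smul, fis, Module.Basis.constr_basis]
  change r * (fact m * coeff m q) = _
  ring

/-- the form as a sum over the monomials -/
theorem rc3_sum (p q : Pol N C) :
    fis p q = ∑ m ∈ p.support, coeff m p * fact m * coeff m q := by
  conv_lhs => rw [p.as_sum]
  rw [map_sum, LinearMap.sum_apply]
  exact Finset.sum_congr rfl fun m _ => fis_monomial m _ q

theorem fis_comm (p q : Pol N C) : fis p q = fis q p := by
  classical
  rw [rc3_sum, rc3_sum]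
  have h1 : ∑ m ∈ p.support, coeff m p * fact m * coeff m q =
      ∑ m ∈ p.support ∪ q.support, coeff m p * fact m * coeff m q := by
    refine Finset.sum_subset Finset.subset_union_left fun m _ hm => ?_
    rw [notMem_support_iff.1 hm, zero_mul, zero_mul]
  have h2 : ∑ m ∈ q.support, coeff m q * fact m * coeff m p =
      ∑ m ∈ p.support ∪ q.support, coeff m q * fact m * coeff m p := by
    refine Finset.sum_subset Finset.subset_union_right fun m _ hm => ?_
    rw [notMem_support_iff.1 hm, zero_mul, zero_mul]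
  rw [h1, h2]
  exact Finset.sum_congr rfl fun m _ => by ring

theorem fis_pos {p : Pol N C} (hp : p ≠ 0) : 0 < fis p p := by
  rw [rc3_sum]
  refine Finset.sum_pos (fun m hm => ?_) ?_
  · have h1 : coeff m p ≠ 0 := mem_support_iff.1 hm
    have h2 : coeff m p * fact m * coeff m p = coeff m p ^ 2 * fact m := by ring
    rw [h2]
    exact mul_pos (by positivity) (fact_pos m)
  · rw [Finset.nonempty_iff_ne_empty]
    intro h
    exact hp (support_eq_empty.1 h)

/-- the coefficients of a derivative -/
theorem rc3_coeff (i : Fin N × C) (q : Pol N C) (m : Fin N × C →₀ ℕ) :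
    coeff m (pderiv i q) = (m i + 1 : ℕ) * coeff (m + Finsupp.single i 1) q := by
  classical
  induction q using MvPolynomial.induction_on' with
  | monomial s a =>
    rw [pderiv_monomial, coeff_monomial, coeff_monomial]
    by_cases h0 : s i = 0
    · have h1 : s ≠ m + Finsupp.single i 1 := by
        rintro rfl
        rw [Finsupp.add_apply, Finsupp.single_eq_same] at h0
        exact Nat.succ_ne_zero _ h0
      rw [if_neg h1, h0, Nat.cast_zero, mul_zero, mul_zero, ite_self]
    · have hle : Finsupp.single i 1 ≤ s := Finsupp.single_le_iff.2 (Nat.one_le_iff_ne_zero.2 h0)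
      by_cases h1 : s = m + Finsupp.single i 1
      · subst h1
        rw [if_pos rfl, add_tsub_cancel_right, if_pos rfl, Finsupp.add_apply,
          Finsupp.single_eq_same, mul_comm]
      · rw [if_neg h1, if_neg, mul_zero]
        intro h2
        exact h1 (by rw [← h2, tsub_add_cancel_of_le hle])
  | add p q hp hq => rw [map_add, coeff_add, coeff_add, hp, hq, mul_add]

/-- the multiplication by a variable is adjoint to the derivative -/
theorem rc3_adj (i : Fin N × C) (p q : Pol N C) : fis (X i * p) q = fis p (pderiv i q) := by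
  induction p using MvPolynomial.induction_on' with
  | monomial s a =>
    have h : (X i * monomial s a : Pol N C) = monomial (s + Finsupp.single i 1) a := by
      rw [X, monomial_mul, one_mul, add_comm]
    rw [h, fis_monomial, fis_monomial, rc3_fact, rc3_coeff]
    ring
  | add p p' hp hp' => rw [mul_add, map_add, map_add, LinearMap.add_apply, LinearMap.add_apply,
      hp, hp']

/-- the operator `E a b` as a sum of products of variables and derivatives -/
theorem rc3_E (a b : Fin N) (S : Finset C) (p : Pol N C) (hp : ∀ i ∈ p.vars, i.2 ∈ S) :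
    E a b p = ∑ c ∈ S, X (a, c) * pderiv (b, c) p := by
  classical
  let D : Derivation ℚ (Pol N C) (Pol N C) := ∑ c ∈ S, (X (a, c) : Pol N C) • pderiv (b, c)
  have hD : ∀ f : Pol N C, D f = ∑ c ∈ S, X (a, c) * pderiv (b, c) f := by
    intro f
    change (∑ c ∈ S, (X (a, c) : Pol N C) • pderiv (b, c) : Derivation ℚ _ _) f = _
    rw [← Derivation.coeFnAddMonoidHom_apply, map_sum, Finset.sum_apply]
    rfl
  rw [← hD]
  refine derivation_eq_of_forall_mem_vars fun i hi => ?_
  rw [hD]
  obtain ⟨r, c⟩ := i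
  rw [E_X]
  by_cases hr : r = b
  · subst hr
    rw [if_pos rfl, Finset.sum_eq_single c]
    · rw [pderiv_X_self, mul_one]
    · intro c' _ hc'
      rw [pderiv_X_of_ne, mul_zero]
      intro h
      exact hc' (congrArg Prod.snd h).symm
    · intro h
      exact absurd (hp _ hi) h
  · rw [if_neg hr]
    refine (Finset.sum_eq_zero fun c' _ => ?_).symm
    rw [pderiv_X_of_ne, mul_zero]
    intro h
    exact hr (congrArg Prod.fst h)

/-- The adjoint of `E a b` is `E b a`. -/
theorem fis_E (a b : Fin N) (p q : Pol N C) : fis (E a b p) q = fis p (E b a q) := by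
  classical
  obtain ⟨S, hS⟩ : ∃ S : Finset C, S = (p.vars ∪ q.vars).image Prod.snd := ⟨_, rfl⟩
  have h1 : ∀ i ∈ p.vars, i.2 ∈ S := fun i hi => by
    rw [hS]
    exact Finset.mem_image_of_mem _ (Finset.mem_union_left _ hi)
  have h2 : ∀ i ∈ q.vars, i.2 ∈ S := fun i hi => by
    rw [hS]
    exact Finset.mem_image_of_mem _ (Finset.mem_union_right _ hi)
  rw [rc3_E a b S p h1, rc3_E b a S q h2, map_sum, LinearMap.sum_apply, map_sum]
  refine Finset.sum_congr rfl fun c _ => ?_
  rw [rc3_adj, fis_comm p, rc3_adj, fis_comm]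

theorem fis_wt {β γ : Fin N →₀ ℕ} (h : β ≠ γ) {p q : Pol N C} (hp : p ∈ wtSpace C β)
    (hq : q ∈ wtSpace C γ) : fis p q = 0 := by
  rw [rc3_sum]
  refine Finset.sum_eq_zero fun m hm => ?_
  have h1 := mem_wtSpace.1 hp m (mem_support_iff.1 hm)
  by_cases h2 : coeff m q = 0
  · rw [h2, mul_zero]
  · exact absurd (h1.symm.trans (mem_wtSpace.1 hq m h2)) h

/-- The orthogonal complement. -/
noncomputable def orth (W : Submodule ℚ (Pol N C)) : Submodule ℚ (Pol N C) := fis.orthogonal W

theorem mem_orth {W : Submodule ℚ (Pol N C)} {q : Pol N C} :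
    q ∈ orth W ↔ ∀ p ∈ W, fis p q = 0 := by
  unfold orth
  rw [LinearMap.BilinForm.mem_orthogonal_iff]

/-- the restriction of the form is nondegenerate -/
private theorem rc4_nondeg (W : Submodule ℚ (Pol N C)) :
    (fis.restrict W : LinearMap.BilinForm ℚ W).Nondegenerate := by
  refine ⟨fun x hx => ?_, fun x hx => ?_⟩
  · by_contra h
    have h1 : (x : Pol N C) ≠ 0 := fun h2 => h (Subtype.ext h2)
    exact (fis_pos h1).ne' (hx x)
  · by_contra h
    have h1 : (x : Pol N C) ≠ 0 := fun h2 => h (Subtype.ext h2)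
    exact (fis_pos h1).ne' (hx x)

theorem isCompl_orth {W : Submodule ℚ (Pol N C)} (hW : W.FG) : IsCompl W (orth W) := by
  have hfin : Module.Finite ℚ W := Module.Finite.iff_fg.2 hW
  refine IsCompl.of_eq ?_ ?_
  · rw [Submodule.eq_bot_iff]
    intro x hx
    by_contra h
    exact (fis_pos h).ne' (mem_orth.1 (Submodule.mem_inf.1 hx).2 x (Submodule.mem_inf.1 hx).1)
  · rw [Submodule.eq_top_iff']
    intro x
    obtain ⟨w, hw⟩ := (LinearMap.BilinForm.toDual _ (rc4_nondeg W)).surjective
      ((fis x).domRestrict W)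
    have hw' : ∀ n : W, fis (w : Pol N C) n = fis x n := fun n =>
      congrArg (fun f : Module.Dual ℚ W => f n) hw
    rw [Submodule.mem_sup]
    refine ⟨w, w.2, x - w, ?_, by abel⟩
    rw [mem_orth]
    intro p hp
    rw [map_sub, sub_eq_zero, fis_comm p x, fis_comm p w]
    exact (hw' ⟨p, hp⟩).symm

/-- the components are self-adjoint -/
private theorem rc4_comp (β : Fin N →₀ ℕ) (p q : Pol N C) :
    fis p (comp β q) = fis (comp β p) q := by
  classical
  induction p using MvPolynomial.induction_on' with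
  | monomial m r =>
    have h1 : coeff m (comp β q) = if Finsupp.weight rowWt m = β then coeff m q else 0 :=
      coeff_weightedHomogeneousComponent β q m
    rw [fis_monomial, h1]
    have hm : monomial m r ∈ wtSpace C (Finsupp.weight rowWt m : Fin N →₀ ℕ) :=
      mem_wtSpace.2 fun m' hm' => by
        rw [coeff_monomial] at hm'
        by_cases h : m = m'
        · rw [h]
        · exact absurd (if_neg h) hm'
    by_cases h : Finsupp.weight rowWt m = β
    · subst h
      rw [if_pos rfl, comp_of_mem hm, fis_monomial]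
    · rw [if_neg h, comp_of_mem_ne hm h, mul_zero, map_zero, LinearMap.zero_apply]
  | add p p' hp hp' =>
    rw [map_add, map_add, map_add, LinearMap.add_apply, LinearMap.add_apply, hp, hp']

theorem Stable.inf_orth {W W' : Submodule ℚ (Pol N C)} (hW : Stable W) (hW' : Stable W') :
    Stable (W' ⊓ orth W) := by
  refine ⟨?_, fun p hp β => ?_, fun a b p hp => ?_⟩
  · have h1 : Module.Finite ℚ W' := Module.Finite.iff_fg.2 hW'.fin
    have h2 : FiniteDimensional ℚ ↥(W' ⊓ orth W) :=
      Submodule.finiteDimensional_of_le inf_le_left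
    exact Module.Finite.iff_fg.1 h2
  · obtain ⟨h1, h2⟩ := Submodule.mem_inf.1 hp
    refine Submodule.mem_inf.2 ⟨hW'.hom p h1 β, mem_orth.2 fun q hq => ?_⟩
    rw [rc4_comp]
    exact mem_orth.1 h2 _ (hW.hom q hq β)
  · obtain ⟨h1, h2⟩ := Submodule.mem_inf.1 hp
    refine Submodule.mem_inf.2 ⟨hW'.act a b p h1, mem_orth.2 fun q hq => ?_⟩
    rw [← fis_E]
    exact mem_orth.1 h2 _ (hW.act b a q hq)

theorem mult_add_orth {W W' : Submodule ℚ (Pol N C)} (hW : Stable W) (hW' : Stable W')
    (h : W ≤ W') (β : Fin N →₀ ℕ) : mult W' β = mult W β + mult (W' ⊓ orth W) β := by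
  have hc := isCompl_orth hW.fin
  have hS := hW.inf_orth hW'
  have h1 : Module.Finite ℚ W' := Module.Finite.iff_fg.2 hW'.fin
  have h2 : FiniteDimensional ℚ ↥(W ⊓ wtSpace C β) :=
    Submodule.finiteDimensional_of_le (inf_le_left.trans h)
  have h3 : FiniteDimensional ℚ ↥((W' ⊓ orth W) ⊓ wtSpace C β) :=
    Submodule.finiteDimensional_of_le (inf_le_left.trans inf_le_left)
  have h4 : (W ⊓ wtSpace C β) ⊓ ((W' ⊓ orth W) ⊓ wtSpace C β) = ⊥ := by
    rw [Submodule.eq_bot_iff]
    intro x hx
    have hx1 : x ∈ W ⊓ orth W := Submodule.mem_inf.2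
      ⟨(Submodule.mem_inf.1 (Submodule.mem_inf.1 hx).1).1,
        (Submodule.mem_inf.1 (Submodule.mem_inf.1 (Submodule.mem_inf.1 hx).2).1).2⟩
    rw [hc.inf_eq_bot] at hx1
    exact (Submodule.mem_bot ℚ).1 hx1
  have h5 : (W ⊓ wtSpace C β) ⊔ ((W' ⊓ orth W) ⊓ wtSpace C β) = W' ⊓ wtSpace C β := by
    apply le_antisymm
    · exact sup_le (inf_le_inf_right _ h) (inf_le_inf_right _ inf_le_left)
    · intro p hp
      obtain ⟨hp1, hp2⟩ := Submodule.mem_inf.1 hp
      have hp3 : p ∈ W ⊔ orth W := by
        rw [hc.sup_eq_top]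
        exact Submodule.mem_top
      obtain ⟨w, hw, q, hq, hwq⟩ := Submodule.mem_sup.1 hp3
      have hq1 : q ∈ W' ⊓ orth W := by
        refine Submodule.mem_inf.2 ⟨?_, hq⟩
        have hq2 : q = p - w := by rw [← hwq]; abel
        rw [hq2]
        exact Submodule.sub_mem _ hp1 (h hw)
      have hp4 : comp β w + comp β q = p := by rw [← map_add, hwq, comp_of_mem hp2]
      rw [Submodule.mem_sup]
      exact ⟨comp β w, Submodule.mem_inf.2 ⟨hW.hom w hw β, comp_mem β w⟩, comp β q,
        Submodule.mem_inf.2 ⟨hS.hom q hq1 β, comp_mem β q⟩, hp4⟩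
  have h6 := Submodule.finrank_sup_add_finrank_inf_eq (W ⊓ wtSpace C β)
    ((W' ⊓ orth W) ⊓ wtSpace C β)
  rw [h4, h5, finrank_bot, add_zero] at h6
  exact h6

theorem ch_add_orth {W W' : Submodule ℚ (Pol N C)} (hW : Stable W) (hW' : Stable W')
    (h : W ≤ W') : ch W' = ch W + ch (W' ⊓ orth W) := by
  refine MvPolynomial.ext _ _ fun β => ?_
  rw [coeff_add, coeff_ch hW'.fin, coeff_ch hW.fin, coeff_ch (hW.inf_orth hW').fin,
    mult_add_orth hW hW' h, Nat.cast_add]

end MP967.Rep
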