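import Pool.Agent.Lib.MP_967fd7_co.Rep.Tensor
import Pool.Agent.Lib.MP_967fd7_co.Rep.Decomp

/-! Flag minors: the character of the span of the products of flag minors of a given shape. -/

namespace MP967.Rep

open MvPolynomial

variable {N : ℕ} {C : Type}

/-- The minor of the rows `I` and the columns `c 0, …, c (k-1)`. -/
noncomputable def minor (c : ℕ → C) (k : ℕ) (I : Fin k → Fin N) : Pol N C :=
  Matrix.det (Matrix.of fun i j : Fin k => (X (I i, c j) : Pol N C))

/-- The span of the minors with the columns `c 0, …, c (k-1)`. -/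
noncomputable def Pk (N : ℕ) (c : ℕ → C) (k : ℕ) : Submodule ℚ (Pol N C) :=
  Submodule.span ℚ (Set.range (minor c k))

/-- The span of the products of flag minors of heights `s`. -/
noncomputable def V (N : ℕ) (c : ℕ → C) (s : Multiset ℕ) : Submodule ℚ (Pol N C) :=
  (s.map (Pk N c)).prod

/-- The shape with columns of heights `s`. -/
def shape (s : Multiset ℕ) (r : ℕ) : ℕ := s.countP (fun k => r < k)

/-- The minor as a sum with the rows in order. -/
theorem stable_Pk_expand (c : ℕ → C) (k : ℕ) (I : Fin k → Fin N) :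
    minor c k I = ∑ σ : Equiv.Perm (Fin k),
      Equiv.Perm.sign σ • ∏ i, (X (I i, c (σ i)) : Pol N C) := by
  unfold minor
  rw [← Matrix.det_transpose, Matrix.det_apply]
  rfl

/-- `E a b` on a product of variables. -/
theorem stable_Pk_prod (a b : Fin N) {ι : Type} [DecidableEq ι] (s : Finset ι) (I : ι → Fin N)
    (d : ι → C) : E a b (∏ i ∈ s, (X (I i, d i) : Pol N C)) =
      ∑ i ∈ s, if I i = b then ∏ j ∈ s, (X (Function.update I i a j, d j) : Pol N C) else 0 := by
  induction s using Finset.induction_on with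
  | empty =>
    rw [Finset.prod_empty, Finset.sum_empty]
    exact Derivation.map_one_eq_zero _
  | insert i s hi ih =>
    have hup : ∀ j ∈ s, (∏ l ∈ insert i s, (X (Function.update I j a l, d l) : Pol N C)) =
        X (I i, d i) * ∏ l ∈ s, (X (Function.update I j a l, d l) : Pol N C) := by
      intro j hj
      rw [Finset.prod_insert hi, Function.update_of_ne]
      rintro rfl
      exact hi hj
    have hup2 : (∏ l ∈ insert i s, (X (Function.update I i a l, d l) : Pol N C)) =
        X (a, d i) * ∏ l ∈ s, (X (I l, d l) : Pol N C) := by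
      rw [Finset.prod_insert hi, Function.update_self]
      congr 1
      refine Finset.prod_congr rfl fun l hl => ?_
      rw [Function.update_of_ne]
      rintro rfl
      exact hi hl
    rw [Finset.prod_insert hi, Derivation.leibniz, ih, E_X, Finset.sum_insert hi, smul_eq_mul,
      smul_eq_mul, hup2, add_comm, Finset.mul_sum]
    congr 1
    · split_ifs
      · exact mul_comm _ _
      · exact mul_zero _
    · refine Finset.sum_congr rfl fun j hj => ?_
      rw [hup j hj]
      split_ifs
      · rfl
      · exact mul_zero _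

/-- `E a b` on a minor. -/
theorem stable_Pk_E (a b : Fin N) (c : ℕ → C) (k : ℕ) (I : Fin k → Fin N) :
    E a b (minor c k I) =
      ∑ i, if I i = b then (minor c k (Function.update I i a) : Pol N C) else 0 := by
  have h : ∀ σ : Equiv.Perm (Fin k),
      E a b (Equiv.Perm.sign σ • ∏ i, (X (I i, c (σ i)) : Pol N C)) =
        ∑ i, if I i = b then Equiv.Perm.sign σ •
          ∏ j, (X (Function.update I i a j, c (σ j)) : Pol N C) else 0 := by
    intro σ
    have h1 : E a b (Equiv.Perm.sign σ • ∏ i, (X (I i, c (σ i)) : Pol N C)) =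
        Equiv.Perm.sign σ • E a b (∏ i, (X (I i, c (σ i)) : Pol N C)) := by
      rw [Units.smul_def, Units.smul_def, map_zsmul]
    rw [h1, stable_Pk_prod a b Finset.univ I (fun i => c (σ i)), Finset.smul_sum]
    refine Finset.sum_congr rfl fun i _ => ?_
    split_ifs
    · rfl
    · exact smul_zero _
  rw [stable_Pk_expand, map_sum, Finset.sum_congr rfl fun σ _ => h σ, Finset.sum_comm]
  refine Finset.sum_congr rfl fun i _ => ?_
  split_ifs
  · rw [stable_Pk_expand]
  · exact Finset.sum_const_zero

theorem stable_Pk_wt (c : ℕ → C) (k : ℕ) (I : Fin k → Fin N) :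
    (minor c k I : Pol N C) ∈ wtSpace C (∑ i, Finsupp.single (I i) 1) := by
  rw [stable_Pk_expand]
  refine Submodule.sum_mem _ fun σ _ => ?_
  rw [Units.smul_def]
  refine zsmul_mem ?_ _
  exact IsWeightedHomogeneous.prod Finset.univ (fun i => (X (I i, c (σ i)) : Pol N C))
    (fun i => Finsupp.single (I i) 1) (fun i _ => isWeightedHomogeneous_X ℚ rowWt (I i, c (σ i)))

theorem stable_Pk (c : ℕ → C) (k : ℕ) : Stable (Pk N c k) := by
  refine stable_span (Set.finite_range _) ?_ ?_
  · rintro _ ⟨I, rfl⟩
    exact ⟨_, stable_Pk_wt c k I⟩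
  · rintro a b _ ⟨I, rfl⟩
    rw [stable_Pk_E]
    refine Submodule.sum_mem _ fun i _ => ?_
    split_ifs
    · exact Submodule.subset_span ⟨_, rfl⟩
    · exact Submodule.zero_mem _

theorem stable_V (c : ℕ → C) (s : Multiset ℕ) : Stable (V N c s) := by
  refine stable_prod ?_
  intro W hW
  obtain ⟨k, _, rfl⟩ := Multiset.mem_map.1 hW
  exact stable_Pk c k

/-- The derivation which replaces the column `c` by the column `d`: `x_{r,d} ↦ x_{r,c}`. -/
noncomputable def R [DecidableEq C] (c d : C) : Derivation ℚ (Pol N C) (Pol N C) :=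
  mkDerivation ℚ (fun p : Fin N × C => if p.2 = d then X (p.1, c) else 0)

theorem rc22_X [DecidableEq C] (c d : C) (q : Fin N × C) :
    R c d (X q : Pol N C) = if q.2 = d then X (q.1, c) else 0 := by
  unfold R
  rw [mkDerivation_X]

/-- Leibniz rule for products. -/
theorem rc22_prod (D : Derivation ℚ (Pol N C) (Pol N C)) {ι : Type} [DecidableEq ι]
    (s : Finset ι) (f : ι → Pol N C) :
    D (∏ i ∈ s, f i) = ∑ i ∈ s, (∏ j ∈ s.erase i, f j) * D (f i) := by
  induction s using Finset.induction_on with
  | empty => rw [Finset.prod_empty, Finset.sum_empty, Derivation.map_one_eq_zero]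
  | insert a s ha ih =>
    rw [Finset.prod_insert ha, Derivation.leibniz, ih, Finset.sum_insert ha,
      Finset.erase_insert ha, smul_eq_mul, smul_eq_mul, add_comm, Finset.mul_sum]
    congr 1
    refine Finset.sum_congr rfl fun i hi => ?_
    have h1 : i ≠ a := by
      rintro rfl
      exact ha hi
    have h2 : (insert a s).erase i = insert a (s.erase i) := by
      rw [Finset.erase_insert_of_ne (Ne.symm h1)]
    rw [h2, Finset.prod_insert (fun h => ha (Finset.mem_of_mem_erase h)), mul_assoc]

/-- The derivative of a determinant. -/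
theorem rc22_det (D : Derivation ℚ (Pol N C) (Pol N C)) {k : ℕ}
    (M : Matrix (Fin k) (Fin k) (Pol N C)) :
    D M.det = ∑ j, (M.updateCol j (fun i => D (M i j))).det := by
  simp only [Matrix.det_apply]
  rw [map_sum, Finset.sum_comm]
  refine Finset.sum_congr rfl fun σ _ => ?_
  rw [Units.smul_def, map_zsmul, rc22_prod, ← Finset.smul_sum]
  congr 1
  refine Finset.sum_congr rfl fun j _ => ?_
  rw [← Finset.prod_erase_mul Finset.univ _ (Finset.mem_univ j), Matrix.updateCol_self]
  congr 1
  refine Finset.prod_congr rfl fun i hi => ?_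
  rw [Matrix.updateCol_ne (Finset.ne_of_mem_erase hi)]

theorem rc22_minor [DecidableEq C] (c : ℕ → C) (m : ℕ) (hc : Set.InjOn c (Set.Iio m)) {k : ℕ}
    (hk : k ≤ m) {i j : ℕ} (hj : j < m) (I : Fin k → Fin N) :
    R (c i) (c j) (minor c k I) = ∑ j' : Fin k, if (j' : ℕ) = j then
      ((Matrix.of fun i' j' : Fin k => (X (I i', c j') : Pol N C)).updateCol j'
        (fun i' => X (I i', c i))).det else 0 := by
  unfold minor
  rw [rc22_det]
  refine Finset.sum_congr rfl fun j' _ => ?_
  have h1 : (j' : ℕ) < m := lt_of_lt_of_le j'.2 hk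
  by_cases h : (j' : ℕ) = j
  · rw [if_pos h]
    congr 2
    ext1 i'
    rw [Matrix.of_apply, rc22_X, if_pos (congrArg c h)]
  · rw [if_neg h]
    refine Matrix.det_eq_zero_of_column_eq_zero j' fun i' => ?_
    rw [Matrix.updateCol_self, Matrix.of_apply, rc22_X, if_neg]
    intro h2
    exact h (hc h1 hj h2)

theorem rc22_off [DecidableEq C] (c : ℕ → C) (m : ℕ) (hc : Set.InjOn c (Set.Iio m)) {k : ℕ}
    (hk : k ≤ m) {i j : ℕ} (hij : i < j) (hj : j < m) (I : Fin k → Fin N) :
    R (c i) (c j) (minor c k I) = 0 := by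
  rw [rc22_minor c m hc hk hj]
  refine Finset.sum_eq_zero fun j' _ => ?_
  split_ifs with h
  · have hi : i < k := hij.trans (h ▸ j'.2)
    have hne : (⟨i, hi⟩ : Fin k) ≠ j' := by
      intro h1
      have h2 : i = (j' : ℕ) := congrArg Fin.val h1
      omega
    refine Matrix.det_zero_of_column_eq hne fun i' => ?_
    rw [Matrix.updateCol_ne hne, Matrix.updateCol_self, Matrix.of_apply]
  · rfl

theorem rc22_diag [DecidableEq C] (c : ℕ → C) (m : ℕ) (hc : Set.InjOn c (Set.Iio m)) {k : ℕ}
    (hk : k ≤ m) {i : ℕ} (hi : i < m) (I : Fin k → Fin N) :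
    R (c i) (c i) (minor c k I) = (if i < k then 1 else 0 : ℚ) • minor c k I := by
  rw [rc22_minor c m hc hk hi]
  by_cases h : i < k
  · rw [if_pos h, one_smul, Finset.sum_eq_single (⟨i, h⟩ : Fin k)]
    · rw [if_pos rfl]
      unfold minor
      congr 1
      ext1 i' j'
      by_cases h1 : j' = ⟨i, h⟩
      · rw [h1, Matrix.updateCol_self, Matrix.of_apply]
      · rw [Matrix.updateCol_ne h1]
    · intro j' _ h1
      rw [if_neg]
      intro h2
      exact h1 (Fin.ext h2)
    · intro h1
      exact absurd (Finset.mem_univ _) h1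
  · rw [if_neg h, zero_smul]
    refine Finset.sum_eq_zero fun j' _ => ?_
    rw [if_neg]
    intro h1
    exact h (h1 ▸ j'.2)

theorem rc22_Pk (D : Derivation ℚ (Pol N C) (Pol N C)) (c : ℕ → C) (k : ℕ) (e : ℚ)
    (h : ∀ I : Fin k → Fin N, D (minor c k I) = e • minor c k I) {p : Pol N C}
    (hp : p ∈ Pk N c k) : D p = e • p := by
  induction hp using Submodule.span_induction with
  | mem x hx =>
    obtain ⟨I, rfl⟩ := hx
    exact h I
  | zero => rw [map_zero, smul_zero]
  | add x y _ _ hx hy => rw [map_add, hx, hy, smul_add]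
  | smul r x _ hx => rw [Derivation.map_smul, hx, smul_comm]

theorem rc22_V (D : Derivation ℚ (Pol N C) (Pol N C)) (c : ℕ → C) (e : ℕ → ℚ) (s : Multiset ℕ)
    (h : ∀ k ∈ s, ∀ I : Fin k → Fin N, D (minor c k I) = e k • minor c k I) {p : Pol N C}
    (hp : p ∈ V N c s) : D p = (s.map e).sum • p := by
  induction s using Multiset.induction_on generalizing p with
  | empty =>
    have h1 : p ∈ (1 : Submodule ℚ (Pol N C)) := by
      unfold V at hp
      rwa [Multiset.map_zero, Multiset.prod_zero] at hp
    obtain ⟨r, rfl⟩ := Submodule.mem_one.1 h1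
    rw [Derivation.map_algebraMap, Multiset.map_zero, Multiset.sum_zero, zero_smul]
  | cons k s ih =>
    have h1 : p ∈ Pk N c k * V N c s := by
      unfold V at hp ⊢
      rwa [Multiset.map_cons, Multiset.prod_cons] at hp
    rw [Multiset.map_cons, Multiset.sum_cons]
    refine Submodule.mul_induction_on h1 ?_ ?_
    · intro a ha b hb
      rw [Derivation.leibniz,
        ih (fun k' hk' => h k' (Multiset.mem_cons_of_mem hk')) hb,
        rc22_Pk D c k (e k) (h k (Multiset.mem_cons_self k s)) ha, smul_eq_mul, smul_eq_mul,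
        mul_smul_comm, mul_smul_comm, add_smul, mul_comm b a, add_comm]
    · intro x y hx hy
      rw [map_add, hx, hy, smul_add]

theorem R_V [DecidableEq C] (c : ℕ → C) (m : ℕ) (hc : Set.InjOn c (Set.Iio m)) (s : Multiset ℕ)
    (hs : ∀ k ∈ s, k ≤ m) {i j : ℕ} (hij : i < j) (hj : j < m) {p : Pol N C}
    (hp : p ∈ V N c s) : R (c i) (c j) p = 0 := by
  rw [rc22_V (R (c i) (c j)) c (fun _ => 0) s
    (fun k hk I => by rw [rc22_off c m hc (hs k hk) hij hj, zero_smul]) hp]
  rw [Multiset.sum_map_zero, zero_smul]

theorem R_V_diag [DecidableEq C] (c : ℕ → C) (m : ℕ) (hc : Set.InjOn c (Set.Iio m))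
    (s : Multiset ℕ) (hs : ∀ k ∈ s, k ≤ m) {i : ℕ} (hi : i < m) {p : Pol N C}
    (hp : p ∈ V N c s) : R (c i) (c i) p = (shape s i : ℚ) • p := by
  rw [rc22_V (R (c i) (c i)) c (fun k => if i < k then 1 else 0) s
    (fun k hk I => rc22_diag c m hc (hs k hk) hi I) hp]
  congr 1
  clear hp hs
  unfold shape
  induction s using Multiset.induction_on with
  | empty => rw [Multiset.map_zero, Multiset.sum_zero, Multiset.countP_zero, Nat.cast_zero]
  | cons k s ih =>
    rw [Multiset.map_cons, Multiset.sum_cons, ih]
    by_cases h : i < k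
    · rw [if_pos h, Multiset.countP_cons_of_pos _ h, Nat.cast_add, Nat.cast_one, add_comm]
    · rw [if_neg h, Multiset.countP_cons_of_neg _ h, zero_add]

theorem V_supported_minor (c : ℕ → C) (m k : ℕ) (hk : k ≤ m) (I : Fin k → Fin N) :
    (minor c k I : Pol N C) ∈ supported ℚ {q : Fin N × C | q.2 ∈ c '' Set.Iio m} := by
  rw [stable_Pk_expand]
  refine Subalgebra.sum_mem _ fun σ _ => ?_
  rw [Units.smul_def]
  refine zsmul_mem (Subalgebra.prod_mem _ fun i _ => ?_) _
  refine (X_mem_supported (R := ℚ)).2 ?_
  exact ⟨(σ i : ℕ), lt_of_lt_of_le (σ i).2 hk, rfl⟩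

theorem V_supported_le (c : ℕ → C) (m : ℕ) (s : Multiset ℕ) (hs : ∀ k ∈ s, k ≤ m) :
    V N c s ≤ Subalgebra.toSubmodule (supported ℚ {q : Fin N × C | q.2 ∈ c '' Set.Iio m}) := by
  induction s using Multiset.induction_on with
  | empty =>
    unfold V
    rw [Multiset.map_zero, Multiset.prod_zero, Submodule.one_le]
    exact Subalgebra.one_mem _
  | cons k s ih =>
    unfold V
    rw [Multiset.map_cons, Multiset.prod_cons, Submodule.mul_le]
    intro p hp q hq
    refine Subalgebra.mul_mem _ ?_ (ih (fun l hl => hs l (Multiset.mem_cons_of_mem hl)) hq)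
    have h1 : Pk N c k ≤
        Subalgebra.toSubmodule (supported ℚ {q : Fin N × C | q.2 ∈ c '' Set.Iio m}) := by
      unfold Pk
      rw [Submodule.span_le]
      rintro _ ⟨I, rfl⟩
      exact V_supported_minor c m k (hs k (Multiset.mem_cons_self k s)) I
    exact h1 hp

/-- Only the columns `c 0, …, c (m-1)` occur. -/
theorem V_supported (c : ℕ → C) (m : ℕ) (s : Multiset ℕ) (hs : ∀ k ∈ s, k ≤ m) {p : Pol N C}
    (hp : p ∈ V N c s) : p ∈ supported ℚ {q : Fin N × C | q.2 ∈ c '' Set.Iio m} :=
  V_supported_le c m s hs hp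

open Classical in
/-- The point where the columns `c 0, …, c (m-1)` are the first unit vectors. -/
noncomputable def pt (N : ℕ) (c : ℕ → C) (m : ℕ) (p : Fin N × C) : ℚ :=
  if (p.1 : ℕ) < m ∧ c p.1 = p.2 then 1 else 0

/-- There is a highest weight vector in `V`. -/
theorem V_ne_bot (c : ℕ → C) (m : ℕ) (hm : m ≤ N) (hc : Set.InjOn c (Set.Iio m)) (s : Multiset ℕ)
    (hs : ∀ k ∈ s, k ≤ m) : V N c s ≠ ⊥ := by
  suffices h : ∃ p ∈ V N c s, eval (pt N c m) p = 1 by
    obtain ⟨p, hp, h1⟩ := h
    intro h0
    rw [h0, Submodule.mem_bot] at hp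
    rw [hp, map_zero] at h1
    exact zero_ne_one h1
  induction s using Multiset.induction_on with
  | empty =>
    refine ⟨1, ?_, map_one _⟩
    unfold V
    rw [Multiset.map_zero, Multiset.prod_zero]
    exact Submodule.one_le.1 le_rfl
  | cons k s ih =>
    obtain ⟨p, hp, h1⟩ := ih fun l hl => hs l (Multiset.mem_cons_of_mem hl)
    have hk := hs k (Multiset.mem_cons_self k s)
    refine ⟨minor c k (fun i => ⟨(i : ℕ), by omega⟩) * p, ?_, ?_⟩
    · unfold V
      rw [Multiset.map_cons, Multiset.prod_cons]
      exact Submodule.mul_mem_mul (Submodule.subset_span ⟨_, rfl⟩) hp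
    · rw [map_mul, h1, mul_one]
      unfold minor
      rw [RingHom.map_det]
      have h2 : (eval (pt N c m)).mapMatrix (Matrix.of fun i j : Fin k =>
          (X ((⟨(i : ℕ), by omega⟩ : Fin N), c j) : Pol N C)) = 1 := by
        ext i j
        rw [RingHom.mapMatrix_apply, Matrix.map_apply, Matrix.of_apply, eval_X]
        unfold pt
        by_cases hij : i = j
        · subst hij
          rw [if_pos ⟨by have := i.2; change (i : ℕ) < m; omega, rfl⟩, Matrix.one_apply_eq]
        · rw [Matrix.one_apply_ne hij, if_neg]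
          rintro ⟨-, h3⟩
          apply hij
          refine Fin.ext (hc ?_ ?_ h3)
          · have := i.2
            change (i : ℕ) < m
            omega
          · have := j.2
            change (j : ℕ) < m
            omega
      rw [h2, Matrix.det_one]

/-- Two derivations which agree on the variables at a point agree at the point. -/
theorem rc22_point (D D' : Derivation ℚ (Pol N C) (Pol N C)) (z : Fin N × C → ℚ)
    (h : ∀ q, eval z (D (X q)) = eval z (D' (X q))) (p : Pol N C) :
    eval z (D p) = eval z (D' p) := by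
  induction p using MvPolynomial.induction_on with
  | C a => rw [← algebraMap_eq, Derivation.map_algebraMap, Derivation.map_algebraMap]
  | add p q hp hq => rw [map_add, map_add, map_add, map_add, hp, hq]
  | mul_X p q hp =>
    rw [Derivation.leibniz, Derivation.leibniz, map_add, map_add, smul_eq_mul, smul_eq_mul,
      smul_eq_mul, smul_eq_mul, map_mul, map_mul, map_mul, map_mul, hp, h]

/-- At the point: `E b a` acts like a column operator. -/
theorem eval_E_low [DecidableEq C] (c : ℕ → C) (m : ℕ) (hc : Set.InjOn c (Set.Iio m))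
    (s : Multiset ℕ) (hs : ∀ k ∈ s, k ≤ m) {a b : Fin N} (hab : a < b) {p : Pol N C}
    (hp : p ∈ V N c s) : eval (pt N c m) (E b a p) = 0 := by
  have hE : ∀ q : Fin N × C, E b a (X q : Pol N C) = if q.1 = a then X (b, q.2) else 0 := by
    intro q
    unfold E
    rw [mkDerivation_X]
  by_cases hb : (b : ℕ) < m
  · have ham : (a : ℕ) < m := lt_trans hab hb
    rw [rc22_point (E b a) (R (c a) (c b)) (pt N c m) ?_ p,
      R_V c m hc s hs hab hb hp, map_zero]
    intro q
    rw [hE, rc22_X]
    by_cases h1 : q.1 = a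
    · rw [if_pos h1, eval_X]
      by_cases h2 : q.2 = c b
      · rw [if_pos h2, eval_X]
        unfold pt
        rw [if_pos ⟨hb, h2.symm⟩, if_pos ⟨by rw [h1]; exact ham, by rw [h1]⟩]
      · rw [if_neg h2, map_zero]
        unfold pt
        rw [if_neg]
        rintro ⟨_, h3⟩
        exact h2 h3.symm
    · rw [if_neg h1, map_zero]
      by_cases h2 : q.2 = c b
      · rw [if_pos h2, eval_X]
        unfold pt
        rw [if_neg]
        rintro ⟨h3, h4⟩
        exact h1 (Fin.ext (hc h3 ham h4))
      · rw [if_neg h2, map_zero]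
  · have h0 : eval (pt N c m) (E b a p) =
        eval (pt N c m) ((0 : Derivation ℚ (Pol N C) (Pol N C)) p) := by
      refine rc22_point _ _ _ (fun q => ?_) p
      rw [hE, Derivation.zero_apply, map_zero]
      split_ifs with h1
      · rw [eval_X]
        unfold pt
        rw [if_neg]
        rintro ⟨h3, _⟩
        exact hb h3
      · rw [map_zero]
    rw [h0, Derivation.zero_apply, map_zero]

/-- Translation by `z`. -/
private noncomputable def rc23_tau (z : Fin N × C → ℚ) : Pol N C →ₐ[ℚ] Pol N C :=
  aeval fun q => X q + MvPolynomial.C (z q)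

private theorem rc23_tau_X (z : Fin N × C → ℚ) (q : Fin N × C) :
    rc23_tau z (X q) = X q + MvPolynomial.C (z q) := by
  rw [rc23_tau, aeval_X]

private theorem rc23_inj (z : Fin N × C → ℚ) {p : Pol N C} (h : rc23_tau z p = 0) : p = 0 := by
  have h1 : (rc23_tau fun q => -z q).comp (rc23_tau z) = AlgHom.id ℚ (Pol N C) := by
    apply MvPolynomial.algHom_ext
    intro q
    rw [AlgHom.comp_apply, rc23_tau_X, map_add, rc23_tau_X, AlgHom.id_apply, algHom_C,
      algebraMap_eq, map_neg, neg_add_cancel_right]
  have h2 := DFunLike.congr_fun h1 p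
  rw [AlgHom.comp_apply, h, map_zero, AlgHom.id_apply] at h2
  exact h2.symm

private theorem rc23_zero (z : Fin N × C → ℚ) (p : Pol N C) :
    coeff 0 (rc23_tau z p) = eval z p := by
  have h1 : constantCoeff.comp (rc23_tau z : Pol N C →+* Pol N C) = eval z := by
    apply MvPolynomial.ringHom_ext
    · intro r
      simp [rc23_tau]
    · intro q
      simp [rc23_tau]
  have h2 := DFunLike.congr_fun h1 p
  exact h2

private theorem rc23_tauE (z : Fin N × C → ℚ) {a b : Fin N} {u : Fin N × C}
    (hz : ∀ q : Fin N × C, (if q.1 = b then MvPolynomial.C (z (a, q.2)) else 0 : Pol N C) =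
      pderiv u (X q)) (p : Pol N C) :
    rc23_tau z (E a b p) = E a b (rc23_tau z p) + pderiv u (rc23_tau z p) := by
  induction p using MvPolynomial.induction_on with
  | C r =>
    have h1 : rc23_tau z (MvPolynomial.C r : Pol N C) = MvPolynomial.C r := by
      rw [algHom_C, algebraMap_eq]
    have h2 : E a b (MvPolynomial.C r : Pol N C) = 0 := by
      rw [← algebraMap_eq, Derivation.map_algebraMap]
    rw [h1, h2, map_zero, pderiv_C, add_zero]
  | add p q hp hq =>
    rw [map_add, map_add, map_add, map_add, map_add, hp, hq]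
    ring
  | mul_X p q hp =>
    have h1 : E a b (X q : Pol N C) = if q.1 = b then X (a, q.2) else 0 := E_X a b q.1 q.2
    have h2 : rc23_tau z (E a b (X q : Pol N C)) = E a b (X q : Pol N C) + pderiv u (X q) := by
      rw [h1, ← hz]
      by_cases hq : q.1 = b
      · rw [if_pos hq, if_pos hq, rc23_tau_X]
      · rw [if_neg hq, if_neg hq, map_zero, add_zero]
    have h3 : E a b (MvPolynomial.C (z q) : Pol N C) = 0 := by
      rw [← algebraMap_eq, Derivation.map_algebraMap]
    rw [Derivation.leibniz, map_add, smul_eq_mul, smul_eq_mul, map_mul, map_mul, hp, h2,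
      map_mul, Derivation.leibniz, Derivation.leibniz, smul_eq_mul, smul_eq_mul, smul_eq_mul,
      smul_eq_mul, rc23_tau_X, map_add, map_add, h3, pderiv_C]
    ring

private theorem rc23_coeff (a b : Fin N) {f : Pol N C} {e : Fin N × C →₀ ℕ}
    (h : ∀ d : Fin N × C →₀ ℕ, d.degree = e.degree → coeff d f = 0) :
    coeff e (E a b f) = 0 := by
  classical
  have h1 : E a b f = ∑ m ∈ f.support, E a b (monomial m (coeff m f)) := by
    conv_lhs => rw [f.as_sum]
    rw [map_sum]
  rw [h1, coeff_sum]
  refine Finset.sum_eq_zero fun m hm => ?_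
  have hme : m.degree ≠ e.degree := fun hc => (mem_support_iff.1 hm) (h m hc)
  rw [E_monomial, Finsupp.sum, coeff_sum]
  refine Finset.sum_eq_zero fun p hp => ?_
  by_cases hpb : p.1 = b
  · rw [if_pos hpb, coeff_monomial, if_neg]
    intro hcon
    apply hme
    have hle : Finsupp.single p 1 ≤ m := by
      rw [Finsupp.single_le_iff]
      exact Nat.one_le_iff_ne_zero.2 (Finsupp.mem_support_iff.1 hp)
    have h2 : (m - Finsupp.single p 1 + Finsupp.single (a, p.2) 1).degree = e.degree := by
      rw [hcon]
    have h3 : (m - Finsupp.single p 1 + Finsupp.single p 1).degree = m.degree := by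
      rw [tsub_add_cancel_of_le hle]
    rw [map_add, Finsupp.degree_single] at h2 h3
    rw [← h3, ← h2]
  · rw [if_neg hpb, coeff_zero]

private theorem rc23_supp (z : Fin N × C → ℚ) {s : Set (Fin N × C)} {p : Pol N C}
    (hp : p ∈ supported ℚ s) : rc23_tau z p ∈ supported ℚ s := by
  have h1 : (supported ℚ s).map (rc23_tau z) ≤ supported ℚ s := by
    rw [supported_eq_adjoin_X, AlgHom.map_adjoin]
    apply Algebra.adjoin_le
    rintro _ ⟨_, ⟨q, hq, rfl⟩, rfl⟩
    rw [rc23_tau_X]
    refine Subalgebra.add_mem _ (Algebra.subset_adjoin ⟨q, hq, rfl⟩) ?_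
    exact Subalgebra.algebraMap_mem _ (z q)
  exact h1 ⟨p, hp, rfl⟩

/-- A stable space of polynomials in the columns `c 0, …, c (m-1)` which vanish at the point is
zero. -/
theorem eq_bot_of_eval (c : ℕ → C) (m : ℕ) (hm : m ≤ N) (hc : Set.InjOn c (Set.Iio m))
    {W : Submodule ℚ (Pol N C)} (hW : Stable W)
    (hs : ∀ p ∈ W, p ∈ supported ℚ {q : Fin N × C | q.2 ∈ c '' Set.Iio m})
    (h : ∀ p ∈ W, eval (pt N c m) p = 0) : W = ⊥ := by
  classical
  have key : ∀ k : ℕ, ∀ p ∈ W, ∀ d : Fin N × C →₀ ℕ, d.degree = k →
      coeff d (rc23_tau (pt N c m) p) = 0 := by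
    intro k
    induction k with
    | zero =>
      intro p hp d hd
      have hd0 : d = 0 := (Finsupp.degree_eq_zero_iff d).1 hd
      rw [hd0, rc23_zero]
      exact h p hp
    | succ k ih =>
      intro p hp d hd
      have hd0 : d ≠ 0 := by
        rintro rfl
        rw [map_zero] at hd
        omega
      obtain ⟨u, hu⟩ := Finsupp.support_nonempty_iff.2 hd0
      have hu' : d u ≠ 0 := Finsupp.mem_support_iff.1 hu
      by_cases hus : u.2 ∈ c '' Set.Iio m
      · obtain ⟨i, hi, hiu⟩ := hus
        have hi' : i < m := hi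
        have hle : Finsupp.single u 1 ≤ d := by
          rw [Finsupp.single_le_iff]
          exact Nat.one_le_iff_ne_zero.2 hu'
        obtain ⟨e, rfl⟩ : ∃ e, d = e + Finsupp.single u 1 :=
          ⟨d - Finsupp.single u 1, (tsub_add_cancel_of_le hle).symm⟩
        have hek : e.degree = k := by
          rw [map_add, Finsupp.degree_single] at hd
          omega
        have h1 := ih (E ⟨i, hi'.trans_le hm⟩ u.1 p) (hW.act _ _ p hp) e hek
        rw [rc23_tauE (pt N c m) (u := u), coeff_add, rc23_coeff, zero_add, coeff_pderiv] at h1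
        · have h2 : ((e u : ℚ) + 1) ≠ 0 := by positivity
          exact (mul_eq_zero.1 h1).resolve_right h2
        · intro d' hd'
          exact ih p hp d' (hd'.trans hek)
        · intro q
          rw [pderiv_X]
          by_cases hq : q = u
          · subst hq
            rw [if_pos rfl, Pi.single_eq_same, pt, if_pos ⟨hi', hiu⟩, map_one]
          · rw [Pi.single_eq_of_ne hq]
            by_cases hq1 : q.1 = u.1
            · rw [if_pos hq1, pt, if_neg, map_zero]
              rintro ⟨-, h3⟩
              apply hq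
              exact Prod.ext hq1 (h3.symm.trans hiu)
            · rw [if_neg hq1]
      · by_contra hcon
        have h1 := rc23_supp (pt N c m) (hs p hp)
        rw [mem_supported] at h1
        have h2 : u ∈ (rc23_tau (pt N c m) p).vars := by
          rw [mem_vars_iff_mem_support]
          exact ⟨d, mem_support_iff.2 hcon, hu⟩
        exact hus (h1 h2)
  rw [Submodule.eq_bot_iff]
  intro p hp
  apply rc23_inj (pt N c m)
  ext d
  rw [coeff_zero]
  exact key _ p hp d rfl

private theorem RC24_eval (x : Fin N × C → ℚ) (D D' : Derivation ℚ (Pol N C) (Pol N C))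
    (h : ∀ q, eval x (D (X q)) = eval x (D' (X q))) (p : Pol N C) :
    eval x (D p) = eval x (D' p) := by
  induction p using MvPolynomial.induction_on with
  | C r => rw [← MvPolynomial.algebraMap_eq, D.map_algebraMap, D'.map_algebraMap]
  | add p q hp hq => rw [map_add, map_add, map_add, map_add, hp, hq]
  | mul_X p q hp =>
    rw [D.leibniz, D'.leibniz, smul_eq_mul, smul_eq_mul, smul_eq_mul, smul_eq_mul, map_add,
      map_add, map_mul, map_mul, map_mul, map_mul, hp, h]

private theorem RC24_low {f : Pol N C} {c d : Fin N} (hcd : c < d) {p : Pol N C}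
    (hp : p ∈ cyc f) : E d c p ∈ cyc f := by
  induction hp using Submodule.span_induction with
  | mem p hp => exact Submodule.subset_span (Word.step c d p hcd hp)
  | zero =>
    rw [map_zero]
    exact zero_mem _
  | add p q _ _ hp hq =>
    rw [map_add]
    exact add_mem hp hq
  | smul r p _ hp =>
    rw [Derivation.map_smul]
    exact Submodule.smul_mem _ _ hp

private theorem RC24_act {f : Pol N C} {lam : Fin N →₀ ℕ} (hf : IsHW f lam) {p : Pol N C}
    (hp : Word f p) : ∀ a b, E a b p ∈ cyc f := by
  induction hp with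
  | base =>
    intro a b
    rcases lt_trichotomy a b with h | h | h
    · rw [hf.up a b h]
      exact zero_mem _
    · subst h
      rw [E_diag a hf.wt]
      exact Submodule.smul_mem _ _ (mem_cyc f)
    · exact Submodule.subset_span (Word.step b a f h Word.base)
  | step c d p hcd hp ih =>
    intro a b
    have h1 := E_comm a b d c p
    rw [sub_eq_iff_eq_add] at h1
    rw [h1]
    refine add_mem (sub_mem ?_ ?_) (RC24_low hcd (ih a b))
    · split_ifs
      · exact ih _ _
      · exact zero_mem _
    · split_ifs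
      · exact ih _ _
      · exact zero_mem _

private theorem RC24_stable {W : Submodule ℚ (Pol N C)} (hW : Stable W) {f : Pol N C}
    {lam : Fin N →₀ ℕ} (hf : IsHW f lam) (hfW : f ∈ W) : Stable (cyc f) where
  fin := by
    have h1 : FiniteDimensional ℚ ↥W := Module.Finite.iff_fg.2 hW.fin
    exact Module.Finite.iff_fg.1 (Submodule.finiteDimensional_of_le (cyc_le hW hfW))
  hom p hp β := hom_of_span (fun q hq => by
    obtain ⟨γ, h1, -⟩ := Word.wt hf hq
    exact ⟨γ, h1⟩) hp β
  act a b p hp := by
    induction hp using Submodule.span_induction with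
    | mem p hp => exact RC24_act hf hp a b
    | zero =>
      rw [map_zero]
      exact zero_mem _
    | add p q _ _ hp hq =>
      rw [map_add]
      exact add_mem hp hq
    | smul r p _ hp =>
      rw [Derivation.map_smul]
      exact Submodule.smul_mem _ _ hp

private theorem RC24_shape {s : Multiset ℕ} {m : ℕ} (hs : ∀ k ∈ s, k ≤ m) {i : ℕ} (hi : m ≤ i) :
    shape s i = 0 := by
  unfold shape
  rw [Multiset.countP_eq_zero]
  intro k hk
  have := hs k hk
  omega

/-- Highest weight vectors of `V` do not vanish at the point and have weight `shape s`. -/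
theorem hw_V (c : ℕ → C) (m : ℕ) (hm : m ≤ N) (hc : Set.InjOn c (Set.Iio m)) (s : Multiset ℕ)
    (hs : ∀ k ∈ s, k ≤ m) {f : Pol N C} {lam : Fin N →₀ ℕ} (hf : IsHW f lam)
    (hfV : f ∈ V N c s) : eval (pt N c m) f ≠ 0 ∧ ext lam = shape s := by
  classical
  have hV : Stable (V N c s) := stable_V c s
  have hle : cyc f ≤ V N c s := cyc_le hV hfV
  have hne : eval (pt N c m) f ≠ 0 := by
    intro h0
    have h1 : cyc f = ⊥ := by
      refine eq_bot_of_eval c m hm hc (RC24_stable hV hf hfV)
        (fun p hp => V_supported c m s hs (hle hp)) fun p hp => ?_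
      induction hp using Submodule.span_induction with
      | mem p hp =>
        cases hp with
        | base => exact h0
        | step a b q hab hq =>
          exact eval_E_low c m hc s hs hab (hle (Submodule.subset_span hq))
      | zero => rw [map_zero]
      | add p q _ _ hp hq => rw [map_add, hp, hq, add_zero]
      | smul r p _ hp => rw [MvPolynomial.smul_eval, hp, mul_zero]
    have h2 := mem_cyc f
    rw [h1, Submodule.mem_bot] at h2
    exact hf.ne h2
  refine ⟨hne, ?_⟩
  funext i
  unfold ext
  split_ifs with hi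
  · obtain ⟨a, ha⟩ : ∃ a : Fin N, a = ⟨i, hi⟩ := ⟨_, rfl⟩
    rw [← ha]
    have hai : (a : ℕ) = i := by rw [ha]
    have h1 : eval (pt N c m) (E a a f) = (lam a : ℚ) * eval (pt N c m) f := by
      rw [E_diag a hf.wt, MvPolynomial.smul_eval]
    by_cases him : i < m
    · have h2 : eval (pt N c m) (E a a f) = eval (pt N c m) (R (c i) (c i) f) := by
        refine RC24_eval _ _ _ (fun q => ?_) f
        obtain ⟨r, k⟩ := q
        rw [E_X]
        have e1 : (R (c i) (c i) (X (r, k)) : Pol N C) = if k = c i then X (r, c i) else 0 := by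
          unfold R
          rw [mkDerivation_X]
        rw [e1]
        by_cases hr : r = a
        · subst hr
          rw [if_pos rfl, eval_X]
          by_cases hk : k = c i
          · rw [if_pos hk, eval_X, hk]
          · rw [if_neg hk, map_zero]
            unfold pt
            rw [if_neg]
            rintro ⟨-, h3⟩
            exact hk (by rw [← hai]; exact h3.symm)
        · rw [if_neg hr, map_zero]
          split_ifs with hk
          · rw [eval_X]
            unfold pt
            rw [if_neg]
            rintro ⟨h3, h4⟩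
            have h5 : (r : ℕ) = i := hc h3 him h4
            exact hr (Fin.ext (h5.trans hai.symm))
          · rw [map_zero]
      rw [h1, R_V_diag c m hc s hs him hfV, MvPolynomial.smul_eval] at h2
      exact_mod_cast mul_right_cancel₀ hne h2
    · have h2 : eval (pt N c m) (E a a f) = eval (pt N c m) ((0 : Derivation ℚ (Pol N C) (Pol N C)) f) := by
        refine RC24_eval _ _ _ (fun q => ?_) f
        obtain ⟨r, k⟩ := q
        rw [E_X, Derivation.zero_apply, map_zero]
        split_ifs with hr
        · rw [eval_X]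
          unfold pt
          rw [if_neg]
          rintro ⟨h3, -⟩
          exact him (by rw [← hai]; exact h3)
        · rw [map_zero]
      rw [h1, Derivation.zero_apply, map_zero] at h2
      have h3 := (mul_eq_zero.1 h2).resolve_right hne
      rw [RC24_shape hs (not_lt.1 him)]
      exact_mod_cast h3
  · rw [RC24_shape hs (hm.trans (not_lt.1 hi))]

/-- The character of the span of the products of flag minors. -/
theorem ch_V [Finite C] (c : ℕ → C) (m : ℕ) (hm : m ≤ N) (hc : Set.InjOn c (Set.Iio m))
    (s : Multiset ℕ) (hs : ∀ k ∈ s, k ≤ m) : ch (V N c s) = S N (shape s) := by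
  classical
  have hV : Stable (V N c s) := stable_V c s
  obtain ⟨f, hfV, lam, hf⟩ := exists_hw hV (V_ne_bot c m hm hc s hs)
  obtain ⟨hne, hlam⟩ := hw_V c m hm hc s hs hf hfV
  have hC : Stable (cyc f) := cyc_stable hf
  have hbot : V N c s ⊓ orth (cyc f) = ⊥ := by
    by_contra hcon
    obtain ⟨f', hf', lam', hw'⟩ := exists_hw (hC.inf_orth hV) hcon
    obtain ⟨hf'V, hf'o⟩ := Submodule.mem_inf.1 hf'
    obtain ⟨hne', hlam'⟩ := hw_V c m hm hc s hs hw' hf'V
    have hl : lam = lam' := by
      ext a
      have h1 := congrFun (hlam.trans hlam'.symm) a.1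
      unfold ext at h1
      rw [dif_pos a.2, dif_pos a.2] at h1
      exact h1
    subst hl
    have hg : eval (pt N c m) f' • f - eval (pt N c m) f • f' = 0 := by
      by_contra hg0
      have hgw : IsHW (eval (pt N c m) f' • f - eval (pt N c m) f • f') lam := by
        refine ⟨hg0, sub_mem (Submodule.smul_mem _ _ hf.wt) (Submodule.smul_mem _ _ hw'.wt),
          fun a b hab => ?_⟩
        rw [map_sub, Derivation.map_smul, Derivation.map_smul, hf.up a b hab, hw'.up a b hab,
          smul_zero, smul_zero, sub_zero]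
      have h1 := (hw_V c m hm hc s hs hgw (sub_mem (Submodule.smul_mem _ _ hfV)
        (Submodule.smul_mem _ _ hf'V))).1
      apply h1
      rw [map_sub, MvPolynomial.smul_eval, MvPolynomial.smul_eval]
      ring
    have h2 : f' ∈ cyc f := by
      have h3 : f' = (eval (pt N c m) f)⁻¹ • (eval (pt N c m) f' • f) := by
        rw [sub_eq_zero.1 hg, smul_smul, inv_mul_cancel₀ hne, one_smul]
      rw [h3]
      exact Submodule.smul_mem _ _ (Submodule.smul_mem _ _ (mem_cyc f))
    exact (fis_pos hw'.ne).ne' (mem_orth.1 hf'o f' h2)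
  have hle : cyc f ≤ V N c s := cyc_le hV hfV
  have hge : V N c s ≤ cyc f := by
    intro v hv
    obtain ⟨a, b, hab⟩ := Submodule.codisjoint_iff_exists_add_eq.1 (isCompl_orth hC.fin).codisjoint v
    obtain ⟨ha, hb, e⟩ := hab
    have h1 : b ∈ V N c s ⊓ orth (cyc f) := by
      refine Submodule.mem_inf.2 ⟨?_, hb⟩
      have h2 : b = v - a := by rw [← e]; abel
      rw [h2]
      exact sub_mem hv (hle ha)
    rw [hbot, Submodule.mem_bot] at h1
    rw [← e, h1, add_zero]
    exact ha
  rw [le_antisymm hge hle, ch_cyc hf, hlam]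

end MP967.Rep
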