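import Pool.Agent.Lib.MP_967fd7_co.Rep.Fischer

/-! Highest weight vectors and the cyclic spaces they generate. -/

namespace MP967.Rep

open MvPolynomial

variable {N : ℕ} {C : Type}

/-- The height of a weight. -/
def hwt_g (β : Fin N →₀ ℕ) : ℕ := ∑ a : Fin N, (N - a.val) * β a

theorem hwt_g_add (β γ : Fin N →₀ ℕ) : hwt_g (β + γ) = hwt_g β + hwt_g γ := by
  unfold hwt_g
  rw [← Finset.sum_add_distrib]
  exact Finset.sum_congr rfl fun a _ => by rw [Finsupp.add_apply, mul_add]

theorem hwt_g_single (a : Fin N) : hwt_g (Finsupp.single a 1) = N - a.val := by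
  classical
  unfold hwt_g
  rw [Finset.sum_eq_single a]
  · rw [Finsupp.single_eq_same, mul_one]
  · intro b _ hb
    rw [Finsupp.single_eq_of_ne hb, mul_zero]
  · intro h
    exact absurd (Finset.mem_univ a) h

theorem exists_hw {W : Submodule ℚ (Pol N C)} (hW : Stable W) (h : W ≠ ⊥) :
    ∃ f ∈ W, ∃ lam, IsHW f lam := by
  classical
  obtain ⟨p, hpW, hp⟩ := Submodule.exists_mem_ne_zero_of_ne_bot h
  obtain ⟨β, hβ⟩ := exists_comp_ne hp
  have hmem : ∀ (q : Pol N C) (γ : Fin N →₀ ℕ), q ∈ W → q ∈ wtSpace C γ → q ≠ 0 →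
      mult W γ ≠ 0 := fun q γ h1 h2 h3 h4 => h3 ((mult_eq_zero_iff hW.fin).1 h4 q h1 h2)
  have h0 : ({β | mult W β ≠ 0} : Set (Fin N →₀ ℕ)).Nonempty :=
    ⟨β, hmem _ β (hW.hom p hpW β) (comp_mem β p) hβ⟩
  obtain ⟨lam, hlam, hmax⟩ := Set.exists_max_image _ hwt_g (finite_mult hW.fin) h0
  have h1 : ¬ ∀ p ∈ W, p ∈ wtSpace C lam → p = 0 := fun h2 =>
    hlam ((mult_eq_zero_iff hW.fin).2 h2)
  push Not at h1
  obtain ⟨f, hfW, hfl, hf0⟩ := h1
  refine ⟨f, hfW, lam, hf0, hfl, fun a b hab => ?_⟩
  by_cases hb : lam b = 0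
  · exact E_zero hb hfl
  · by_contra hE
    have hle : Finsupp.single b 1 ≤ lam + Finsupp.single a 1 := by
      refine (Finsupp.single_le_iff.2 ?_).trans le_self_add
      exact Nat.one_le_iff_ne_zero.2 hb
    have hg : lam + Finsupp.single a 1 =
        (lam + Finsupp.single a 1 - Finsupp.single b 1) + Finsupp.single b 1 :=
      (tsub_add_cancel_of_le hle).symm
    have h2 := hmax _ (hmem _ _ (hW.act a b f hfW) (E_mem hg hfl) hE)
    have h3 := congrArg hwt_g hg
    rw [hwt_g_add, hwt_g_add, hwt_g_single, hwt_g_single] at h3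
    have h4 : (a : ℕ) < (b : ℕ) := hab
    have h5 := b.2
    omega

theorem IsHW.anti {f : Pol N C} {lam : Fin N →₀ ℕ} (hf : IsHW f lam) {a b : Fin N}
    (hab : a ≤ b) : lam b ≤ lam a := by
  rcases hab.eq_or_lt with rfl | hab
  · exact le_rfl
  have h1 : fis (E b a f) (E b a f) = ((lam a : ℚ) - lam b) * fis f f := by
    have h2 := E_comm a b b a f
    rw [if_pos rfl, if_pos rfl, hf.up a b hab, map_zero, sub_zero, E_diag a hf.wt,
      E_diag b hf.wt, ← sub_smul] at h2
    rw [fis_E, h2, map_smul, smul_eq_mul]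
  have h3 : 0 ≤ fis (E b a f) (E b a f) := by
    by_cases h0 : E b a f = 0
    · rw [h0, map_zero]
    · exact (fis_pos h0).le
  have h4 := fis_pos hf.ne
  rw [h1] at h3
  have h5 := nonneg_of_mul_nonneg_left h3 h4
  rw [sub_nonneg] at h5
  exact_mod_cast h5

/-- A weight as a function on `ℕ`. -/
def ext (lam : Fin N →₀ ℕ) (i : ℕ) : ℕ := if h : i < N then lam ⟨i, h⟩ else 0

/-- Partitions with at most `N` parts, as functions. -/
def IsPart (N : ℕ) (A : ℕ → ℕ) : Prop := Antitone A ∧ ∀ r, N ≤ r → A r = 0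

theorem ext_isPart {f : Pol N C} {lam : Fin N →₀ ℕ} (hf : IsHW f lam) : IsPart N (ext lam) := by
  refine ⟨fun i j hij => ?_, fun r hr => dif_neg (not_lt.2 hr)⟩
  unfold ext
  by_cases hj : j < N
  · rw [dif_pos hj, dif_pos (hij.trans_lt hj)]
    exact hf.anti hij
  · rw [dif_neg hj]
    exact Nat.zero_le _

theorem rc6_dom_refl (lam : Fin N →₀ ℕ) : Dom lam lam := ⟨fun _ => le_rfl, rfl⟩

/-- The sum over an initial segment of a unit vector. -/
theorem rc6_single (a : Fin N) (k : ℕ) :
    ∑ i : Fin N with i.val < k, (Finsupp.single a 1 : Fin N →₀ ℕ) i =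
      if a.val < k then 1 else 0 := by
  classical
  rw [Finset.sum_filter]
  rw [Finset.sum_eq_single a]
  · rw [Finsupp.single_eq_same]
  · intro b _ hb
    rw [Finsupp.single_eq_of_ne hb, ite_self]
  · intro h
    exact absurd (Finset.mem_univ a) h

theorem rc6_move {a b : Fin N} (hab : a < b) {β γ lam : Fin N →₀ ℕ} (hβ : Dom β lam)
    (h : β + Finsupp.single b 1 = γ + Finsupp.single a 1) : Dom γ lam ∧ γ ≠ lam := by
  have h1 : ∀ k : ℕ, ∑ i : Fin N with i.val < k, β i + (if b.val < k then 1 else 0) =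
      ∑ i : Fin N with i.val < k, γ i + (if a.val < k then 1 else 0) := by
    intro k
    rw [← rc6_single b k, ← rc6_single a k, ← Finset.sum_add_distrib, ← Finset.sum_add_distrib]
    refine Finset.sum_congr rfl fun i _ => ?_
    rw [← Finsupp.add_apply, h, Finsupp.add_apply]
  have h2 : ∀ δ : Fin N →₀ ℕ, ∑ i : Fin N with i.val < N, δ i = ∑ i, δ i := by
    intro δ
    rw [Finset.filter_true_of_mem fun i _ => i.2]
  have hab' : a.val < b.val := hab
  refine ⟨⟨fun k => ?_, ?_⟩, ?_⟩
  · have h3 := h1 k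
    have h4 := hβ.1 k
    by_cases hb : b.val < k
    · rw [if_pos hb, if_pos (hab'.trans hb)] at h3
      omega
    · rw [if_neg hb] at h3
      omega
  · have h3 := h1 N
    rw [if_pos b.2, if_pos a.2, h2, h2] at h3
    have h4 := hβ.2
    omega
  · intro h5
    have h3 := h1 (a.val + 1)
    rw [if_neg (by omega), if_pos (Nat.lt_succ_self _), h5] at h3
    have h4 := hβ.1 (a.val + 1)
    omega

/-- The words are weight vectors, with weights below `lam`, and `f` is the only one of weight
`lam`. -/
theorem Word.wt {f : Pol N C} {lam : Fin N →₀ ℕ} (hf : IsHW f lam) {p : Pol N C}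
    (hp : Word f p) : ∃ β, p ∈ wtSpace C β ∧ Dom β lam ∧ (p = f ∨ p = 0 ∨ β ≠ lam) := by
  induction hp with
  | base => exact ⟨lam, hf.wt, rc6_dom_refl lam, Or.inl rfl⟩
  | step a b p hab _ ih =>
    obtain ⟨β, h1, h2, _⟩ := ih
    by_cases ha : β a = 0
    · rw [E_zero ha h1]
      exact ⟨β, Submodule.zero_mem _, h2, Or.inr (Or.inl rfl)⟩
    · have hle : Finsupp.single a 1 ≤ β + Finsupp.single b 1 := by
        refine (Finsupp.single_le_iff.2 ?_).trans le_self_add
        exact Nat.one_le_iff_ne_zero.2 ha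
      have hg : β + Finsupp.single b 1 =
          (β + Finsupp.single b 1 - Finsupp.single a 1) + Finsupp.single a 1 :=
        (tsub_add_cancel_of_le hle).symm
      obtain ⟨h4, h5⟩ := rc6_move hab h2 hg
      exact ⟨_, E_mem hg h1, h4, Or.inr (Or.inr h5)⟩

theorem mem_cyc (f : Pol N C) : f ∈ cyc f := Submodule.subset_span Word.base

theorem rc6_lower {f p : Pol N C} {a b : Fin N} (hab : a < b) (hp : p ∈ cyc f) :
    E b a p ∈ cyc f := by
  induction hp using Submodule.span_induction with
  | mem p hp => exact Submodule.subset_span (Word.step a b p hab hp)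
  | zero => rw [map_zero]; exact Submodule.zero_mem _
  | add x y _ _ hx hy => rw [map_add]; exact Submodule.add_mem _ hx hy
  | smul r x _ hx => rw [Derivation.map_smul]; exact Submodule.smul_mem _ _ hx

theorem rc6_word {f : Pol N C} {lam : Fin N →₀ ℕ} (hf : IsHW f lam) {p : Pol N C}
    (hp : Word f p) : ∀ x y : Fin N, E x y p ∈ cyc f := by
  induction hp with
  | base =>
    intro x y
    rcases lt_trichotomy x y with h | h | h
    · rw [hf.up x y h]
      exact Submodule.zero_mem _
    · rw [h, E_diag y hf.wt]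
      exact Submodule.smul_mem _ _ (mem_cyc f)
    · exact rc6_lower h (mem_cyc f)
  | step a b p hab _ ih =>
    intro x y
    have h1 := E_comm x y b a p
    have h2 : E x y (E b a p) = E b a (E x y p) + ((if y = b then E x a p else 0) -
        (if a = x then E b y p else 0)) := by
      rw [← h1]
      ring
    rw [h2]
    refine Submodule.add_mem _ (rc6_lower hab (ih x y)) (Submodule.sub_mem _ ?_ ?_)
    · split_ifs
      · exact ih x a
      · exact Submodule.zero_mem _
    · split_ifs
      · exact ih b y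
      · exact Submodule.zero_mem _

theorem rc6_degree {n : ℕ} {β : Fin N →₀ ℕ} (hβ : ∑ a, β a = n) {m : Fin N × C →₀ ℕ}
    (hm : Finsupp.weight rowWt m = β) : m.degree = n := by
  classical
  rw [← hβ, ← hm]
  simp only [weight_apply, Finsupp.sum, Finsupp.degree]
  rw [Finset.sum_comm]
  refine Finset.sum_congr rfl fun p _ => ?_
  rw [Finset.sum_ite_eq Finset.univ p.1 (fun _ => m p), if_pos (Finset.mem_univ _)]

theorem cyc_stable [Finite C] {f : Pol N C} {lam : Fin N →₀ ℕ} (hf : IsHW f lam) :
    Stable (cyc f) := by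
  classical
  refine ⟨?_, fun p hp β => ?_, fun a b p hp => ?_⟩
  · set s : Set (Fin N × C →₀ ℕ) := {m | m.degree = ∑ a, lam a} with hs
    have hfin : s.Finite := Finsupp.finite_of_degree_eq _
    have h1 : cyc f ≤ Submodule.span ℚ ((fun m => (monomial m 1 : Pol N C)) '' s) := by
      refine Submodule.span_le.2 fun p hp => ?_
      obtain ⟨β, h2, h3, _⟩ := Word.wt hf hp
      rw [SetLike.mem_coe, p.as_sum]
      refine Submodule.sum_mem _ fun m hm => ?_
      have h4 : (monomial m (coeff m p) : Pol N C) = coeff m p • monomial m 1 := by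
        rw [smul_monomial, smul_eq_mul, mul_one]
      rw [h4]
      refine Submodule.smul_mem _ _ (Submodule.subset_span ⟨m, ?_, rfl⟩)
      exact rc6_degree h3.2 (mem_wtSpace.1 h2 m (MvPolynomial.mem_support_iff.1 hm))
    have h5 : FiniteDimensional ℚ
        ↥(Submodule.span ℚ ((fun m => (monomial m 1 : Pol N C)) '' s)) :=
      FiniteDimensional.span_of_finite ℚ (hfin.image _)
    exact Module.Finite.iff_fg.1 (Submodule.finiteDimensional_of_le h1)
  · exact hom_of_span (fun q hq => (Word.wt hf hq).imp fun β h => h.1) hp β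
  · induction hp using Submodule.span_induction with
    | mem p hp => exact rc6_word hf hp a b
    | zero => rw [map_zero]; exact Submodule.zero_mem _
    | add x y _ _ hx hy => rw [map_add]; exact Submodule.add_mem _ hx hy
    | smul r x _ hx => rw [Derivation.map_smul]; exact Submodule.smul_mem _ _ hx

theorem cyc_le {W : Submodule ℚ (Pol N C)} (hW : Stable W) {f : Pol N C} (hf : f ∈ W) :
    cyc f ≤ W := by
  refine Submodule.span_le.2 fun p hp => ?_
  have hp' : Word f p := hp
  induction hp' with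
  | base => exact hf
  | step a b p _ h ih => exact hW.act b a p (ih h)

theorem rc6_comp {f : Pol N C} {P : Submodule ℚ (Pol N C)} {β : Fin N →₀ ℕ}
    (h : ∀ q, Word f q → comp β q ∈ P) {p : Pol N C} (hp : p ∈ cyc f)
    (hβ : p ∈ wtSpace C β) : p ∈ P := by
  rw [← comp_of_mem hβ]
  clear hβ
  induction hp using Submodule.span_induction with
  | mem p hp => exact h p hp
  | zero => rw [map_zero]; exact Submodule.zero_mem _
  | add x y _ _ hx hy => rw [map_add]; exact Submodule.add_mem _ hx hy
  | smul r x _ hx => rw [map_smul]; exact Submodule.smul_mem _ _ hx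

theorem cyc_dom {f : Pol N C} {lam : Fin N →₀ ℕ} (hf : IsHW f lam) {β : Fin N →₀ ℕ}
    (hβ : mult (cyc f) β ≠ 0) : Dom β lam := by
  by_contra h
  apply hβ
  have h1 : cyc f ⊓ wtSpace C β = ⊥ := by
    rw [Submodule.eq_bot_iff]
    intro p hp
    obtain ⟨hp1, hp2⟩ := Submodule.mem_inf.1 hp
    have h2 : p ∈ (⊥ : Submodule ℚ (Pol N C)) := by
      refine rc6_comp (fun q hq => ?_) hp1 hp2
      obtain ⟨γ, h3, h4, _⟩ := Word.wt hf hq
      have h5 : γ ≠ β := by
        rintro rfl
        exact h h4
      rw [comp_of_mem_ne h3 h5]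
      exact Submodule.zero_mem _
    exact (Submodule.mem_bot ℚ).1 h2
  unfold mult
  rw [h1, finrank_bot]

theorem cyc_top {f : Pol N C} {lam : Fin N →₀ ℕ} (hf : IsHW f lam) : mult (cyc f) lam = 1 := by
  have h1 : cyc f ⊓ wtSpace C lam = Submodule.span ℚ {f} := by
    apply le_antisymm
    · intro p hp
      obtain ⟨hp1, hp2⟩ := Submodule.mem_inf.1 hp
      refine rc6_comp (fun q hq => ?_) hp1 hp2
      obtain ⟨γ, h3, _, h4⟩ := Word.wt hf hq
      rcases h4 with h4 | h4 | h4
      · rw [h4, comp_of_mem hf.wt]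
        exact Submodule.mem_span_singleton_self f
      · rw [h4, map_zero]
        exact Submodule.zero_mem _
      · rw [comp_of_mem_ne h3 h4]
        exact Submodule.zero_mem _
    · rw [Submodule.span_le, Set.singleton_subset_iff]
      exact Submodule.mem_inf.2 ⟨mem_cyc f, hf.wt⟩
  unfold mult
  rw [h1, finrank_span_singleton hf.ne]

/-- The eigenvalue of the Casimir operator. -/
noncomputable def cas (lam : Fin N →₀ ℕ) : ℚ :=
  ∑ a, (lam a : ℚ) ^ 2 + ∑ p ∈ Finset.univ.filter (fun p : Fin N × Fin N => p.1 < p.2),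
    ((lam p.1 : ℚ) - lam p.2)

/-- the Casimir operator -/
noncomputable def RC7_K (N : ℕ) (C : Type) : Pol N C →ₗ[ℚ] Pol N C :=
  ∑ a : Fin N, ∑ b : Fin N, (E a b : Derivation ℚ (Pol N C) (Pol N C)).toLinearMap ∘ₗ
    (E b a : Derivation ℚ (Pol N C) (Pol N C)).toLinearMap

theorem RC7_apply (p : Pol N C) : RC7_K N C p = ∑ a, ∑ b, E a b (E b a p) := by
  rw [RC7_K, LinearMap.sum_apply]
  refine Finset.sum_congr rfl fun a _ => ?_
  rw [LinearMap.sum_apply]
  rfl

theorem RC7_comm (c d : Fin N) (p : Pol N C) :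
    RC7_K N C (E c d p) = E c d (RC7_K N C p) := by
  rw [← sub_eq_zero, RC7_apply, RC7_apply, map_sum, ← Finset.sum_sub_distrib]
  have h1 : ∀ a : Fin N, ∑ b, E a b (E b a (E c d p)) - E c d (∑ b, E a b (E b a p)) =
      ∑ b, ((if a = c then E a b (E b d p) else 0) - (if d = b then E a b (E c a p) else 0) +
        ((if b = c then E a d (E b a p) else 0) - (if d = a then E c b (E b a p) else 0))) := by
    intro a
    rw [map_sum, ← Finset.sum_sub_distrib]
    refine Finset.sum_congr rfl fun b _ => ?_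
    have h2 := E_comm b a c d p
    have h3 := E_comm a b c d (E b a p)
    have h4 : E b a (E c d p) = E c d (E b a p) + ((if a = c then E b d p else 0) -
        (if d = b then E c a p else 0)) := by
      rw [← h2]
      ring
    rw [h4, map_add, map_sub, add_sub_right_comm, h3]
    have h5 : E a b (if a = c then E b d p else 0) = if a = c then E a b (E b d p) else 0 := by
      split_ifs
      · rfl
      · exact map_zero _
    have h6 : E a b (if d = b then E c a p else 0) = if d = b then E a b (E c a p) else 0 := by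
      split_ifs
      · rfl
      · exact map_zero _
    rw [h5, h6, add_comm]
  rw [Finset.sum_congr rfl fun a _ => h1 a]
  simp only [Finset.sum_add_distrib, Finset.sum_sub_distrib]
  have e1 : ∑ a : Fin N, ∑ b : Fin N, (if a = c then E a b (E b d p) else 0) =
      ∑ b : Fin N, E c b (E b d p) := by
    rw [Finset.sum_comm]
    refine Finset.sum_congr rfl fun b _ => ?_
    rw [Finset.sum_ite_eq' Finset.univ c (fun a => E a b (E b d p)), if_pos (Finset.mem_univ c)]
  have e2 : ∑ a : Fin N, ∑ b : Fin N, (if d = b then E a b (E c a p) else 0) =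
      ∑ a : Fin N, E a d (E c a p) := by
    refine Finset.sum_congr rfl fun a _ => ?_
    rw [Finset.sum_ite_eq Finset.univ d (fun b => E a b (E c a p)), if_pos (Finset.mem_univ d)]
  have e3 : ∑ a : Fin N, ∑ b : Fin N, (if b = c then E a d (E b a p) else 0) =
      ∑ a : Fin N, E a d (E c a p) := by
    refine Finset.sum_congr rfl fun a _ => ?_
    rw [Finset.sum_ite_eq' Finset.univ c (fun b => E a d (E b a p)), if_pos (Finset.mem_univ c)]
  have e4 : ∑ a : Fin N, ∑ b : Fin N, (if d = a then E c b (E b a p) else 0) =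
      ∑ b : Fin N, E c b (E b d p) := by
    rw [Finset.sum_comm]
    refine Finset.sum_congr rfl fun b _ => ?_
    rw [Finset.sum_ite_eq Finset.univ d (fun a => E c b (E b a p)), if_pos (Finset.mem_univ d)]
  rw [e1, e2, e3, e4]
  ring

theorem RC7_top {f : Pol N C} {lam : Fin N →₀ ℕ} (hf : IsHW f lam) :
    RC7_K N C f = cas lam • f := by
  have h1 : ∀ a b : Fin N, E a b (E b a f) = ((if a = b then (lam a : ℚ) ^ 2 else 0) +
      (if a < b then ((lam a : ℚ) - lam b) else 0)) • f := by
    intro a b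
    rcases lt_trichotomy a b with h | h | h
    · have h2 := E_comm a b b a f
      rw [if_pos rfl, if_pos rfl, hf.up a b h, map_zero, sub_zero, E_diag a hf.wt,
        E_diag b hf.wt] at h2
      rw [h2, if_neg h.ne, if_pos h, zero_add, sub_smul]
    · subst h
      rw [if_pos rfl, if_neg (lt_irrefl a), add_zero, E_diag a hf.wt, Derivation.map_smul,
        E_diag a hf.wt, smul_smul, pow_two]
    · rw [hf.up b a h, map_zero, if_neg h.ne', if_neg h.not_gt, add_zero, zero_smul]
  rw [RC7_apply]
  simp only [h1, ← Finset.sum_smul]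
  congr 1
  rw [cas, Finset.sum_filter, Fintype.sum_prod_type]
  simp only [Finset.sum_add_distrib]
  congr 1
  refine Finset.sum_congr rfl fun a _ => ?_
  rw [Finset.sum_ite_eq Finset.univ a (fun _ => (lam a : ℚ) ^ 2), if_pos (Finset.mem_univ a)]

theorem cyc_casimir {f : Pol N C} {lam : Fin N →₀ ℕ} (hf : IsHW f lam) {p : Pol N C}
    (hp : p ∈ cyc f) : ∑ a, ∑ b, E a b (E b a p) = cas lam • p := by
  rw [← RC7_apply]
  induction hp using Submodule.span_induction with
  | mem p hp =>
    induction hp with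
    | base => exact RC7_top hf
    | step a b p _ _ ih => rw [RC7_comm, ih, Derivation.map_smul]
  | zero => rw [map_zero, smul_zero]
  | add x y _ _ hx hy => rw [map_add, hx, hy, smul_add]
  | smul r x _ hx => rw [map_smul, hx, smul_comm]

end MP967.Rep
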