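import Pool.Agent.Lib.MP_967fd7_co.Rep.Highest

/-! Exponents of `a_δ ch M` (used in `Key.lean`). -/

namespace MP967.Rep

open MvPolynomial

variable {N : ℕ} {C : Type}

/-- The exponents `δ ∘ σ⁻¹`. -/
noncomputable def rc14d (σ : Equiv.Perm (Fin N)) : Fin N →₀ ℕ :=
  Finsupp.equivFunOnFinite.symm (fun i : Fin N => δ N (σ.symm i))

theorem rc14d_apply (σ : Equiv.Perm (Fin N)) (a : Fin N) : rc14d σ a = δ N (σ.symm a) := rfl

/-- Partial sums of a permuted `δ`. -/
theorem rc14d_le (σ : Equiv.Perm (Fin N)) (k : ℕ) :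
    ∑ a : Fin N with a.val < k, rc14d σ a ≤ ∑ a : Fin N with a.val < k, δ N a := by
  classical
  obtain ⟨A, hA⟩ : ∃ A : Finset (Fin N), A = Finset.univ.filter (fun a => a.val < k) := ⟨_, rfl⟩
  rw [← hA]
  have h1 : ∑ a ∈ A, rc14d σ a = ∑ b ∈ A.map σ.symm.toEmbedding, δ N b := by
    rw [Finset.sum_map]
    rfl
  rw [h1]
  obtain ⟨B, hB⟩ : ∃ B, B = A.map σ.symm.toEmbedding := ⟨_, rfl⟩
  rw [← hB]
  have hc : B.card = A.card := by rw [hB, Finset.card_map]
  have hcd : (B \ A).card = (A \ B).card := by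
    have h2 := Finset.card_sdiff_add_card_inter B A
    have h3 := Finset.card_sdiff_add_card_inter A B
    rw [Finset.inter_comm] at h3
    omega
  rw [← Finset.sum_inter_add_sum_sdiff B A, ← Finset.sum_inter_add_sum_sdiff A B,
    Finset.inter_comm A B]
  refine Nat.add_le_add_left ?_ _
  calc ∑ b ∈ B \ A, δ N b ≤ (B \ A).card • (N - 1 - k) := by
        refine Finset.sum_le_card_nsmul _ _ _ fun b hb => ?_
        have h2 := (Finset.mem_sdiff.1 hb).2
        rw [hA, Finset.mem_filter, not_and, not_lt] at h2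
        have h3 := h2 (Finset.mem_univ b)
        simp only [δ]
        omega
    _ = (A \ B).card • (N - 1 - k) := by rw [hcd]
    _ ≤ ∑ b ∈ A \ B, δ N b := by
        refine Finset.card_nsmul_le_sum _ _ _ fun b hb => ?_
        have h2 := (Finset.mem_sdiff.1 hb).1
        rw [hA, Finset.mem_filter] at h2
        have h3 := h2.2
        simp only [δ]
        omega

theorem rc14d_sum (σ : Equiv.Perm (Fin N)) : ∑ a, rc14d σ a = ∑ a : Fin N, δ N a :=
  Equiv.sum_comp σ.symm (fun a : Fin N => δ N a)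

/-- Functions with equal partial sums are equal. -/
theorem rc14_ext {u v : Fin N → ℕ}
    (h : ∀ k : ℕ, ∑ a : Fin N with a.val < k, u a = ∑ a : Fin N with a.val < k, v a) : u = v := by
  classical
  funext a
  have h1 : Finset.univ.filter (fun b : Fin N => b.val < a.val + 1) =
      insert a (Finset.univ.filter (fun b : Fin N => b.val < a.val)) := by
    ext b
    rw [Finset.mem_filter, Finset.mem_insert, Finset.mem_filter, Fin.ext_iff]
    simp only [Finset.mem_univ, true_and]
    omega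
  have h2 : a ∉ Finset.univ.filter (fun b : Fin N => b.val < a.val) := by
    rw [Finset.mem_filter]
    exact fun h => lt_irrefl _ h.2
  have h3 := h (a.val + 1)
  rw [h1, Finset.sum_insert h2, Finset.sum_insert h2, h a.val] at h3
  exact Nat.add_right_cancel h3

/-- A permutation fixing `δ` is trivial. -/
theorem rc14d_inj {σ : Equiv.Perm (Fin N)} (h : ∀ a, rc14d σ a = δ N a) : σ = 1 := by
  have h1 : ∀ i : Fin N, σ.symm i = i := by
    intro i
    have h4 := h i
    rw [rc14d_apply] at h4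
    simp only [δ] at h4
    have h5 := i.2
    have h6 := (σ.symm i).2
    apply Fin.ext
    omega
  ext i
  have h4 := h1 (σ i)
  rw [Equiv.symm_apply_apply] at h4
  rw [← h4]
  rfl

theorem rc14_coeff (γ : Fin N →₀ ℕ) (F : MvPolynomial (Fin N) ℤ) :
    coeff γ (alt N (δ N) * F) = ∑ σ : Equiv.Perm (Fin N), ((Equiv.Perm.sign σ : ℤˣ) : ℤ) *
      (if rc14d σ ≤ γ then coeff (γ - rc14d σ) F else 0) := by
  unfold alt
  rw [Finset.sum_mul, coeff_sum]
  refine Finset.sum_congr rfl fun σ _ => ?_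
  rw [T3_rename_mon, smul_mul_assoc, coeff_smul, smul_eq_mul, coeff_monomial_mul']
  simp only [one_mul]
  rfl

/-- The exponents of `a_δ ch M` are sums of a permuted `δ` and a weight. -/
theorem rc14_exists [Finite C] {f : Pol N C} {lam : Fin N →₀ ℕ} (hf : IsHW f lam)
    {γ : Fin N →₀ ℕ} (hγ : coeff γ (alt N (δ N) * ch (cyc f)) ≠ 0) :
    ∃ (σ : Equiv.Perm (Fin N)) (β : Fin N →₀ ℕ), γ = rc14d σ + β ∧ Dom β lam := by
  rw [rc14_coeff] at hγ
  obtain ⟨σ, -, hσ⟩ := Finset.exists_ne_zero_of_sum_ne_zero hγ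
  by_cases h1 : rc14d σ ≤ γ
  · rw [if_pos h1] at hσ
    have h2 := right_ne_zero_of_mul hσ
    rw [coeff_ch (cyc_stable hf).fin] at h2
    exact ⟨σ, γ - rc14d σ, (add_tsub_cancel_of_le h1).symm,
      cyc_dom hf (fun h => h2 (by rw [h]; rfl))⟩
  · rw [if_neg h1, mul_zero] at hσ
    exact absurd rfl hσ

theorem rc14_sum [Finite C] {f : Pol N C} {lam : Fin N →₀ ℕ} (hf : IsHW f lam) {γ : Fin N →₀ ℕ}
    (hγ : coeff γ (alt N (δ N) * ch (cyc f)) ≠ 0) :
    (∀ k : ℕ, ∑ a with a.val < k, γ a ≤ ∑ a : Fin N with a.val < k, (lam a + δ N a)) ∧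
      ∑ a, γ a = ∑ a : Fin N, (lam a + δ N a) := by
  obtain ⟨σ, β, rfl, h1, h2⟩ := rc14_exists hf hγ
  constructor
  · intro k
    simp only [Finsupp.add_apply]
    rw [Finset.sum_add_distrib, Finset.sum_add_distrib, add_comm]
    exact Nat.add_le_add (h1 k) (rc14d_le σ k)
  · simp only [Finsupp.add_apply]
    rw [Finset.sum_add_distrib, Finset.sum_add_distrib, rc14d_sum, h2, add_comm]

theorem rc14_top [Finite C] {f : Pol N C} {lam : Fin N →₀ ℕ} (hf : IsHW f lam) :
    coeff (Finsupp.equivFunOnFinite.symm (fun a : Fin N => lam a + δ N a))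
      (alt N (δ N) * ch (cyc f)) = 1 := by
  classical
  obtain ⟨γ, hγ⟩ : ∃ γ : Fin N →₀ ℕ,
    γ = Finsupp.equivFunOnFinite.symm (fun a : Fin N => lam a + δ N a) := ⟨_, rfl⟩
  have hγa : ∀ a, γ a = lam a + δ N a := by
    intro a
    rw [hγ]
    rfl
  rw [← hγ, rc14_coeff, Finset.sum_eq_single (1 : Equiv.Perm (Fin N))]
  · have h1 : γ = rc14d 1 + lam := by
      ext a
      rw [hγa, Finsupp.add_apply, rc14d_apply, add_comm]
      rfl
    have h2 : rc14d 1 ≤ γ := by
      rw [h1]
      exact le_self_add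
    have h3 : γ - rc14d 1 = lam := by rw [h1, add_tsub_cancel_left]
    rw [if_pos h2, h3, coeff_ch (cyc_stable hf).fin, cyc_top hf]
    simp
  · intro σ _ hσ
    by_cases h1 : rc14d σ ≤ γ
    · rw [if_pos h1, coeff_ch (cyc_stable hf).fin]
      by_cases h2 : mult (cyc f) (γ - rc14d σ) = 0
      · rw [h2]
        simp
      · exfalso
        obtain ⟨h3, -⟩ := cyc_dom hf h2
        obtain ⟨β, hβ⟩ : ∃ β, β = γ - rc14d σ := ⟨_, rfl⟩
        rw [← hβ] at h3
        have h4 : ∀ a, β a + rc14d σ a = lam a + δ N a := by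
          intro a
          rw [← hγa, ← Finsupp.add_apply, hβ, tsub_add_cancel_of_le h1]
        refine hσ (rc14d_inj fun a => ?_)
        have h5 := rc14_ext (u := fun a => rc14d σ a) (v := fun a : Fin N => δ N a) fun k => ?_
        · exact congrFun h5 a
        · have h6 : ∑ a : Fin N with a.val < k, (β a + rc14d σ a) =
              ∑ a : Fin N with a.val < k, (lam a + δ N a) :=
            Finset.sum_congr rfl fun a _ => h4 a
          rw [Finset.sum_add_distrib, Finset.sum_add_distrib] at h6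
          have h7 := h3 k
          have h8 := rc14d_le σ k
          omega
    · rw [if_neg h1, mul_zero]
  · intro h
    exact absurd (Finset.mem_univ _) h

/-- The alternant is antisymmetric. -/
theorem rc14_alt (σ : Equiv.Perm (Fin N)) (v : ℕ → ℕ) :
    rename σ (alt N v) = ((Equiv.Perm.sign σ : ℤˣ) : ℤ) • alt N v := by
  unfold alt
  rw [map_sum, Finset.smul_sum]
  refine Fintype.sum_equiv (Equiv.mulLeft σ) _ _ fun τ => ?_
  rw [Equiv.coe_mulLeft, Equiv.Perm.sign_mul, map_zsmul, rename_rename, smul_smul, Units.val_mul,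
    ← mul_assoc, ← Units.val_mul, Int.units_mul_self, Units.val_one, one_mul]
  rfl

end MP967.Rep
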