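import Pool.Agent.Lib.MP_967fd7_co.Alt

/-! An antisymmetric polynomial whose exponents are all below `v`, with the same length as `v`,
is a multiple of the alternant of `v`. No representations here. -/

namespace MP967.Rep

open MvPolynomial

variable {N : ℕ}

/-- Sums over the first `k` indices. -/
theorem RC12_sum (g : ℕ → ℕ) {k : ℕ} (hk : k ≤ N) :
    ∑ a : Fin N with a.val < k, g a = ∑ i ∈ Finset.range k, g i := by
  rw [Finset.sum_filter, Fin.sum_univ_eq_sum_range (fun i => if i < k then g i else 0) N,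
    ← Finset.sum_filter]
  congr 1
  ext i
  simp only [Finset.mem_filter, Finset.mem_range]
  omega

/-- Abel summation for sequences. -/
theorem RC12_abel (g u : ℕ → ℤ) (hg : ∀ i, i + 1 < N → g (i + 1) < g i)
    (hu : ∀ i, i + 1 < N → u (i + 1) < u i)
    (h1 : ∀ k ≤ N, 0 ≤ ∑ i ∈ Finset.range k, (u i - g i))
    (h2 : ∑ i ∈ Finset.range N, (u i - g i) = 0)
    (h3 : ∑ i ∈ Finset.range N, (u i + g i) * (u i - g i) = 0) :
    ∀ k ≤ N, ∑ i ∈ Finset.range k, (u i - g i) = 0 := by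
  have h4 := Finset.sum_range_by_parts (fun i => u i + g i) (fun i => u i - g i) N
  simp only [smul_eq_mul] at h4
  rw [h3, h2, mul_zero, zero_sub, eq_comm, neg_eq_zero] at h4
  have h5 : ∀ i ∈ Finset.range (N - 1), 0 ≤
      -((u (i + 1) + g (i + 1) - (u i + g i)) * ∑ j ∈ Finset.range (i + 1), (u j - g j)) := by
    intro i hi
    rw [Finset.mem_range] at hi
    have h6 := hg i (by omega)
    have h7 := hu i (by omega)
    have h8 := h1 (i + 1) (by omega)
    have h9 : u (i + 1) + g (i + 1) - (u i + g i) ≤ 0 := by omega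
    have h10 := mul_nonneg (neg_nonneg.2 h9) h8
    rwa [neg_mul] at h10
  have h6 := (Finset.sum_eq_zero_iff_of_nonneg h5).1 (by rw [Finset.sum_neg_distrib, h4, neg_zero])
  intro k hk
  rcases Nat.eq_zero_or_pos k with rfl | hk0
  · rw [Finset.range_zero, Finset.sum_empty]
  · rcases Nat.lt_or_ge k N with hkN | hkN
    · have h7 := h6 (k - 1) (by rw [Finset.mem_range]; omega)
      have h8 := hg (k - 1) (by omega)
      have h9 := hu (k - 1) (by omega)
      rw [Nat.sub_add_cancel hk0] at h7 h8 h9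
      rw [neg_eq_zero, mul_eq_zero] at h7
      rcases h7 with h7 | h7
      · omega
      · exact h7
    · have h7 : k = N := by omega
      rw [h7, h2]

/-- Abel summation: a decreasing vector below the strictly decreasing vector `v`, of the same
norm, is `v`. -/
theorem eq_of_norm {γ v : Fin N → ℕ} (hγ : ∀ a b, a < b → γ b < γ a)
    (hv : ∀ a b, a < b → v b < v a)
    (h1 : ∀ k : ℕ, ∑ a with a.val < k, γ a ≤ ∑ a with a.val < k, v a)
    (h2 : ∑ a, γ a = ∑ a, v a) (h3 : ∑ a, γ a ^ 2 = ∑ a, v a ^ 2) : γ = v := by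
  obtain ⟨g, hg⟩ : ∃ g : ℕ → ℕ, ∀ a : Fin N, γ a = g a :=
    ⟨fun i => if h : i < N then γ ⟨i, h⟩ else 0, fun a => by
      simp only [Fin.is_lt, dif_pos, Fin.eta]⟩
  obtain ⟨u, hu⟩ : ∃ u : ℕ → ℕ, ∀ a : Fin N, v a = u a :=
    ⟨fun i => if h : i < N then v ⟨i, h⟩ else 0, fun a => by
      simp only [Fin.is_lt, dif_pos, Fin.eta]⟩
  simp only [hg, hu] at h1 h2 h3
  have key := RC12_abel (N := N) (fun i => (g i : ℤ)) (fun i => (u i : ℤ)) ?_ ?_ ?_ ?_ ?_
  · funext a
    have h4 := key (a + 1) a.2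
    have h5 := key a a.2.le
    rw [Finset.sum_range_succ, h5, zero_add] at h4
    rw [hg, hu]
    omega
  · intro i hi
    have := hγ ⟨i, by omega⟩ ⟨i + 1, hi⟩ (Fin.mk_lt_mk.2 (Nat.lt_succ_self i))
    rw [hg, hg] at this
    exact_mod_cast this
  · intro i hi
    have := hv ⟨i, by omega⟩ ⟨i + 1, hi⟩ (Fin.mk_lt_mk.2 (Nat.lt_succ_self i))
    rw [hu, hu] at this
    exact_mod_cast this
  · intro k hk
    have h4 := h1 k
    rw [RC12_sum g hk, RC12_sum u hk] at h4
    rw [Finset.sum_sub_distrib, sub_nonneg]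
    exact_mod_cast h4
  · rw [Fin.sum_univ_eq_sum_range, Fin.sum_univ_eq_sum_range] at h2
    rw [Finset.sum_sub_distrib, sub_eq_zero]
    exact_mod_cast h2.symm
  · rw [Fin.sum_univ_eq_sum_range (fun i => g i ^ 2), Fin.sum_univ_eq_sum_range (fun i => u i ^ 2)]
      at h3
    have h4 : ∀ i, ((u i : ℤ) + g i) * (u i - g i) = (u i : ℤ) ^ 2 - (g i : ℤ) ^ 2 := by
      intro i
      ring
    simp only [h4]
    rw [Finset.sum_sub_distrib, sub_eq_zero]
    exact_mod_cast h3.symm

/-- The coefficients of an antisymmetric polynomial. -/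
theorem RC12_coeff {G : MvPolynomial (Fin N) ℤ}
    (hG : ∀ σ : Equiv.Perm (Fin N), rename σ G = ((Equiv.Perm.sign σ : ℤˣ) : ℤ) • G)
    (σ : Equiv.Perm (Fin N)) (γ : Fin N →₀ ℕ) :
    coeff γ G = ((Equiv.Perm.sign σ : ℤˣ) : ℤ) *
      coeff (Finsupp.equivFunOnFinite.symm (fun a => γ (σ a))) G := by
  have h1 := coeff_rename_mapDomain (σ : Fin N → Fin N) σ.injective G
    (Finsupp.equivFunOnFinite.symm (fun a => γ (σ a)))
  have h2 : Finsupp.mapDomain σ (Finsupp.equivFunOnFinite.symm (fun a => γ (σ a))) = γ := by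
    ext i
    rw [Finsupp.mapDomain_equiv_apply]
    simp
  rw [h2, hG, coeff_smul, smul_eq_mul] at h1
  rw [← h1, ← mul_assoc, ← Int.cast_id (n := ((Equiv.Perm.sign σ : ℤˣ) : ℤ)), ← Int.cast_mul]
  have h3 : (((Equiv.Perm.sign σ : ℤˣ) : ℤ) * ((Equiv.Perm.sign σ : ℤˣ) : ℤ)) = 1 := by
    rw [← Units.val_mul, Int.units_mul_self, Units.val_one]
  rw [h3, Int.cast_one, one_mul]

theorem RC12_alt (v : ℕ → ℕ) (τ : Equiv.Perm (Fin N)) :
    rename τ (alt N v) = ((Equiv.Perm.sign τ : ℤˣ) : ℤ) • alt N v := by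
  unfold alt
  rw [map_sum, Finset.smul_sum]
  refine Fintype.sum_equiv (Equiv.mulLeft τ) _ _ fun σ => ?_
  rw [Equiv.coe_mulLeft, map_zsmul, rename_rename, smul_smul, Equiv.Perm.sign_mul, Units.val_mul,
    ← mul_assoc, ← Units.val_mul, Int.units_mul_self, Units.val_one, one_mul]
  rfl

theorem RC12_alt_coeff (v : ℕ → ℕ) (γ : Fin N →₀ ℕ) : coeff γ (alt N v) =
    ∑ σ : Equiv.Perm (Fin N), ((Equiv.Perm.sign σ : ℤˣ) : ℤ) *
      if (fun i => v (σ.symm i)) = (γ : Fin N → ℕ) then 1 else 0 := by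
  classical
  unfold alt
  rw [coeff_sum]
  refine Finset.sum_congr rfl fun σ _ => ?_
  rw [T3_rename_mon, coeff_smul, smul_eq_mul, coeff_monomial]
  congr 1
  refine if_congr ?_ rfl rfl
  rw [Equiv.symm_apply_eq]
  rfl

/-- Two decreasing rearrangements are equal. -/
theorem RC12_perm {v : ℕ → ℕ} (hv : ∀ a b, a < b → b < N → v b < v a) {γ : Fin N → ℕ}
    (hγ : ∀ a b, a < b → γ b < γ a) {σ : Equiv.Perm (Fin N)}
    (h : (fun i => v (σ.symm i)) = γ) : σ = 1 := by
  have h1 : StrictMono (σ.symm : Fin N → Fin N) := by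
    intro a b hab
    by_contra hc
    have h2 := hγ a b hab
    rw [← h] at h2
    simp only at h2
    rcases lt_or_eq_of_le (not_lt.1 hc) with h3 | h3
    · have h4 := hv _ _ h3 (σ.symm a).2
      omega
    · rw [h3] at h2
      exact absurd h2 (lt_irrefl _)
  have h2 : ∀ a : Fin N, a.val ≤ (σ.symm a).val := fun a => h1.le_apply
  have h3 : ∑ a : Fin N, a.val = ∑ a : Fin N, (σ.symm a).val :=
    (Equiv.sum_comp σ.symm (fun a : Fin N => a.val)).symm
  have h4 := (Finset.sum_eq_sum_iff_of_le (fun a _ => h2 a)).1 h3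
  ext a
  have h5 := h4 (σ a) (Finset.mem_univ _)
  rw [Equiv.symm_apply_apply] at h5
  rw [h5]
  rfl

/-- The coefficient at a multi-index with two equal entries. -/
theorem RC12_swap {G : MvPolynomial (Fin N) ℤ}
    (hG : ∀ σ : Equiv.Perm (Fin N), rename σ G = ((Equiv.Perm.sign σ : ℤˣ) : ℤ) • G)
    {γ : Fin N →₀ ℕ} {a b : Fin N} (hab : a ≠ b) (h : γ a = γ b) : coeff γ G = 0 := by
  have h1 := RC12_coeff hG (Equiv.swap a b) γ
  have h2 : Finsupp.equivFunOnFinite.symm (fun c => γ (Equiv.swap a b c)) = γ := by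
    ext c
    rw [Finsupp.equivFunOnFinite_symm_apply_apply]
    rcases eq_or_ne c a with rfl | hca
    · rw [Equiv.swap_apply_left, h]
    · rcases eq_or_ne c b with rfl | hcb
      · rw [Equiv.swap_apply_right, h]
      · rw [Equiv.swap_apply_of_ne_of_ne hca hcb]
  rw [h2, Equiv.Perm.sign_swap hab] at h1
  simp at h1
  omega

theorem alt_of_eigen (G : MvPolynomial (Fin N) ℤ) (v : ℕ → ℕ)
    (hv : ∀ a b, a < b → b < N → v b < v a)
    (hG : ∀ σ : Equiv.Perm (Fin N), rename σ G = ((Equiv.Perm.sign σ : ℤˣ) : ℤ) • G)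
    (h1 : ∀ γ : Fin N →₀ ℕ, coeff γ G ≠ 0 → (∀ k : ℕ, ∑ a with a.val < k, γ a ≤
      ∑ a : Fin N with a.val < k, v a) ∧ ∑ a, γ a = ∑ a : Fin N, v a ∧
      ∑ a, γ a ^ 2 = ∑ a : Fin N, v a ^ 2)
    (h2 : coeff (Finsupp.equivFunOnFinite.symm (fun a : Fin N => v a)) G = 1) :
    G = alt N v := by
  ext γ
  by_cases hinj : Function.Injective γ
  · obtain ⟨σ, hσ⟩ : ∃ σ : Equiv.Perm (Fin N), ∀ a b, a < b → γ (σ b) < γ (σ a) := by
      refine ⟨Tuple.sort fun a => OrderDual.toDual (γ a), fun a b hab => ?_⟩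
      have h3 : γ (Tuple.sort (fun a => OrderDual.toDual (γ a)) b) ≤
          γ (Tuple.sort (fun a => OrderDual.toDual (γ a)) a) :=
        Tuple.monotone_sort (fun a => OrderDual.toDual (γ a)) hab.le
      refine lt_of_le_of_ne h3 fun h => ?_
      have h4 := (Tuple.sort fun a => OrderDual.toDual (γ a)).injective (hinj h)
      exact absurd h4 hab.ne'
    rw [RC12_coeff hG σ γ, RC12_coeff (RC12_alt v) σ γ]
    congr 1
    obtain ⟨δ, hδ⟩ : ∃ δ, δ = Finsupp.equivFunOnFinite.symm (fun a => γ (σ a)) := ⟨_, rfl⟩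
    rw [← hδ]
    have hd : ∀ a b, a < b → δ b < δ a := by
      intro a b hab
      rw [hδ]
      exact hσ a b hab
    by_cases he : (δ : Fin N → ℕ) = fun a : Fin N => v a
    · have h3 : δ = Finsupp.equivFunOnFinite.symm (fun a : Fin N => v a) := by
        rw [← he]
        exact (Equiv.symm_apply_apply _ δ).symm
      rw [h3, h2, RC12_alt_coeff, Finset.sum_eq_single (1 : Equiv.Perm (Fin N))]
      · rw [Equiv.Perm.sign_one, Units.val_one, one_mul, if_pos]
        rfl
      · intro τ _ hτ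
        rw [if_neg, mul_zero]
        intro h4
        refine hτ (RC12_perm hv ?_ h4)
        intro a b hab
        exact hv a b hab b.2
      · intro h
        exact absurd (Finset.mem_univ _) h
    · have h3 : coeff δ G = 0 := by
        by_contra hc
        obtain ⟨h4, h5, h6⟩ := h1 δ hc
        exact he (eq_of_norm hd (fun a b hab => hv a b hab b.2) h4 h5 h6)
      rw [h3, RC12_alt_coeff]
      symm
      refine Finset.sum_eq_zero fun τ _ => ?_
      rw [if_neg, mul_zero]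
      intro h4
      have h5 := RC12_perm hv hd h4
      rw [h5] at h4
      exact he h4.symm
  · obtain ⟨a, b, h3, h4⟩ : ∃ a b, γ a = γ b ∧ a ≠ b := by
      simpa [Function.Injective] using hinj
    rw [RC12_swap hG h4 h3, RC12_swap (RC12_alt v) h4 h3]

end MP967.Rep
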