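import Pool.Agent.Lib.MP_967fd7_co.Rep.Basic

/-! Weight multiplicities of stable spaces are symmetric. -/

namespace MP967.Rep

open MvPolynomial

variable {N : ℕ} {C : Type}

/-- the operator `h` on the vectors `f^m v` -/
theorem RC8_h {a b : Fin N} (hab : a ≠ b) {κ : ℚ} {v : Pol N C}
    (hv : E a a v - E b b v = κ • v) (m : ℕ) :
    E a a ((E b a)^[m] v) - E b b ((E b a)^[m] v) = (κ - 2 * m) • (E b a)^[m] v := by
  induction m with
  | zero =>
    rw [Function.iterate_zero, id_eq, hv]
    congr 1
    push_cast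
    ring
  | succ m ih =>
    rw [Function.iterate_succ_apply']
    have h1 := E_comm a a b a ((E b a)^[m] v)
    have h2 := E_comm b b b a ((E b a)^[m] v)
    rw [if_neg hab, if_pos rfl] at h1
    rw [if_pos rfl, if_neg hab] at h2
    have h3 : E a a (E b a ((E b a)^[m] v)) - E b b (E b a ((E b a)^[m] v)) =
        E b a (E a a ((E b a)^[m] v) - E b b ((E b a)^[m] v)) -
          (2 : ℚ) • E b a ((E b a)^[m] v) := by
      rw [map_sub, two_smul]
      linear_combination h1 - h2
    rw [h3, ih, Derivation.map_smul, ← sub_smul]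
    congr 1
    push_cast
    ring

theorem RC8_comm {a b : Fin N} (hab : a ≠ b) {κ : ℚ} {v : Pol N C}
    (hv : E a a v - E b b v = κ • v) (n : ℕ) :
    E a b ((E b a)^[n + 1] v) = (E b a)^[n + 1] (E a b v) +
      (((n : ℚ) + 1) * (κ - n)) • (E b a)^[n] v := by
  induction n with
  | zero =>
    have h1 := E_comm a b b a v
    rw [if_pos rfl, if_pos rfl, hv] at h1
    simp only [zero_add, Function.iterate_one, Function.iterate_zero, id_eq, Nat.cast_zero,
      sub_zero, one_mul]
    rw [← h1]
    ring
  | succ n ih =>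
    have h1 := E_comm a b b a ((E b a)^[n + 1] v)
    rw [if_pos rfl, if_pos rfl, RC8_h hab hv (n + 1), ih, map_add, Derivation.map_smul,
      ← Function.iterate_succ_apply' (E b a) (n + 1) v,
      ← Function.iterate_succ_apply' (E b a) (n + 1) (E a b v),
      ← Function.iterate_succ_apply' (E b a) n v] at h1
    have h2 : E a b ((E b a)^[n + 1 + 1] v) = (E b a)^[n + 1 + 1] (E a b v) +
        (((n : ℚ) + 1) * (κ - n)) • (E b a)^[n + 1] v +
        (κ - 2 * ((n + 1 : ℕ) : ℚ)) • (E b a)^[n + 1] v := by
      rw [← h1]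
      ring
    rw [h2, add_assoc, ← add_smul]
    congr 2
    push_cast
    ring

theorem RC8_eig {a b : Fin N} {β : Fin N →₀ ℕ} {v : Pol N C} (hv : v ∈ wtSpace C β) :
    E a a v - E b b v = ((β a : ℚ) - β b) • v := by
  rw [E_diag a hv, E_diag b hv, sub_smul]

/-- `e f^(n+1) v = f^(n+1) e v + (n+1) (κ - n) f^n v` for `v` of weight `β`, `κ = β a - β b`. -/
theorem E_pow_comm {a b : Fin N} (hab : a ≠ b) {β : Fin N →₀ ℕ} {v : Pol N C}
    (hv : v ∈ wtSpace C β) (n : ℕ) :
    E a b ((E b a)^[n + 1] v) = (E b a)^[n + 1] (E a b v) +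
      (((n : ℚ) + 1) * ((β a : ℚ) - β b - n)) • (E b a)^[n] v :=
  RC8_comm hab (RC8_eig hv) n

/-- the operator `h` on `e v` -/
theorem RC8_he {a b : Fin N} (hab : a ≠ b) {κ : ℚ} {v : Pol N C}
    (hv : E a a v - E b b v = κ • v) :
    E a a (E a b v) - E b b (E a b v) = (κ + 2) • E a b v := by
  have h1 := E_comm a a a b v
  have h2 := E_comm b b a b v
  rw [if_pos rfl, if_neg hab.symm] at h1
  rw [if_neg hab.symm, if_pos rfl] at h2
  have h3 : E a a (E a b v) - E b b (E a b v) = E a b (E a a v - E b b v) +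
      (2 : ℚ) • E a b v := by
    rw [map_sub, two_smul]
    linear_combination h1 - h2
  rw [h3, hv, Derivation.map_smul, ← add_smul]

/-- `e` is nilpotent on weight vectors -/
theorem RC8_nil {a b : Fin N} (hab : a ≠ b) (k : ℕ) : ∀ (β : Fin N →₀ ℕ) (v : Pol N C),
    v ∈ wtSpace C β → β b = k → (E a b)^[k + 1] v = 0 := by
  induction k with
  | zero =>
    intro β v hv hk
    rw [zero_add, Function.iterate_one]
    exact E_zero hk hv
  | succ k ih =>
    intro β v hv hk
    rw [Function.iterate_succ_apply]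
    have hle : Finsupp.single b 1 ≤ β + Finsupp.single a 1 := by
      rw [Finsupp.single_le_iff, Finsupp.add_apply]
      omega
    have h1 : β + Finsupp.single a 1 = (β + Finsupp.single a 1 - Finsupp.single b 1) +
        Finsupp.single b 1 := (tsub_add_cancel_of_le hle).symm
    refine ih _ _ (E_mem h1 hv) ?_
    rw [Finsupp.tsub_apply, Finsupp.add_apply, Finsupp.single_eq_same,
      Finsupp.single_eq_of_ne hab.symm]
    omega

theorem RC8_zero {a b : Fin N} (n : ℕ) : (E b a)^[n] (0 : Pol N C) = 0 := by
  induction n with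
  | zero => rfl
  | succ n ih => rw [Function.iterate_succ_apply', ih, map_zero]

/-- the abstract form -/
theorem RC8_inj {a b : Fin N} (hab : a ≠ b) (j : ℕ) : ∀ (m : ℕ) (v : Pol N C),
    E a a v - E b b v = (m : ℚ) • v → (E b a)^[m] v = 0 → (E a b)^[j] v = 0 →
      v = 0 := by
  -- the statement for `f^(m + i)` on a vector of weight `m + 2 i`
  have key : ∀ (j : ℕ) (i m : ℕ) (v : Pol N C), E a a v - E b b v = ((m + 2 * i : ℕ) : ℚ) • v →
      (E b a)^[m + i] v = 0 → (E a b)^[j] v = 0 → v = 0 := by
    intro j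
    induction j with
    | zero =>
      intro i m v _ _ h
      exact h
    | succ j ih =>
      intro i m v hv hf he
      rw [Function.iterate_succ_apply] at he
      have h1 : (E b a)^[m + (i + 1)] (E a b v) = 0 := by
        have h2 := RC8_comm hab hv (m + i)
        rw [hf, smul_zero, add_zero, Function.iterate_succ_apply', hf, map_zero, map_zero] at h2
        rw [← add_assoc]
        exact h2.symm
      have h2 : E a b v = 0 := by
        refine ih (i + 1) m (E a b v) ?_ h1 he
        rw [RC8_he hab hv]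
        congr 1
        push_cast
        ring
      by_contra hv0
      have h3 : ∀ l : ℕ, l ≤ m + 2 * i → (E b a)^[l] v ≠ 0 := by
        intro l
        induction l with
        | zero => intro _; exact hv0
        | succ l ihl =>
          intro hl h4
          have h5 := RC8_comm hab hv l
          rw [h4, h2, RC8_zero, map_zero, zero_add] at h5
          rcases smul_eq_zero.1 h5.symm with h6 | h6
          · rcases mul_eq_zero.1 h6 with h7 | h7
            · have h8 : (0 : ℚ) ≤ l := Nat.cast_nonneg l
              linarith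
            · have h8 : ((l + 1 : ℕ) : ℚ) ≤ ((m + 2 * i : ℕ) : ℚ) := Nat.cast_le.2 hl
              push_cast at h7 h8
              linarith
          · exact ihl (by omega) h6
      exact h3 (m + i) (by omega) hf
  intro m v hv hf he
  exact key j 0 m v (by rw [mul_zero, add_zero]; exact hv) hf he

/-- `f^m` is injective on the weight space `β` for `m = β a - β b ≥ 0`. -/
theorem pow_injective {a b : Fin N} (hab : a ≠ b) {β : Fin N →₀ ℕ} {m : ℕ}
    (hm : β a = β b + m) {v : Pol N C} (hv : v ∈ wtSpace C β) (h : (E b a)^[m] v = 0) :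
    v = 0 := by
  refine RC8_inj hab (β b + 1) m v ?_ h (RC8_nil hab (β b) β v hv rfl)
  rw [RC8_eig hv, hm]
  congr 1
  push_cast
  ring

theorem RC8_mem {a b : Fin N} (hab : a ≠ b) (i : ℕ) : ∀ (β γ : Fin N →₀ ℕ) (p : Pol N C),
    β + Finsupp.single b i = γ + Finsupp.single a i → p ∈ wtSpace C β →
      (E b a)^[i] p ∈ wtSpace C γ := by
  induction i with
  | zero =>
    intro β γ p h hp
    rw [Finsupp.single_zero, Finsupp.single_zero, add_zero, add_zero] at h
    rw [← h]
    exact hp
  | succ i ih =>
    intro β γ p h hp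
    rw [Function.iterate_succ_apply]
    have h0 := DFunLike.congr_fun h a
    rw [Finsupp.add_apply, Finsupp.add_apply, Finsupp.single_eq_same,
      Finsupp.single_eq_of_ne hab] at h0
    have hle : Finsupp.single a 1 ≤ β + Finsupp.single b 1 := by
      rw [Finsupp.single_le_iff, Finsupp.add_apply]
      omega
    have h1 : β + Finsupp.single b 1 = (β + Finsupp.single b 1 - Finsupp.single a 1) +
        Finsupp.single a 1 := (tsub_add_cancel_of_le hle).symm
    refine ih _ γ _ ?_ (E_mem h1 hp)
    apply add_right_cancel (b := Finsupp.single a 1)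
    rw [add_right_comm, ← h1, add_assoc, add_assoc, ← Finsupp.single_add, ← Finsupp.single_add,
      add_comm 1 i, h]

theorem RC8_act {W : Submodule ℚ (Pol N C)} (hW : Stable W) (a b : Fin N) (i : ℕ) (p : Pol N C)
    (hp : p ∈ W) : (E b a)^[i] p ∈ W := by
  induction i with
  | zero => exact hp
  | succ i ih =>
    rw [Function.iterate_succ_apply']
    exact hW.act b a _ ih

theorem RC8_le {W : Submodule ℚ (Pol N C)} (hW : Stable W) {a b : Fin N} (hab : a ≠ b)
    {β : Fin N →₀ ℕ} {m : ℕ} (hm : β a = β b + m) :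
    mult W β ≤ mult W (β.mapDomain (Equiv.swap a b)) := by
  have hβ : β + Finsupp.single b m = β.mapDomain (Equiv.swap a b) + Finsupp.single a m := by
    ext x
    rw [Finsupp.add_apply, Finsupp.add_apply, Finsupp.mapDomain_equiv_apply, Equiv.symm_swap]
    by_cases hxa : x = a
    · subst hxa
      rw [Equiv.swap_apply_left, Finsupp.single_eq_same, Finsupp.single_eq_of_ne hab]
      omega
    · by_cases hxb : x = b
      · subst hxb
        rw [Equiv.swap_apply_right, Finsupp.single_eq_same, Finsupp.single_eq_of_ne hxa]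
        omega
      · rw [Equiv.swap_apply_of_ne_of_ne hxa hxb, Finsupp.single_eq_of_ne hxa,
          Finsupp.single_eq_of_ne hxb]
  obtain ⟨F, hF⟩ : ∃ F : Pol N C →ₗ[ℚ] Pol N C, F = (E b a : Derivation ℚ (Pol N C) (Pol N C)).toLinearMap ^ m :=
    ⟨_, rfl⟩
  have hFi : ∀ p, F p = (E b a)^[m] p := by
    intro p
    rw [hF, Module.End.pow_apply]
    rfl
  have hmaps : ∀ p ∈ W ⊓ wtSpace C β, F p ∈ W ⊓ wtSpace C (β.mapDomain (Equiv.swap a b)) := by
    intro p hp
    rw [hFi]
    exact ⟨RC8_act hW a b m p hp.1, RC8_mem hab m _ _ p hβ hp.2⟩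
  have hfg : FiniteDimensional ℚ W := Module.Finite.iff_fg.2 hW.fin
  have hfin : FiniteDimensional ℚ ↥(W ⊓ wtSpace C (β.mapDomain (Equiv.swap a b))) :=
    Submodule.finiteDimensional_of_le inf_le_left
  refine LinearMap.finrank_le_finrank_of_injective (f := F.restrict hmaps) ?_
  rw [injective_iff_map_eq_zero]
  intro p hp
  have h1 : F (p : Pol N C) = 0 := congrArg Subtype.val hp
  rw [hFi] at h1
  exact Subtype.ext (pow_injective hab hm p.2.2 h1)

theorem mult_swap {W : Submodule ℚ (Pol N C)} (hW : Stable W) (a b : Fin N)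
    (β : Fin N →₀ ℕ) : mult W (β.mapDomain (Equiv.swap a b)) = mult W β := by
  by_cases hab : a = b
  · subst hab
    rw [Equiv.swap_self]
    congr 1
    exact Finsupp.mapDomain_id
  -- the case `β b ≤ β a`
  have key : ∀ (a b : Fin N) (β : Fin N →₀ ℕ), a ≠ b → β b ≤ β a →
      mult W (β.mapDomain (Equiv.swap a b)) = mult W β := by
    intro a b β hab hle
    obtain ⟨m, hm⟩ := Nat.exists_eq_add_of_le hle
    refine le_antisymm ?_ (RC8_le hW hab hm)
    have h1 : (β.mapDomain (Equiv.swap a b)) b = (β.mapDomain (Equiv.swap a b)) a + m := by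
      rw [Finsupp.mapDomain_equiv_apply, Finsupp.mapDomain_equiv_apply, Equiv.symm_swap,
        Equiv.swap_apply_left, Equiv.swap_apply_right, hm]
    have h2 := RC8_le hW (Ne.symm hab) h1
    have h3 : (β.mapDomain (Equiv.swap a b)).mapDomain (Equiv.swap b a) = β := by
      ext x
      rw [Finsupp.mapDomain_equiv_apply, Finsupp.mapDomain_equiv_apply, Equiv.symm_swap,
        Equiv.symm_swap, Equiv.swap_comm b a, Equiv.swap_apply_self]
    rwa [h3] at h2
  rcases le_total (β b) (β a) with h | h
  · exact key a b β hab h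
  · rw [Equiv.swap_comm]
    exact key b a β (Ne.symm hab) h

theorem RC8_perm {W : Submodule ℚ (Pol N C)} (hW : Stable W) (e : Equiv.Perm (Fin N)) :
    ∀ β : Fin N →₀ ℕ, mult W (β.mapDomain e) = mult W β := by
  induction e using Equiv.Perm.swap_induction_on with
  | one =>
    intro β
    congr 1
    exact Finsupp.mapDomain_id
  | swap_mul e x y _ ih =>
    intro β
    have h1 : β.mapDomain (Equiv.swap x y * e : Equiv.Perm (Fin N)) =
        (β.mapDomain e).mapDomain (Equiv.swap x y) := by
      rw [Equiv.Perm.coe_mul, Finsupp.mapDomain_comp]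
    rw [h1, mult_swap hW, ih]

theorem ch_symm {W : Submodule ℚ (Pol N C)} (hW : Stable W) : (ch W).IsSymmetric := by
  intro e
  ext β
  have h1 : β = (β.mapDomain e.symm).mapDomain e := by
    rw [← Finsupp.mapDomain_comp]
    have h2 : (e : Fin N → Fin N) ∘ e.symm = id := by
      funext x
      simp
    rw [h2, Finsupp.mapDomain_id]
  conv_lhs => rw [h1]
  rw [coeff_rename_mapDomain _ e.injective, coeff_ch hW.fin, coeff_ch hW.fin, RC8_perm hW]

end MP967.Rep
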