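import Pool.Agent.Lib.MP_967fd7_co.Rep.Trace
import Pool.Agent.Lib.MP_967fd7_co.Rep.Sl2
import Pool.Agent.Lib.MP_967fd7_co.Rep.Euler
import Pool.Agent.Lib.MP_967fd7_co.Rep.Lead
import Pool.Agent.Lib.MP_967fd7_co.Rep.KeyA

/-! The character of a cyclic space is a Schur polynomial. -/

namespace MP967.Rep

open MvPolynomial

variable {N : ℕ} {C : Type}

private theorem rc13_coeff {W : Submodule ℚ (Pol N C)} (hW : W.FG) (β : Fin N →₀ ℕ) :
    coeff β (MvPolynomial.map (Int.castRingHom ℚ) (ch W)) = (mult W β : ℚ) := by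
  rw [coeff_map, coeff_ch hW]
  simp

private theorem rc13_sum (f : Fin N → ℚ) :
    ∑ p ∈ Finset.univ.filter (fun p : Fin N × Fin N => p.1 < p.2), (f p.1 - f p.2) =
      ∑ a : Fin N, (((N - 1 - a : ℕ) : ℚ) - (a : ℕ)) * f a := by
  have h1 : ∀ a : Fin N, ∑ b : Fin N, (if a < b then f a else 0) = ((N - 1 - a : ℕ) : ℚ) * f a := by
    intro a
    rw [← Finset.sum_filter, Finset.sum_const, nsmul_eq_mul, Finset.filter_lt_eq_Ioi, Fin.card_Ioi]
  have h2 : ∀ b : Fin N, ∑ a : Fin N, (if a < b then f b else 0) = ((b : ℕ) : ℚ) * f b := by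
    intro b
    rw [← Finset.sum_filter, Finset.sum_const, nsmul_eq_mul, Finset.filter_gt_eq_Iio, Fin.card_Iio]
  rw [Finset.sum_filter, ← Finset.univ_product_univ, Finset.sum_product]
  have h3 : ∀ a b : Fin N, (if a < b then f a - f b else 0) =
      (if a < b then f a else 0) - (if a < b then f b else 0) := by
    intro a b
    split_ifs
    · rfl
    · rw [sub_zero]
  simp only [h3, Finset.sum_sub_distrib]
  rw [Finset.sum_comm (f := fun a b : Fin N => if a < b then f b else 0)]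
  simp only [h1, h2]
  rw [← Finset.sum_sub_distrib]
  exact Finset.sum_congr rfl fun a _ => (sub_mul _ _ _).symm

/-- The polynomial of the traces. -/
theorem exists_T {W : Submodule ℚ (Pol N C)} (hW : Stable W) {a b : Fin N} (hab : a ≠ b) :
    ∃ T : MvPolynomial (Fin N) ℚ, (∀ β, coeff β T = tr W a b β) ∧
      (X a - X b) * T = X b * (Dop a (MvPolynomial.map (Int.castRingHom ℚ) (ch W)) -
        Dop b (MvPolynomial.map (Int.castRingHom ℚ) (ch W))) := by
  classical
  have hfin := finite_mult hW.fin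
  obtain ⟨T, hT⟩ : ∃ T : MvPolynomial (Fin N) ℚ, ∀ β, coeff β T = tr W a b β := by
    refine ⟨∑ β ∈ hfin.toFinset, monomial β (tr W a b β), fun β => ?_⟩
    rw [coeff_sum]
    simp only [coeff_monomial]
    rw [Finset.sum_ite_eq' hfin.toFinset β (fun γ => tr W a b γ)]
    split_ifs with h
    · rfl
    · rw [Set.Finite.mem_toFinset, Set.mem_ofPred_eq, not_not] at h
      exact (tr_eq_zero h hW.fin).symm
  refine ⟨T, hT, ?_⟩
  ext α
  have hG : ∀ γ : Fin N →₀ ℕ, coeff γ (Dop a (MvPolynomial.map (Int.castRingHom ℚ) (ch W)) -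
      Dop b (MvPolynomial.map (Int.castRingHom ℚ) (ch W))) =
      ((γ a : ℚ) - γ b) * mult W γ := by
    intro γ
    rw [coeff_sub, coeff_Dop, coeff_Dop, rc13_coeff hW.fin]
    ring
  rw [sub_mul, coeff_sub, coeff_X_mul', coeff_X_mul', coeff_X_mul', hT, hT, hG]
  simp only [Finsupp.mem_support_iff]
  by_cases ha : α a = 0
  · by_cases hb : α b = 0
    · rw [if_neg (not_not.2 ha), if_neg (not_not.2 hb), if_neg (not_not.2 hb), sub_zero]
    · rw [if_neg (not_not.2 ha), if_pos hb, if_pos hb]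
      have hγ : (α - Finsupp.single b 1 : Fin N →₀ ℕ) a = 0 := by
        rw [Finsupp.tsub_apply, ha, zero_tsub]
      have h := tr_high hW hab hγ
      linarith
  · by_cases hb : α b = 0
    · rw [if_pos ha, if_neg (not_not.2 hb), if_neg (not_not.2 hb), sub_zero]
      have hβ : (α - Finsupp.single a 1 : Fin N →₀ ℕ) b = 0 := by
        rw [Finsupp.tsub_apply, hb, zero_tsub]
      exact tr_low hW hab hβ
    · rw [if_pos ha, if_pos hb, if_pos hb]
      have h1 : α - Finsupp.single a 1 + Finsupp.single a 1 =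
          α - Finsupp.single b 1 + Finsupp.single b 1 := by
        rw [tsub_add_cancel_of_le, tsub_add_cancel_of_le]
        · rw [Finsupp.single_le_iff]
          omega
        · rw [Finsupp.single_le_iff]
          omega
      have h := tr_step hW hab h1
      linarith

/-- The polynomial form of the Casimir trace. -/
theorem casimir_poly [Finite C] {f : Pol N C} {lam : Fin N →₀ ℕ} (hf : IsHW f lam)
    (T : Fin N × Fin N → MvPolynomial (Fin N) ℚ)
    (hT : ∀ p ∈ prs N, ∀ β, coeff β (T p) = tr (cyc f) p.1 p.2 β) :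
    cas lam • (MvPolynomial.map (Int.castRingHom ℚ) (ch (cyc f))) =
      ∑ a, Dop a (Dop a (MvPolynomial.map (Int.castRingHom ℚ) (ch (cyc f)))) +
      ∑ p ∈ prs N, (Dop p.1 (MvPolynomial.map (Int.castRingHom ℚ) (ch (cyc f))) -
        Dop p.2 (MvPolynomial.map (Int.castRingHom ℚ) (ch (cyc f)))) +
      2 * ∑ p ∈ prs N, T p := by
  have hW := cyc_stable hf
  ext β
  have h2 : (2 : MvPolynomial (Fin N) ℚ) = MvPolynomial.C 2 := (map_ofNat MvPolynomial.C 2).symm
  rw [h2, coeff_add, coeff_add, coeff_C_mul, coeff_smul, coeff_sum, coeff_sum, coeff_sum]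
  simp only [coeff_sub, coeff_Dop]
  rw [rc13_coeff hW.fin, smul_eq_mul, tr_casimir hf, Finset.sum_mul, Finset.sum_mul,
    Finset.sum_congr rfl fun p hp => hT p hp β]
  refine congrArg₂ (· + ·) (congrArg₂ (· + ·) ?_ ?_) rfl
  · exact Finset.sum_congr rfl fun a _ => by ring
  · exact Finset.sum_congr rfl fun p _ => by ring

theorem degree_poly [Finite C] {f : Pol N C} {lam : Fin N →₀ ℕ} (hf : IsHW f lam) :
    ∑ a, Dop a (MvPolynomial.map (Int.castRingHom ℚ) (ch (cyc f))) =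
      (∑ a, (lam a : ℚ)) • (MvPolynomial.map (Int.castRingHom ℚ) (ch (cyc f))) := by
  have hW := cyc_stable hf
  ext β
  rw [coeff_sum, coeff_smul]
  simp only [coeff_Dop]
  rw [rc13_coeff hW.fin, smul_eq_mul, ← Finset.sum_mul]
  by_cases h : mult (cyc f) β = 0
  · rw [h, Nat.cast_zero, mul_zero, mul_zero]
  · have h1 := (cyc_dom hf h).2
    congr 1
    exact_mod_cast h1

/-- The eigenvalue is the norm of `lam + δ`. -/
theorem eigenvalue (lam : Fin N →₀ ℕ) :
    cas lam + ((N : ℚ) - 1) * (∑ a, (lam a : ℚ)) + ∑ a : Fin N, (δ N a : ℚ) ^ 2 =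
      ∑ a : Fin N, ((lam a : ℚ) + δ N a) ^ 2 := by
  rw [cas, rc13_sum (fun a => (lam a : ℚ)), Finset.mul_sum, ← Finset.sum_add_distrib,
    ← Finset.sum_add_distrib, ← Finset.sum_add_distrib]
  refine Finset.sum_congr rfl fun a _ => ?_
  have h1 : ((N - 1 - a : ℕ) : ℚ) = (N : ℚ) - 1 - (a : ℕ) := by
    have := a.2
    rw [Nat.cast_sub (by omega), Nat.cast_sub (by omega), Nat.cast_one]
  rw [δ, h1]
  ring

/-- The exponents of `a_δ ch M` have the norm of `lam + δ`. -/
theorem norm_eq [Finite C] {f : Pol N C} {lam : Fin N →₀ ℕ} (hf : IsHW f lam) {γ : Fin N →₀ ℕ}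
    (hγ : coeff γ (alt N (δ N) * ch (cyc f)) ≠ 0) :
    ∑ a, γ a ^ 2 = ∑ a : Fin N, (lam a + δ N a) ^ 2 := by
  have hW := cyc_stable hf
  have hex : ∀ p : Fin N × Fin N, ∃ T : MvPolynomial (Fin N) ℚ, p ∈ prs N →
      (∀ β, coeff β T = tr (cyc f) p.1 p.2 β) ∧
      (X p.1 - X p.2) * T = X p.2 *
        (Dop p.1 (MvPolynomial.map (Int.castRingHom ℚ) (ch (cyc f))) -
          Dop p.2 (MvPolynomial.map (Int.castRingHom ℚ) (ch (cyc f)))) := by
    intro p
    by_cases hp : p ∈ prs N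
    · have hp' : p.1 ≠ p.2 := by
        rw [prs, Finset.mem_filter] at hp
        exact hp.2.ne
      obtain ⟨T, hT⟩ := exists_T hW hp'
      exact ⟨T, fun _ => hT⟩
    · exact ⟨0, fun h => absurd h hp⟩
  choose T hT using hex
  have h1 := eigen (MvPolynomial.map (Int.castRingHom ℚ) (ch (cyc f))) T
    (fun p hp => (hT p hp).2) (cas lam) (∑ a, (lam a : ℚ)) (degree_poly hf)
    (casimir_poly hf T fun p hp => (hT p hp).1)
  rw [eigenvalue, Van_eq, ← map_mul] at h1
  have h2 := congrArg (coeff γ) h1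
  rw [coeff_sum, coeff_smul, smul_eq_mul, coeff_map] at h2
  have h3 : ∀ a ∈ (Finset.univ : Finset (Fin N)), coeff γ (Dop a (Dop a
      (MvPolynomial.map (Int.castRingHom ℚ) (alt N (δ N) * ch (cyc f))))) =
      (γ a : ℚ) ^ 2 * ((coeff γ (alt N (δ N) * ch (cyc f)) : ℤ) : ℚ) := by
    intro a _
    rw [coeff_Dop, coeff_Dop, coeff_map]
    change (γ a : ℚ) * ((γ a : ℚ) * ((coeff γ (alt N (δ N) * ch (cyc f)) : ℤ) : ℚ)) = _
    ring
  rw [Finset.sum_congr rfl h3, ← Finset.sum_mul] at h2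
  have h4 : ((coeff γ (alt N (δ N) * ch (cyc f)) : ℤ) : ℚ) ≠ 0 := Int.cast_ne_zero.2 hγ
  have h5 : ∑ a, (γ a : ℚ) ^ 2 = ∑ a : Fin N, ((lam a : ℚ) + δ N a) ^ 2 :=
    mul_right_cancel₀ h4 h2
  exact_mod_cast h5

/-- The exponents of `a_δ ch M` are below `lam + δ`. -/
theorem sum_le [Finite C] {f : Pol N C} {lam : Fin N →₀ ℕ} (hf : IsHW f lam) {γ : Fin N →₀ ℕ}
    (hγ : coeff γ (alt N (δ N) * ch (cyc f)) ≠ 0) :
    (∀ k : ℕ, ∑ a with a.val < k, γ a ≤ ∑ a : Fin N with a.val < k, (lam a + δ N a)) ∧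
      ∑ a, γ a = ∑ a : Fin N, (lam a + δ N a) :=
  rc14_sum hf hγ

theorem coeff_top [Finite C] {f : Pol N C} {lam : Fin N →₀ ℕ} (hf : IsHW f lam) :
    coeff (Finsupp.equivFunOnFinite.symm (fun a : Fin N => lam a + δ N a))
      (alt N (δ N) * ch (cyc f)) = 1 :=
  rc14_top hf

theorem ch_cyc [Finite C] {f : Pol N C} {lam : Fin N →₀ ℕ} (hf : IsHW f lam) :
    ch (cyc f) = S N (ext lam) := by
  obtain ⟨hp, hN⟩ := ext_isPart hf
  have hext : ∀ a : Fin N, ext lam a = lam a := fun a => by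
    simp only [ext, a.2, dif_pos, Fin.eta]
  have h1 : alt N (δ N) * ch (cyc f) = alt N (fun i => ext lam i + δ N i) := by
    refine alt_of_eigen _ _ (fun a b hab hb => ?_) (fun σ => ?_) (fun γ hγ => ?_) ?_
    · have h2 := hp hab.le
      simp only [δ]
      omega
    · rw [map_mul, rc14_alt, ch_symm (cyc_stable hf) σ, smul_mul_assoc]
    · obtain ⟨h2, h3⟩ := sum_le hf hγ
      simp only [hext]
      exact ⟨h2, h3, norm_eq hf hγ⟩
    · simp only [hext]
      exact coeff_top hf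
  rw [← alt_delta_mul_S hp hN] at h1
  exact mul_left_cancel₀ (alt_delta_ne_zero N) h1

end MP967.Rep
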