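import Pool.Agent.Lib.MP_967fd7_co.Rep.Basic

/-! Products of spaces of polynomials. -/

namespace MP967.Rep

open MvPolynomial

variable {N : ℕ} {C : Type}

/-- The span of finitely many weight vectors, closed under the action. -/
private theorem tn_span {s : Set (Pol N C)} (hs : s.Finite) (hwt : ∀ p ∈ s, ∃ β, p ∈ wtSpace C β)
    (hact : ∀ a b, ∀ p ∈ s, E a b p ∈ Submodule.span ℚ s) : Stable (Submodule.span ℚ s) where
  fin := Submodule.fg_span hs
  hom p hp β := hom_of_span hwt hp β
  act a b p hp := by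
    induction hp using Submodule.span_induction with
    | mem x hx => exact hact a b x hx
    | zero =>
      rw [map_zero]
      exact Submodule.zero_mem _
    | add x y _ _ hx hy =>
      rw [map_add]
      exact Submodule.add_mem _ hx hy
    | smul c x _ hx =>
      rw [Derivation.map_smul]
      exact Submodule.smul_mem _ c hx

/-- The weight vectors of `W`. -/
private def tn_wv (W : Submodule ℚ (Pol N C)) : Set (Pol N C) := {p | p ∈ W ∧ ∃ β, p ∈ wtSpace C β}

private theorem tn_eq {W : Submodule ℚ (Pol N C)} (hh : ∀ p ∈ W, ∀ β, comp β p ∈ W) :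
    Submodule.span ℚ (tn_wv W) = W := by
  apply le_antisymm
  · rw [Submodule.span_le]
    exact fun p hp => hp.1
  · intro p hp
    exact mem_of_comp fun β => Submodule.subset_span ⟨hh p hp β, β, comp_mem β p⟩

theorem stable_one : Stable (1 : Submodule ℚ (Pol N C)) := by
  rw [Submodule.one_eq_span]
  refine tn_span (Set.finite_singleton _) ?_ ?_
  · rintro p rfl
    exact ⟨0, isWeightedHomogeneous_one ℚ rowWt⟩
  · rintro a b p rfl
    rw [Derivation.map_one_eq_zero]
    exact Submodule.zero_mem _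

theorem Stable.mul {W W' : Submodule ℚ (Pol N C)} (hW : Stable W) (hW' : Stable W') :
    Stable (W * W') := by
  refine ⟨hW.fin.mul hW'.fin, fun p hp β => ?_, fun a b p hp => ?_⟩
  · rw [← tn_eq hW.hom, ← tn_eq hW'.hom, Submodule.span_mul_span] at hp ⊢
    refine hom_of_span ?_ hp β
    rintro q ⟨x, ⟨-, γ, hx⟩, y, ⟨-, δ, hy⟩, rfl⟩
    exact ⟨γ + δ, IsWeightedHomogeneous.mul hx hy⟩
  · refine Submodule.mul_induction_on hp (fun x hx y hy => ?_) (fun x y hx hy => ?_)
    · rw [Derivation.leibniz, smul_eq_mul, smul_eq_mul, mul_comm y]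
      exact Submodule.add_mem _ (Submodule.mul_mem_mul hx (hW'.act a b y hy))
        (Submodule.mul_mem_mul (hW.act a b x hx) hy)
    · rw [map_add]
      exact Submodule.add_mem _ hx hy

theorem Stable.sup {W W' : Submodule ℚ (Pol N C)} (hW : Stable W) (hW' : Stable W') :
    Stable (W ⊔ W') := by
  refine ⟨hW.fin.sup hW'.fin, fun p hp β => ?_, fun a b p hp => ?_⟩
  · obtain ⟨x, hx, y, hy, rfl⟩ := Submodule.mem_sup.1 hp
    rw [map_add]
    exact Submodule.add_mem _ (Submodule.mem_sup_left (hW.hom x hx β))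
      (Submodule.mem_sup_right (hW'.hom y hy β))
  · obtain ⟨x, hx, y, hy, rfl⟩ := Submodule.mem_sup.1 hp
    rw [map_add]
    exact Submodule.add_mem _ (Submodule.mem_sup_left (hW.act a b x hx))
      (Submodule.mem_sup_right (hW'.act a b y hy))

theorem stable_bot : Stable (⊥ : Submodule ℚ (Pol N C)) := by
  refine ⟨Submodule.fg_bot, fun p hp β => ?_, fun a b p hp => ?_⟩
  · rw [Submodule.mem_bot] at hp ⊢
    rw [hp, map_zero]
  · rw [Submodule.mem_bot] at hp ⊢
    rw [hp, map_zero]

theorem stable_iSup {ι : Type} [Finite ι] {W : ι → Submodule ℚ (Pol N C)}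
    (hW : ∀ i, Stable (W i)) : Stable (⨆ i, W i) := by
  refine ⟨Submodule.fg_iSup _ fun i => (hW i).fin, fun p hp β => ?_, fun a b p hp => ?_⟩
  · refine Submodule.iSup_induction W (motive := fun p => comp β p ∈ ⨆ i, W i) hp
      (fun i x hx => ?_) ?_ fun x y hx hy => ?_
    · exact Submodule.mem_iSup_of_mem i ((hW i).hom x hx β)
    · rw [map_zero]
      exact Submodule.zero_mem _
    · rw [map_add]
      exact Submodule.add_mem _ hx hy
  · refine Submodule.iSup_induction W (motive := fun p => E a b p ∈ ⨆ i, W i) hp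
      (fun i x hx => ?_) ?_ fun x y hx hy => ?_
    · exact Submodule.mem_iSup_of_mem i ((hW i).act a b x hx)
    · rw [map_zero]
      exact Submodule.zero_mem _
    · rw [map_add]
      exact Submodule.add_mem _ hx hy

theorem stable_prod {s : Multiset (Submodule ℚ (Pol N C))} (hs : ∀ W ∈ s, Stable W) :
    Stable s.prod := by
  induction s using Multiset.induction_on with
  | empty =>
    rw [Multiset.prod_zero]
    exact stable_one
  | cons W s ih =>
    rw [Multiset.prod_cons]
    exact (hs W (Multiset.mem_cons_self W s)).mul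
      (ih fun W' hW' => hs W' (Multiset.mem_cons_of_mem hW'))

/-- The span of finitely many weight vectors, closed under the action. -/
theorem stable_span {s : Set (Pol N C)} (hs : s.Finite) (hwt : ∀ p ∈ s, ∃ β, p ∈ wtSpace C β)
    (hact : ∀ a b, ∀ p ∈ s, E a b p ∈ Submodule.span ℚ s) : Stable (Submodule.span ℚ s) := by
  exact tn_span hs hwt hact

/-- A basis of weight vectors. -/
private theorem rc18_basis {W : Submodule ℚ (Pol N C)} (hW : W.FG)
    (hh : ∀ p ∈ W, ∀ β, comp β p ∈ W) :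
    ∃ (ι : Type) (_ : Fintype ι) (b : ι → Pol N C) (wt : ι → (Fin N →₀ ℕ)),
      LinearIndependent ℚ b ∧ Submodule.span ℚ (Set.range b) = W ∧ ∀ i, b i ∈ wtSpace C (wt i) := by
  obtain ⟨t, ht, hs, hli⟩ := exists_linearIndependent ℚ (tn_wv W)
  rw [tn_eq hh] at hs
  have hfin : Module.Finite ℚ W := Module.Finite.iff_fg.2 hW
  have htW : ∀ x : t, (x : Pol N C) ∈ W := fun x => (ht x.2).1
  have hli' : LinearIndependent ℚ (fun x : t => (⟨x, htW x⟩ : W)) :=
    LinearIndependent.of_comp W.subtype hli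
  have hft : Finite t := hli'.finite
  have hFt : Fintype t := Fintype.ofFinite t
  have hwt : ∀ x : t, ∃ β, (x : Pol N C) ∈ wtSpace C β := fun x => (ht x.2).2
  choose wt hwt using hwt
  refine ⟨t, hFt, Subtype.val, wt, hli, ?_, hwt⟩
  rw [Subtype.range_coe]
  exact hs

/-- The character of a space with a basis of weight vectors. -/
private theorem rc18_ch {ι : Type} [Fintype ι] {b : ι → Pol N C} {wt : ι → (Fin N →₀ ℕ)}
    (hli : LinearIndependent ℚ b) (hwt : ∀ i, b i ∈ wtSpace C (wt i)) :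
    ch (Submodule.span ℚ (Set.range b)) = ∑ i, monomial (wt i) (1 : ℤ) := by
  classical
  have hfg : (Submodule.span ℚ (Set.range b)).FG := Submodule.fg_span (Set.finite_range b)
  ext β
  rw [coeff_ch hfg, coeff_sum]
  have h1 : Submodule.span ℚ (Set.range b) ⊓ wtSpace C β =
      Submodule.span ℚ (Set.range fun i : {i // wt i = β} => b i.1) := by
    apply le_antisymm
    · rintro p ⟨hp, hpβ⟩
      obtain ⟨c, rfl⟩ := (Submodule.mem_span_range_iff_exists_fun ℚ).1 hp
      have h2 := comp_of_mem hpβ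
      rw [map_sum] at h2
      rw [← h2]
      refine Submodule.sum_mem _ fun i _ => ?_
      rw [map_smul]
      refine Submodule.smul_mem _ _ ?_
      by_cases h3 : wt i = β
      · have h4 := comp_of_mem (hwt i)
        rw [h3] at h4
        rw [h4]
        exact Submodule.subset_span ⟨⟨i, h3⟩, rfl⟩
      · rw [comp_of_mem_ne (hwt i) h3]
        exact Submodule.zero_mem _
    · rw [Submodule.span_le]
      rintro p ⟨⟨i, hi⟩, rfl⟩
      refine ⟨Submodule.subset_span ⟨i, rfl⟩, ?_⟩
      have h3 := hwt i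
      rw [hi] at h3
      exact h3
  have h2 : LinearIndependent ℚ (fun i : {i // wt i = β} => b i.1) :=
    hli.comp _ Subtype.val_injective
  unfold mult
  rw [h1, finrank_span_eq_card h2, Fintype.card_subtype, Finset.card_filter, Nat.cast_sum]
  refine Finset.sum_congr rfl fun i _ => ?_
  rw [coeff_monomial]
  split_ifs <;> simp

/-- The support of the monomials of a polynomial in the columns `C₁`. -/
private theorem rc18_supp {C₁ : Set C} {p : Pol N C}
    (hp : p ∈ supported ℚ {q : Fin N × C | q.2 ∈ C₁}) {m : Fin N × C →₀ ℕ} (hm : coeff m p ≠ 0)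
    {i : Fin N × C} (hi : i.2 ∉ C₁) : m i = 0 := by
  by_contra h0
  have h1 : i ∈ p.vars :=
    (mem_vars_iff_mem_support i).2 ⟨m, mem_support_iff.2 hm, Finsupp.mem_support_iff.2 h0⟩
  exact hi ((mem_supported.1 hp) h1)

/-- Coefficients of a product of polynomials in different columns. -/
private theorem rc18_coeff {C₁ C₂ : Set C} (hC : Disjoint C₁ C₂) {p q : Pol N C}
    (hp : p ∈ supported ℚ {q : Fin N × C | q.2 ∈ C₁})
    (hq : q ∈ supported ℚ {q : Fin N × C | q.2 ∈ C₂}) {m₁ m₂ : Fin N × C →₀ ℕ}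
    (h₁ : ∀ i : Fin N × C, i.2 ∉ C₁ → m₁ i = 0) (h₂ : ∀ i : Fin N × C, i.2 ∉ C₂ → m₂ i = 0) :
    coeff (m₁ + m₂) (p * q) = coeff m₁ p * coeff m₂ q := by
  classical
  rw [coeff_mul]
  refine Finset.sum_eq_single (m₁, m₂) ?_ ?_
  · rintro ⟨a, b⟩ hab hne
    by_contra h0
    rw [Finset.HasAntidiagonal.mem_antidiagonal] at hab
    have ha : coeff a p ≠ 0 := left_ne_zero_of_mul h0
    have hb : coeff b q ≠ 0 := right_ne_zero_of_mul h0
    have key : ∀ i, a i = m₁ i ∧ b i = m₂ i := by
      intro i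
      have h3 := DFunLike.congr_fun hab i
      simp only [Finsupp.add_apply] at h3
      by_cases h4 : i.2 ∈ C₁
      · have h5 : i.2 ∉ C₂ := Set.disjoint_left.1 hC h4
        have h6 := rc18_supp hq hb h5
        have h7 := h₂ i h5
        constructor <;> omega
      · have h6 := rc18_supp hp ha h4
        have h7 := h₁ i h4
        constructor <;> omega
    apply hne
    rw [Prod.mk.injEq]
    exact ⟨Finsupp.ext fun i => (key i).1, Finsupp.ext fun i => (key i).2⟩
  · intro h
    refine absurd ?_ h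
    rw [Finset.HasAntidiagonal.mem_antidiagonal]

/-- Products of linearly independent polynomials in different columns. -/
private theorem rc18_li {ι ι' : Type} [Fintype ι] [Fintype ι'] {b : ι → Pol N C}
    {b' : ι' → Pol N C} (hb : LinearIndependent ℚ b) (hb' : LinearIndependent ℚ b')
    {C₁ C₂ : Set C} (hC : Disjoint C₁ C₂)
    (h1 : ∀ i, b i ∈ supported ℚ {q : Fin N × C | q.2 ∈ C₁})
    (h2 : ∀ j, b' j ∈ supported ℚ {q : Fin N × C | q.2 ∈ C₂}) :
    LinearIndependent ℚ (fun p : ι × ι' => b p.1 * b' p.2) := by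
  rw [Fintype.linearIndependent_iff] at hb hb' ⊢
  intro g hg
  rintro ⟨i, j⟩
  refine hb' (fun j => g (i, j)) ?_ j
  ext m₂
  rw [coeff_zero, coeff_sum]
  by_cases h₂ : ∀ k : Fin N × C, k.2 ∉ C₂ → m₂ k = 0
  · refine (Finset.sum_congr rfl fun j _ => coeff_smul m₂ (g (i, j)) (b' j)).trans ?_
    simp only [smul_eq_mul]
    refine hb (fun i => ∑ j, g (i, j) * coeff m₂ (b' j)) ?_ i
    ext m₁
    rw [coeff_zero, coeff_sum]
    by_cases h₁ : ∀ k : Fin N × C, k.2 ∉ C₁ → m₁ k = 0
    · have h3 := congrArg (coeff (m₁ + m₂)) hg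
      rw [coeff_zero, coeff_sum, Fintype.sum_prod_type] at h3
      rw [← h3]
      refine Finset.sum_congr rfl fun i _ => ?_
      rw [coeff_smul, smul_eq_mul, Finset.sum_mul]
      refine Finset.sum_congr rfl fun j _ => ?_
      rw [coeff_smul, smul_eq_mul, rc18_coeff hC (h1 i) (h2 j) h₁ h₂]
      ring
    · push Not at h₁
      obtain ⟨k, hk, hk0⟩ := h₁
      refine Finset.sum_eq_zero fun i _ => ?_
      rw [coeff_smul, smul_eq_mul]
      by_cases h3 : coeff m₁ (b i) = 0
      · rw [h3, mul_zero]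
      · exact absurd (rc18_supp (h1 i) h3 hk) hk0
  · push Not at h₂
    obtain ⟨k, hk, hk0⟩ := h₂
    refine Finset.sum_eq_zero fun j _ => ?_
    rw [coeff_smul, smul_eq_mul]
    by_cases h3 : coeff m₂ (b' j) = 0
    · rw [h3, mul_zero]
    · exact absurd (rc18_supp (h2 j) h3 hk) hk0

/-- The product of two spaces of polynomials in different columns. -/
theorem ch_mul {W W' : Submodule ℚ (Pol N C)} (hW : W.FG) (hW' : W'.FG)
    (hh : ∀ p ∈ W, ∀ β, comp β p ∈ W) (hh' : ∀ p ∈ W', ∀ β, comp β p ∈ W')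
    (C₁ C₂ : Set C) (hC : Disjoint C₁ C₂)
    (h1 : ∀ p ∈ W, p ∈ supported ℚ {q : Fin N × C | q.2 ∈ C₁})
    (h2 : ∀ p ∈ W', p ∈ supported ℚ {q : Fin N × C | q.2 ∈ C₂}) :
    ch (W * W') = ch W * ch W' := by
  obtain ⟨ι, _, b, wt, hli, hs, hwt⟩ := rc18_basis hW hh
  obtain ⟨ι', _, b', wt', hli', hs', hwt'⟩ := rc18_basis hW' hh'
  have hb : ∀ i, b i ∈ W := fun i => by
    rw [← hs]
    exact Submodule.subset_span ⟨i, rfl⟩
  have hb' : ∀ j, b' j ∈ W' := fun j => by
    rw [← hs']
    exact Submodule.subset_span ⟨j, rfl⟩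
  have hprod := rc18_li hli hli' hC (fun i => h1 _ (hb i)) (fun j => h2 _ (hb' j))
  have hmul : W * W' = Submodule.span ℚ (Set.range fun p : ι × ι' => b p.1 * b' p.2) := by
    rw [← hs, ← hs', Submodule.span_mul_span]
    congr 1
    ext x
    constructor
    · rintro ⟨_, ⟨i, rfl⟩, _, ⟨j, rfl⟩, rfl⟩
      exact ⟨(i, j), rfl⟩
    · rintro ⟨⟨i, j⟩, rfl⟩
      exact ⟨_, ⟨i, rfl⟩, _, ⟨j, rfl⟩, rfl⟩
  have hwp : ∀ p : ι × ι', b p.1 * b' p.2 ∈ wtSpace C (wt p.1 + wt' p.2) := fun p =>
    IsWeightedHomogeneous.mul (hwt p.1) (hwt' p.2)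
  rw [hmul, rc18_ch (wt := fun p : ι × ι' => wt p.1 + wt' p.2) hprod hwp, ← hs, ← hs',
    rc18_ch hli hwt, rc18_ch hli' hwt', Finset.sum_mul_sum, Fintype.sum_prod_type]
  refine Finset.sum_congr rfl fun i _ => Finset.sum_congr rfl fun j _ => ?_
  rw [monomial_mul, one_mul]

end MP967.Rep
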