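import Pool.Agent.Lib.MP_967fd7_co.Rep.Highest

/-! Traces of `E b a ∘ E a b` on weight spaces. -/

namespace MP967.Rep

open MvPolynomial

variable {N : ℕ} {C : Type}

open Classical in
/-- The trace of `E b a ∘ E a b` on the weight space `β` of `W`. -/
noncomputable def tr (W : Submodule ℚ (Pol N C)) (a b : Fin N) (β : Fin N →₀ ℕ) : ℚ :=
  if h : ∀ p ∈ W ⊓ wtSpace C β,
      ((E b a).toLinearMap ∘ₗ (E a b).toLinearMap) p ∈ W ⊓ wtSpace C β then
    LinearMap.trace ℚ ↥(W ⊓ wtSpace C β)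
      (((E b a).toLinearMap ∘ₗ (E a b).toLinearMap).restrict h)
  else 0

theorem RC9_fin {W : Submodule ℚ (Pol N C)} (hW : W.FG) (β : Fin N →₀ ℕ) :
    Module.Finite ℚ ↥(W ⊓ wtSpace C β) := by
  have h1 : Module.Finite ℚ W := Module.Finite.iff_fg.2 hW
  exact Submodule.finiteDimensional_of_le inf_le_left

theorem RC9_map {W : Submodule ℚ (Pol N C)} (hW : Stable W) {a b : Fin N}
    {β γ : Fin N →₀ ℕ} (h : β + Finsupp.single a 1 = γ + Finsupp.single b 1) :
    ∀ p ∈ W ⊓ wtSpace C β, (E a b : Derivation ℚ (Pol N C) (Pol N C)).toLinearMap p ∈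
      W ⊓ wtSpace C γ := fun p hp =>
  Submodule.mem_inf.2 ⟨hW.act a b p (Submodule.mem_inf.1 hp).1, E_mem h (Submodule.mem_inf.1 hp).2⟩

theorem RC9_mem {W : Submodule ℚ (Pol N C)} (hW : Stable W) (a b : Fin N) (β : Fin N →₀ ℕ) :
    ∀ p ∈ W ⊓ wtSpace C β,
      ((E b a).toLinearMap ∘ₗ (E a b : Derivation ℚ (Pol N C) (Pol N C)).toLinearMap) p ∈
        W ⊓ wtSpace C β := by
  intro p hp
  rw [LinearMap.comp_apply]
  by_cases hb : β b = 0
  · have h1 : (E a b : Derivation ℚ (Pol N C) (Pol N C)).toLinearMap p = 0 :=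
      E_zero hb (Submodule.mem_inf.1 hp).2
    rw [h1, map_zero]
    exact Submodule.zero_mem _
  · have hle : Finsupp.single b 1 ≤ β + Finsupp.single a 1 := by
      refine (Finsupp.single_le_iff.2 ?_).trans le_self_add
      exact Nat.one_le_iff_ne_zero.2 hb
    have hg : β + Finsupp.single a 1 =
        (β + Finsupp.single a 1 - Finsupp.single b 1) + Finsupp.single b 1 :=
      (tsub_add_cancel_of_le hle).symm
    exact RC9_map hW hg.symm _ (RC9_map hW hg p hp)

theorem RC9_tr_eq {W : Submodule ℚ (Pol N C)} {a b : Fin N} {β : Fin N →₀ ℕ}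
    (h : ∀ p ∈ W ⊓ wtSpace C β,
      ((E b a).toLinearMap ∘ₗ (E a b : Derivation ℚ (Pol N C) (Pol N C)).toLinearMap) p ∈
        W ⊓ wtSpace C β) :
    tr W a b β = LinearMap.trace ℚ ↥(W ⊓ wtSpace C β)
      (((E b a).toLinearMap ∘ₗ (E a b : Derivation ℚ (Pol N C) (Pol N C)).toLinearMap).restrict
        h) := by
  unfold tr
  rw [dif_pos h]

/-- the commutator on a weight space -/
theorem RC9_comm {a b : Fin N} {γ : Fin N →₀ ℕ} {p : Pol N C} (hp : p ∈ wtSpace C γ) :
    E a b (E b a p) = E b a (E a b p) + ((γ a : ℚ) - γ b) • p := by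
  have h1 := E_comm a b b a p
  rw [if_pos rfl, if_pos rfl, E_diag a hp, E_diag b hp, ← sub_smul] at h1
  rw [← h1]
  ring

/-- `tr (E_ba E_ab | β) = tr (E_ab E_ba | γ)`, `γ = β + e_a - e_b`. -/
theorem tr_step {W : Submodule ℚ (Pol N C)} (hW : Stable W) {a b : Fin N} (hab : a ≠ b)
    {β γ : Fin N →₀ ℕ} (h : β + Finsupp.single a 1 = γ + Finsupp.single b 1) :
    tr W a b β = tr W a b γ + ((γ a : ℚ) - γ b) * mult W γ := by
  have hfβ := RC9_fin hW.fin β
  have hfγ := RC9_fin hW.fin γ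
  rw [RC9_tr_eq (RC9_mem hW a b β), RC9_tr_eq (RC9_mem hW a b γ)]
  have e1 : ((E b a).toLinearMap ∘ₗ (E a b : Derivation ℚ (Pol N C) (Pol N C)).toLinearMap).restrict
      (RC9_mem hW a b β) =
      ((E b a : Derivation ℚ (Pol N C) (Pol N C)).toLinearMap.restrict (RC9_map hW h.symm)) ∘ₗ
      ((E a b : Derivation ℚ (Pol N C) (Pol N C)).toLinearMap.restrict (RC9_map hW h)) := by
    ext x
    rfl
  have e2 : ((E a b : Derivation ℚ (Pol N C) (Pol N C)).toLinearMap.restrict (RC9_map hW h)) ∘ₗ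
      ((E b a : Derivation ℚ (Pol N C) (Pol N C)).toLinearMap.restrict (RC9_map hW h.symm)) =
      ((E b a).toLinearMap ∘ₗ (E a b : Derivation ℚ (Pol N C) (Pol N C)).toLinearMap).restrict
      (RC9_mem hW a b γ) + ((γ a : ℚ) - γ b) • LinearMap.id := by
    apply LinearMap.ext
    intro x
    apply Subtype.ext
    exact RC9_comm (Submodule.mem_inf.1 x.2).2
  rw [e1, LinearMap.trace_comp_comm', e2, map_add, map_smul, LinearMap.trace_id, smul_eq_mul]
  rfl

theorem tr_low {W : Submodule ℚ (Pol N C)} (hW : Stable W) {a b : Fin N} (hab : a ≠ b)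
    {β : Fin N →₀ ℕ} (h : β b = 0) : tr W a b β = 0 := by
  rw [RC9_tr_eq (RC9_mem hW a b β)]
  have e1 : ((E b a).toLinearMap ∘ₗ (E a b : Derivation ℚ (Pol N C) (Pol N C)).toLinearMap).restrict
      (RC9_mem hW a b β) = 0 := by
    apply LinearMap.ext
    intro x
    apply Subtype.ext
    show E b a (E a b (x : Pol N C)) = 0
    rw [E_zero h (Submodule.mem_inf.1 x.2).2, map_zero]
  rw [e1, map_zero]

theorem tr_high {W : Submodule ℚ (Pol N C)} (hW : Stable W) {a b : Fin N} (hab : a ≠ b)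
    {γ : Fin N →₀ ℕ} (h : γ a = 0) : tr W a b γ + ((γ a : ℚ) - γ b) * mult W γ = 0 := by
  have hfγ := RC9_fin hW.fin γ
  rw [RC9_tr_eq (RC9_mem hW a b γ)]
  have e1 : ((E b a).toLinearMap ∘ₗ (E a b : Derivation ℚ (Pol N C) (Pol N C)).toLinearMap).restrict
      (RC9_mem hW a b γ) + ((γ a : ℚ) - γ b) • LinearMap.id = 0 := by
    apply LinearMap.ext
    intro x
    apply Subtype.ext
    show E b a (E a b (x : Pol N C)) + ((γ a : ℚ) - γ b) • (x : Pol N C) = 0
    rw [← RC9_comm (Submodule.mem_inf.1 x.2).2, E_zero h (Submodule.mem_inf.1 x.2).2, map_zero]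
  have e2 := congrArg (LinearMap.trace ℚ ↥(W ⊓ wtSpace C γ)) e1
  rw [map_add, map_smul, LinearMap.trace_id, smul_eq_mul, map_zero] at e2
  exact e2

theorem tr_eq_zero {W : Submodule ℚ (Pol N C)} {a b : Fin N} {β : Fin N →₀ ℕ}
    (h : mult W β = 0) (hW : W.FG) : tr W a b β = 0 := by
  classical
  have h1 := (mult_eq_zero_iff hW).1 h
  have h2 : ∀ p ∈ W ⊓ wtSpace C β, p = 0 := fun p hp =>
    h1 p (Submodule.mem_inf.1 hp).1 (Submodule.mem_inf.1 hp).2
  have h3 : ∀ p ∈ W ⊓ wtSpace C β,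
      ((E b a).toLinearMap ∘ₗ (E a b : Derivation ℚ (Pol N C) (Pol N C)).toLinearMap) p ∈
        W ⊓ wtSpace C β := by
    intro p hp
    rw [h2 p hp, map_zero]
    exact Submodule.zero_mem _
  rw [RC9_tr_eq h3]
  have e1 : ((E b a).toLinearMap ∘ₗ (E a b : Derivation ℚ (Pol N C) (Pol N C)).toLinearMap).restrict
      h3 = 0 := by
    apply LinearMap.ext
    intro x
    apply Subtype.ext
    show E b a (E a b (x : Pol N C)) = 0
    rw [h2 x x.2, map_zero, map_zero]
  rw [e1, map_zero]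

/-- The Casimir operator on a weight space. -/
theorem RC9_cas (β : Fin N →₀ ℕ) {p : Pol N C} (hp : p ∈ wtSpace C β) :
    ∑ a, ∑ b, E a b (E b a p) = (∑ a, (β a : ℚ) ^ 2) • p +
      (∑ q ∈ Finset.univ.filter (fun q : Fin N × Fin N => q.1 < q.2), ((β q.1 : ℚ) - β q.2)) • p +
      (2 : ℚ) • ∑ q ∈ Finset.univ.filter (fun q : Fin N × Fin N => q.1 < q.2),
        E q.2 q.1 (E q.1 q.2 p) := by
  have h0 : ∀ a b : Fin N, E a b (E b a p) =
      (if a = b then ((β a : ℚ) ^ 2) • p else 0) +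
      ((if a < b then ((β a : ℚ) - β b) • p + E b a (E a b p) else 0) +
      (if b < a then E a b (E b a p) else 0)) := by
    intro a b
    rcases lt_trichotomy a b with h | h | h
    · rw [if_neg h.ne, if_pos h, if_neg h.not_gt, zero_add, add_zero, RC9_comm hp, add_comm]
    · subst h
      rw [if_pos rfl, if_neg (lt_irrefl a), if_neg (lt_irrefl a), add_zero, add_zero, E_diag a hp,
        Derivation.map_smul, E_diag a hp, smul_smul, pow_two]
    · rw [if_neg h.ne', if_neg h.not_gt, if_pos h, zero_add, zero_add]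
  have h1 : ∑ a, ∑ b, E a b (E b a p) = ∑ a, ∑ b, ((if a = b then ((β a : ℚ) ^ 2) • p else 0) +
      ((if a < b then ((β a : ℚ) - β b) • p + E b a (E a b p) else 0) +
      (if b < a then E a b (E b a p) else 0))) :=
    Finset.sum_congr rfl fun a _ => Finset.sum_congr rfl fun b _ => h0 a b
  have h2 : ∑ a : Fin N, ∑ b : Fin N, (if a = b then ((β a : ℚ) ^ 2) • p else 0) =
      (∑ a, (β a : ℚ) ^ 2) • p := by
    rw [Finset.sum_smul]
    refine Finset.sum_congr rfl fun a _ => ?_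
    rw [Finset.sum_ite_eq Finset.univ a (fun _ => ((β a : ℚ) ^ 2) • p),
      if_pos (Finset.mem_univ a)]
  have h3 : ∑ a : Fin N, ∑ b : Fin N,
      (if a < b then ((β a : ℚ) - β b) • p + E b a (E a b p) else 0) =
      (∑ q ∈ Finset.univ.filter (fun q : Fin N × Fin N => q.1 < q.2),
        ((β q.1 : ℚ) - β q.2)) • p +
      ∑ q ∈ Finset.univ.filter (fun q : Fin N × Fin N => q.1 < q.2),
        E q.2 q.1 (E q.1 q.2 p) := by
    rw [Finset.sum_smul, ← Finset.sum_add_distrib, Finset.sum_filter, Fintype.sum_prod_type]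
  have h4 : ∑ a : Fin N, ∑ b : Fin N, (if b < a then E a b (E b a p) else 0) =
      ∑ q ∈ Finset.univ.filter (fun q : Fin N × Fin N => q.1 < q.2),
        E q.2 q.1 (E q.1 q.2 p) := by
    rw [Finset.sum_comm, Finset.sum_filter, Fintype.sum_prod_type]
  rw [h1]
  simp only [Finset.sum_add_distrib]
  rw [h2, h3, h4, two_smul]
  ring

/-- The trace of the Casimir operator on a weight space. -/
theorem tr_casimir [Finite C] {f : Pol N C} {lam : Fin N →₀ ℕ} (hf : IsHW f lam)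
    (β : Fin N →₀ ℕ) : cas lam * mult (cyc f) β =
      (∑ a, (β a : ℚ) ^ 2) * mult (cyc f) β +
      (∑ p ∈ Finset.univ.filter (fun p : Fin N × Fin N => p.1 < p.2), ((β p.1 : ℚ) - β p.2)) *
        mult (cyc f) β +
      2 * ∑ p ∈ Finset.univ.filter (fun p : Fin N × Fin N => p.1 < p.2), tr (cyc f) p.1 p.2 β := by
  have hW := cyc_stable hf
  have hfin := RC9_fin hW.fin β
  have e1 : cas lam • (LinearMap.id : ↥(cyc f ⊓ wtSpace C β) →ₗ[ℚ] ↥(cyc f ⊓ wtSpace C β)) =
      (∑ a, (β a : ℚ) ^ 2) • LinearMap.id +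
      (∑ q ∈ Finset.univ.filter (fun q : Fin N × Fin N => q.1 < q.2),
        ((β q.1 : ℚ) - β q.2)) • LinearMap.id +
      (2 : ℚ) • ∑ q ∈ Finset.univ.filter (fun q : Fin N × Fin N => q.1 < q.2),
        ((E q.2 q.1).toLinearMap ∘ₗ
          (E q.1 q.2 : Derivation ℚ (Pol N C) (Pol N C)).toLinearMap).restrict
          (RC9_mem hW q.1 q.2 β) := by
    apply LinearMap.ext
    intro x
    apply Subtype.ext
    have h1 := cyc_casimir hf (Submodule.mem_inf.1 x.2).1
    rw [RC9_cas β (Submodule.mem_inf.1 x.2).2] at h1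
    simp only [LinearMap.add_apply, LinearMap.smul_apply, LinearMap.sum_apply, LinearMap.id_apply,
      Submodule.coe_add, Submodule.coe_smul, Submodule.coe_sum]
    exact h1.symm
  have e2 := congrArg (LinearMap.trace ℚ ↥(cyc f ⊓ wtSpace C β)) e1
  rw [map_add, map_add, map_smul, map_smul, map_smul, map_smul, map_sum, LinearMap.trace_id] at e2
  simp only [smul_eq_mul] at e2
  have e3 : ∀ q : Fin N × Fin N, tr (cyc f) q.1 q.2 β = LinearMap.trace ℚ ↥(cyc f ⊓ wtSpace C β)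
      (((E q.2 q.1).toLinearMap ∘ₗ
          (E q.1 q.2 : Derivation ℚ (Pol N C) (Pol N C)).toLinearMap).restrict
          (RC9_mem hW q.1 q.2 β)) := fun q => RC9_tr_eq _
  rw [Finset.sum_congr rfl fun q _ => e3 q]
  exact e2

end MP967.Rep
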